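import Mathlib

/-!
Definitions for the statement on Fermi varieties of planar periodic Schroedinger operators.
-/

set_option autoImplicit false

open MeasureTheory

namespace Pool.Agent.Hhelper96.Fermi

/-- The unit cell `(0,1] × (0,1]` of `ℝ² / ℤ²`. -/
def cell : Set (Fin 2 → ℝ) := {x | ∀ i, x i ∈ Set.Ioc (0 : ℝ) 1}

/-- The Fourier coefficient `∫_cell e^{-2π i n·x} u(x) dx`, for `n` in `ℤ²`. -/
noncomputable def fc (u : (Fin 2 → ℝ) → ℂ) (n : Fin 2 → ℤ) : ℂ :=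
  ∫ x in cell, Complex.exp (-(2 * Real.pi * Complex.I * ∑ i, (n i : ℂ) * (x i : ℂ))) * u x

/-- `lam` is an eigenvalue of `H(k) = -(∇ + 2π i k)² + V` on `L²(ℝ²/ℤ²)`, with domain `H²(ℝ²/ℤ²)`:
there is a nonzero `u` in `L²` of the unit cell, with `|n|² û(n)` square summable, such that all
Fourier coefficients of `H(k) u - lam u` vanish. -/
def IsEigenvalue (V : (Fin 2 → ℝ) → ℝ) (k : Fin 2 → ℂ) (lam : ℂ) : Prop :=
  ∃ u : (Fin 2 → ℝ) → ℂ, MemLp u 2 (volume.restrict cell) ∧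
    ¬ (u =ᵐ[volume.restrict cell] 0) ∧
    (Summable fun n : Fin 2 → ℤ => ‖(∑ i, (n i : ℂ) ^ 2) * fc u n‖ ^ 2) ∧
    ∀ n : Fin 2 → ℤ, 4 * (Real.pi : ℂ) ^ 2 * (∑ i, ((n i : ℂ) + k i) ^ 2) * fc u n +
      fc (fun x => (V x : ℂ) * u x) n = lam * fc u n

/-- The Fermi variety `F_lam(V)`. -/
def FermiVariety (V : (Fin 2 → ℝ) → ℝ) (lam : ℂ) : Set (Fin 2 → ℂ) := {k | IsEigenvalue V k lam}

/-- `A` is an analytic subset of `ℂ²`: near every point of `ℂ²` it is the common zero set of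
finitely many holomorphic functions. -/
def IsAnalyticSubset (A : Set (Fin 2 → ℂ)) : Prop :=
  ∀ p : Fin 2 → ℂ, ∃ U : Set (Fin 2 → ℂ), IsOpen U ∧ p ∈ U ∧
    ∃ (m : ℕ) (f : Fin m → (Fin 2 → ℂ) → ℂ), (∀ j, AnalyticOnNhd ℂ (f j) U) ∧
      A ∩ U = {k ∈ U | ∀ j, f j k = 0}

/-- `A` is invariant under translations by `ℤ²`. -/
def IsTranslationInvariant (A : Set (Fin 2 → ℂ)) : Prop :=
  ∀ k ∈ A, ∀ n : Fin 2 → ℤ, (fun i => k i + (n i : ℂ)) ∈ A

/-- `F` is irreducible modulo periodicity: it is not the union of two proper `ℤ²`-invariant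
analytic subsets. -/
def IrreducibleModPeriodicity (F : Set (Fin 2 → ℂ)) : Prop :=
  ¬ ∃ A B : Set (Fin 2 → ℂ), IsAnalyticSubset A ∧ IsTranslationInvariant A ∧
    IsAnalyticSubset B ∧ IsTranslationInvariant B ∧ A ⊂ F ∧ B ⊂ F ∧ F = A ∪ B

end Pool.Agent.Hhelper96.Fermi
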