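import Pool.Agent.Hhelper96.Fermi.Liou

/-!
Global facts on `κ`, `S` and `μ`.
-/

set_option autoImplicit false

open Complex Filter Topology

namespace Pool.Agent.Hhelper96.Fermi

theorem Lat_add_int {z : ℂ} (m : ℤ) : z + m ∈ Lat ↔ z ∈ Lat := by
  constructor
  · rintro ⟨a, b, h⟩
    exact ⟨a - m, b, by push_cast; linear_combination h⟩
  · rintro ⟨a, b, h⟩
    exact ⟨a + m, b, by push_cast; linear_combination h⟩

theorem Lat_add_int_I {z : ℂ} (m : ℤ) : z + m * I ∈ Lat ↔ z ∈ Lat := by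
  constructor
  · rintro ⟨a, b, h⟩
    exact ⟨a, b - m, by push_cast; linear_combination h⟩
  · rintro ⟨a, b, h⟩
    exact ⟨a, b + m, by push_cast; linear_combination h⟩

theorem kap_add_nat {z : ℂ} (hz : z ∉ Lat) (n : ℕ) : kap (z + n) = kap z + n := by
  induction n with
  | zero => simp
  | succ n ih =>
    have hz' : z + n ∉ Lat := by
      have := (Lat_add_int (z := z) (n : ℤ)).not.2 hz
      push_cast at this
      exact this
    have e : z + ((n + 1 : ℕ) : ℂ) = z + n + 1 := by push_cast; ring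
    rw [e, kap_add_one hz', ih]
    push_cast
    ring

theorem kap_add_int {z : ℂ} (hz : z ∉ Lat) (n : ℤ) : kap (z + n) = kap z + n := by
  obtain ⟨m, rfl | rfl⟩ := n.eq_nat_or_neg
  · exact_mod_cast kap_add_nat hz m
  · have hz' : z + ((-(m : ℤ) : ℤ) : ℂ) ∉ Lat := (Lat_add_int (z := z) (-(m : ℤ))).not.2 hz
    have h := kap_add_nat hz' m
    have e : z + ((-(m : ℤ) : ℤ) : ℂ) + (m : ℂ) = z := by push_cast; ring
    rw [e] at h
    rw [h]
    push_cast
    ring

theorem S_add_nat {z : ℂ} (hz : z ∉ Lat) (n : ℕ) : S (z + n) = S z + 2 * n * kap z + n ^ 2 := by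
  induction n with
  | zero => simp
  | succ n ih =>
    have hz' : z + n ∉ Lat := by
      have := (Lat_add_int (z := z) (n : ℤ)).not.2 hz
      push_cast at this
      exact this
    have e : z + ((n + 1 : ℕ) : ℂ) = z + n + 1 := by push_cast; ring
    rw [e, S_add_one hz', ih, kap_add_nat hz]
    push_cast
    ring

theorem S_add_int {z : ℂ} (hz : z ∉ Lat) (n : ℤ) : S (z + n) = S z + 2 * n * kap z + n ^ 2 := by
  obtain ⟨m, rfl | rfl⟩ := n.eq_nat_or_neg
  · exact_mod_cast S_add_nat hz m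
  · have hz' : z + ((-(m : ℤ) : ℤ) : ℂ) ∉ Lat := (Lat_add_int (z := z) (-(m : ℤ))).not.2 hz
    have h := S_add_nat hz' m
    have h2 := kap_add_int hz (-(m : ℤ))
    have e : z + ((-(m : ℤ) : ℤ) : ℂ) + (m : ℂ) = z := by push_cast; ring
    rw [e, h2] at h
    rw [h]
    push_cast
    ring

theorem kap_add_int_I (z : ℂ) (n : ℤ) : kap (z + n * I) = kap z := by
  have h : Function.Periodic kap I := fun z => kap_add_I z
  exact h.int_mul n z

/-- `κ(z) - i κ(iz) = z` -/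
theorem kap_relation {z : ℂ} (hz : z ∉ Lat) : kap z - I * kap (I * z) = z := by
  obtain ⟨M, hM, hnear⟩ := kap_near
  set g : ℂ → ℂ := fun z => kap z - I * kap (I * z) - z with hg
  have hd : ∀ z, z ∉ Lat → DifferentiableAt ℂ g z := by
    intro z hz
    have hIz : I * z ∉ Lat := mem_Lat_I_mul.not.2 hz
    have h1 := differentiableAt_kap hz
    have h2 : DifferentiableAt ℂ (fun z => kap (I * z)) z :=
      DifferentiableAt.comp z (f := fun z : ℂ => I * z) (differentiableAt_kap hIz) (by fun_prop)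
    exact (h1.sub (h2.const_mul I)).sub differentiableAt_id
  have h1 : ∀ z, z ∉ Lat → g (z + 1) = g z := by
    intro z hz
    simp only [hg]
    rw [kap_add_one hz, mul_add, mul_one, kap_add_I]
    ring
  have hI : ∀ z, z ∉ Lat → g (z + I) = g z := by
    intro z hz
    simp only [hg]
    have hIz : I * z - 1 ∉ Lat := by
      intro h
      have := mem_Lat_add_one.2 h
      rw [sub_add_cancel] at this
      exact hz (mem_Lat_I_mul.1 this)
    have e : I * (z + I) = I * z - 1 := by rw [mul_add, I_mul_I]; ring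
    have h3 := kap_add_one hIz
    rw [sub_add_cancel] at h3
    rw [kap_add_I, e, h3]
    ring
  have hpne : (Real.pi : ℂ) ≠ 0 := by exact_mod_cast Real.pi_ne_zero
  have hb : ∀ z, z ≠ 0 → ‖z‖ < 1 / 8 → ‖g z‖ ≤ 2 * M + 1 := by
    intro z hz0 hz
    have hIz0 : I * z ≠ 0 := mul_ne_zero I_ne_zero hz0
    have n1 := hnear z hz0 hz.le
    have hnI : ‖I * z‖ = ‖z‖ := by rw [norm_mul, norm_I, one_mul]
    have n2 := hnear (I * z) hIz0 (by rw [hnI]; exact hz.le)
    rw [hnI] at n2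
    have e : g z = (kap z - 1 / (2 * Real.pi * z)) - I * (kap (I * z) - 1 / (2 * Real.pi * (I * z)))
        - z := by
      simp only [hg]
      field_simp
      ring
    rw [e]
    calc _ ≤ ‖(kap z - 1 / (2 * Real.pi * z)) - I * (kap (I * z) - 1 / (2 * Real.pi * (I * z)))‖
          + ‖z‖ := norm_sub_le _ _
      _ ≤ (‖kap z - 1 / (2 * Real.pi * z)‖ + ‖I * (kap (I * z) - 1 / (2 * Real.pi * (I * z)))‖)
          + ‖z‖ := by
          gcongr
          exact norm_sub_le _ _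
      _ ≤ _ := by
          rw [norm_mul, norm_I, one_mul]
          nlinarith [norm_nonneg z]
  obtain ⟨c, hc, -⟩ := liouville hd h1 hI (by norm_num : (0 : ℝ) < 1 / 8) hb
  have hodd : g (-z) = -g z := by
    simp only [hg]
    rw [kap_neg, mul_neg, kap_neg]
    ring
  have e1 := hc z hz
  have e2 := hc (-z) (mem_Lat_neg.not.2 hz)
  rw [hodd, e1] at e2
  have hc0 : c = 0 := by linear_combination (-e2) / 2
  rw [hc0] at e1
  simp only [hg] at e1
  linear_combination e1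

/-- the spectral parameter -/
noncomputable def mu (z : ℂ) : ℂ := 4 * (Real.pi : ℂ) ^ 2 * (kap z ^ 2 - S z)

theorem mu_neg (z : ℂ) : mu (-z) = mu z := by
  unfold mu; rw [kap_neg, S_neg]; ring

theorem mu_add_int {z : ℂ} (hz : z ∉ Lat) (n : ℤ) : mu (z + n) = mu z := by
  unfold mu; rw [kap_add_int hz, S_add_int hz]; ring

theorem mu_add_one {z : ℂ} (hz : z ∉ Lat) : mu (z + 1) = mu z := by
  unfold mu; rw [kap_add_one hz, S_add_one hz]; ring

theorem mu_add_I (z : ℂ) : mu (z + I) = mu z := by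
  unfold mu; rw [kap_add_I, S_add_I]

theorem differentiableAt_mu {z : ℂ} (hz : z ∉ Lat) : DifferentiableAt ℂ mu z := by
  unfold mu
  exact (((differentiableAt_kap hz).pow 2).sub (differentiableAt_S hz)).const_mul _

/-- `μ(z) = 1/z² + O(1)` -/
theorem mu_near : ∃ M : ℝ, 0 < M ∧ ∀ z : ℂ, z ≠ 0 → ‖z‖ ≤ 1 / 8 → ‖mu z - 1 / z ^ 2‖ ≤ M := by
  obtain ⟨M, hM, hnear⟩ := kap_near
  obtain ⟨M', hM', hS⟩ := S_near
  refine ⟨64 * (M ^ 2 + M + M'), by positivity, ?_⟩
  intro z hz0 hz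
  have hpne : (Real.pi : ℂ) ≠ 0 := by exact_mod_cast Real.pi_ne_zero
  set e : ℂ := kap z - 1 / (2 * Real.pi * z) with he
  have h1 : ‖e‖ ≤ M * ‖z‖ := hnear z hz0 hz
  have h2 := hS z hz0 hz
  have hk : kap z = 1 / (2 * Real.pi * z) + e := by rw [he]; ring
  have hmu : mu z - 1 / z ^ 2 = 4 * (Real.pi : ℂ) ^ 2 * (e ^ 2 + e / z / Real.pi - S z) := by
    unfold mu
    rw [hk]
    field_simp
    ring
  rw [hmu, norm_mul]
  have hpi := Real.pi_gt_three
  have hpi4 := Real.pi_lt_four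
  have n1 : ‖4 * (Real.pi : ℂ) ^ 2‖ ≤ 64 := by
    rw [norm_mul, norm_pow, Complex.norm_real, Real.norm_of_nonneg Real.pi_pos.le]
    have : ‖(4 : ℂ)‖ = 4 := by norm_num
    rw [this]
    nlinarith
  have hzpos : 0 < ‖z‖ := norm_pos_iff.2 hz0
  have n2 : ‖e / z / Real.pi‖ ≤ M := by
    rw [norm_div, norm_div, Complex.norm_real, Real.norm_of_nonneg Real.pi_pos.le]
    have : ‖e‖ / ‖z‖ ≤ M := by rw [div_le_iff₀ hzpos]; exact h1
    calc ‖e‖ / ‖z‖ / Real.pi ≤ M / Real.pi := div_le_div_of_nonneg_right this Real.pi_pos.le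
      _ ≤ M / 1 := div_le_div_of_nonneg_left hM.le one_pos (by linarith)
      _ = M := div_one M
  have n3 : ‖e ^ 2‖ ≤ M ^ 2 := by
    rw [norm_pow]
    have : ‖e‖ ≤ M := by nlinarith
    exact pow_le_pow_left₀ (norm_nonneg _) this 2
  have n4 : ‖e ^ 2 + e / z / Real.pi - S z‖ ≤ M ^ 2 + M + M' := by
    refine (norm_sub_le _ _).trans ?_
    have := norm_add_le (e ^ 2) (e / z / Real.pi)
    linarith
  exact mul_le_mul n1 n4 (norm_nonneg _) (by norm_num)

/-- the energy at which the variety is reducible -/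
theorem mu_sum : ∃ lam : ℂ, ∀ z, z ∉ Lat → mu z + mu (I * z) = lam := by
  obtain ⟨M, hM, hnear⟩ := mu_near
  set g : ℂ → ℂ := fun z => mu z + mu (I * z) with hg
  have hd : ∀ z, z ∉ Lat → DifferentiableAt ℂ g z := by
    intro z hz
    have hIz : I * z ∉ Lat := mem_Lat_I_mul.not.2 hz
    have h2 : DifferentiableAt ℂ (fun z => mu (I * z)) z :=
      DifferentiableAt.comp z (f := fun z : ℂ => I * z) (differentiableAt_mu hIz) (by fun_prop)
    exact (differentiableAt_mu hz).add h2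
  have h1 : ∀ z, z ∉ Lat → g (z + 1) = g z := by
    intro z hz
    simp only [hg]
    rw [mu_add_one hz, mul_add, mul_one, mu_add_I]
  have hI : ∀ z, z ∉ Lat → g (z + I) = g z := by
    intro z hz
    simp only [hg]
    have hIz : I * z - 1 ∉ Lat := by
      intro h
      have := mem_Lat_add_one.2 h
      rw [sub_add_cancel] at this
      exact hz (mem_Lat_I_mul.1 this)
    have e : I * (z + I) = I * z - 1 := by rw [mul_add, I_mul_I]; ring
    have h3 := mu_add_one hIz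
    rw [sub_add_cancel] at h3
    rw [mu_add_I, e, h3]
  have hb : ∀ z, z ≠ 0 → ‖z‖ < 1 / 8 → ‖g z‖ ≤ 2 * M := by
    intro z hz0 hz
    have hIz0 : I * z ≠ 0 := mul_ne_zero I_ne_zero hz0
    have n1 := hnear z hz0 hz.le
    have hnI : ‖I * z‖ = ‖z‖ := by rw [norm_mul, norm_I, one_mul]
    have n2 := hnear (I * z) hIz0 (by rw [hnI]; exact hz.le)
    have e : g z = (mu z - 1 / z ^ 2) + (mu (I * z) - 1 / (I * z) ^ 2) := by
      simp only [hg]
      rw [mul_pow, I_sq]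
      field_simp
      ring
    rw [e]
    refine (norm_add_le _ _).trans ?_
    linarith
  obtain ⟨c, hc, -⟩ := liouville hd h1 hI (by norm_num : (0 : ℝ) < 1 / 8) hb
  exact ⟨c, hc⟩

/-- `μ` is onto. -/
theorem mu_surj (m₀ : ℂ) : ∃ z, z ∉ Lat ∧ mu z = m₀ := by
  by_contra hcon
  push Not at hcon
  obtain ⟨M, hM, hnear⟩ := mu_near
  set g : ℂ → ℂ := fun z => (mu z - m₀)⁻¹ with hg
  have hne : ∀ z, z ∉ Lat → mu z - m₀ ≠ 0 := fun z hz => sub_ne_zero.2 (hcon z hz)
  have hd : ∀ z, z ∉ Lat → DifferentiableAt ℂ g z := by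
    intro z hz
    exact ((differentiableAt_mu hz).sub_const m₀).inv (hne z hz)
  have h1 : ∀ z, z ∉ Lat → g (z + 1) = g z := by
    intro z hz
    simp only [hg]
    rw [mu_add_one hz]
  have hI : ∀ z, z ∉ Lat → g (z + I) = g z := by
    intro z hz
    simp only [hg]
    rw [mu_add_I]
  -- near zero, |mu z - m₀| ≥ 1/(2|z|²)
  set r : ℝ := min (1 / 8) (1 / (2 * (M + ‖m₀‖ + 1))) with hr
  have hr0 : 0 < r := by
    apply lt_min (by norm_num)
    positivity
  have hlow : ∀ z, z ≠ 0 → ‖z‖ < r → ‖g z‖ ≤ 2 * ‖z‖ ^ 2 := by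
    intro z hz0 hz
    have hz1 : ‖z‖ ≤ 1 / 8 := hz.le.trans (min_le_left _ _)
    have hz2 : ‖z‖ < 1 / (2 * (M + ‖m₀‖ + 1)) := hz.trans_le (min_le_right _ _)
    have hzpos : 0 < ‖z‖ := norm_pos_iff.2 hz0
    have n1 := hnear z hz0 hz1
    have hK : 0 < M + ‖m₀‖ + 1 := by positivity
    have h5 : ‖z‖ * (2 * (M + ‖m₀‖ + 1)) < 1 := by
      rwa [lt_div_iff₀ (by positivity)] at hz2
    have h6 : (M + ‖m₀‖) ≤ 1 / (2 * ‖z‖ ^ 2) := by
      rw [le_div_iff₀ (by positivity)]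
      nlinarith
    have h7 : 1 / ‖z‖ ^ 2 ≤ ‖mu z - m₀‖ + (M + ‖m₀‖) := by
      have e : 1 / z ^ 2 = (mu z - m₀) - (mu z - 1 / z ^ 2) + m₀ := by ring
      calc 1 / ‖z‖ ^ 2 = ‖1 / z ^ 2‖ := by rw [norm_div, norm_one, norm_pow]
        _ = ‖(mu z - m₀) - (mu z - 1 / z ^ 2) + m₀‖ := by rw [← e]
        _ ≤ ‖(mu z - m₀) - (mu z - 1 / z ^ 2)‖ + ‖m₀‖ := norm_add_le _ _
        _ ≤ (‖mu z - m₀‖ + ‖mu z - 1 / z ^ 2‖) + ‖m₀‖ := by
            gcongr
            exact norm_sub_le _ _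
        _ ≤ _ := by linarith
    have h8 : 1 / (2 * ‖z‖ ^ 2) ≤ ‖mu z - m₀‖ := by
      have : 1 / ‖z‖ ^ 2 = 1 / (2 * ‖z‖ ^ 2) + 1 / (2 * ‖z‖ ^ 2) := by
        field_simp
        norm_num
      linarith
    simp only [hg]
    rw [norm_inv]
    calc ‖mu z - m₀‖⁻¹ ≤ (1 / (2 * ‖z‖ ^ 2))⁻¹ := inv_anti₀ (by positivity) h8
      _ = 2 * ‖z‖ ^ 2 := by rw [one_div, inv_inv]
  have hb : ∀ z, z ≠ 0 → ‖z‖ < r → ‖g z‖ ≤ 2 * r ^ 2 := by
    intro z hz0 hz
    refine (hlow z hz0 hz).trans ?_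
    have := norm_nonneg z
    gcongr
  obtain ⟨c, hc, hlim⟩ := liouville hd h1 hI hr0 hb
  -- the limit is zero
  have hlim0 : Tendsto g (𝓝[≠] 0) (𝓝 0) := by
    rw [tendsto_zero_iff_norm_tendsto_zero]
    have h3 : Tendsto (fun z : ℂ => 2 * ‖z‖ ^ 2) (𝓝[≠] 0) (𝓝 0) := by
      have : Continuous (fun z : ℂ => 2 * ‖z‖ ^ 2) := by fun_prop
      have h4 := (this.tendsto 0).mono_left (nhdsWithin_le_nhds (s := {0}ᶜ))
      simpa using h4
    refine squeeze_zero' (Eventually.of_forall fun _ => norm_nonneg _) ?_ h3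
    have hs : Metric.ball (0 : ℂ) r ∈ 𝓝 (0 : ℂ) := Metric.ball_mem_nhds _ hr0
    filter_upwards [mem_nhdsWithin_of_mem_nhds hs, self_mem_nhdsWithin] with z hz hz0
    exact hlow z hz0 (by simpa using hz)
  have hc0 : c = 0 := tendsto_nhds_unique hlim hlim0
  have hhalf : (1 / 2 : ℂ) ∉ Lat := not_mem_Lat_of_small (by norm_num) (by norm_num)
  have h9 := hc (1 / 2) hhalf
  rw [hc0] at h9
  exact inv_ne_zero (hne _ hhalf) h9

/-! ### reality on the real line -/

theorem conj_sh (z : ℂ) : sh ((starRingEnd ℂ) z) = (starRingEnd ℂ) (sh z) := by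
  unfold sh
  rw [← Complex.sinh_conj, map_mul, Complex.conj_ofReal]

theorem conj_ch (z : ℂ) : ch ((starRingEnd ℂ) z) = (starRingEnd ℂ) (ch z) := by
  unfold ch
  rw [← Complex.cosh_conj, map_mul, Complex.conj_ofReal]

theorem conj_C (z : ℂ) : C ((starRingEnd ℂ) z) = (starRingEnd ℂ) (C z) := by
  unfold C
  rw [conj_sh, conj_ch, map_div₀]

theorem conj_P (j : ℕ) (z : ℂ) : P j ((starRingEnd ℂ) z) = (starRingEnd ℂ) (P j z) := by
  unfold P
  rw [map_add, ← conj_C, ← conj_C]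
  simp

theorem conj_kap (z : ℂ) : kap ((starRingEnd ℂ) z) = (starRingEnd ℂ) (kap z) := by
  unfold kap
  rw [map_div₀, map_add, ← conj_C, Complex.conj_tsum]
  have h : (fun j : ℕ => P j ((starRingEnd ℂ) z)) = fun j : ℕ => (starRingEnd ℂ) (P j z) :=
    funext (fun j => conj_P j z)
  rw [h, map_ofNat]

theorem kap_real (x : ℝ) : ((kap x).re : ℂ) = kap x := by
  apply Complex.conj_eq_iff_re.1
  rw [← conj_kap, Complex.conj_ofReal]

theorem kap_half : kap (1 / 2) = 1 / 2 := by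
  have h : (-(1 / 2) : ℂ) ∉ Lat := not_mem_Lat_of_small (by norm_num) (by norm_num)
  have h1 := kap_add_one h
  rw [kap_neg] at h1
  have e : (-(1 / 2) : ℂ) + 1 = 1 / 2 := by norm_num
  rw [e] at h1
  linear_combination h1 / 2

/-- The point separating the two components. -/
theorem exists_separating : ∃ x : ℝ, 0 < x ∧ x < 1 ∧ 2 * kap x - x = 1 := by
  obtain ⟨M, hM, hnear⟩ := kap_near
  set φ : ℝ → ℝ := fun x => 2 * (kap x).re - x with hφ
  have hφc : ContinuousOn φ (Set.Ioo 0 1) := by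
    intro x hx
    apply ContinuousAt.continuousWithinAt
    have hxL : (x : ℂ) ∉ Lat := by
      apply not_mem_Lat_of_small
      · exact_mod_cast hx.1.ne'
      · rw [Complex.norm_real, Real.norm_of_nonneg hx.1.le]; exact hx.2
    have h1 : ContinuousAt (fun y : ℝ => kap y) x :=
      ContinuousAt.comp (f := fun y : ℝ => (y : ℂ)) (differentiableAt_kap hxL).continuousAt
        Complex.continuous_ofReal.continuousAt
    have h2 : ContinuousAt (fun y : ℝ => (kap y).re) x :=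
      Complex.continuous_re.continuousAt.comp h1
    exact (h2.const_mul 2).sub continuousAt_id
  -- a point where φ ≥ 1
  set x₀ : ℝ := min (1 / 16) (1 / (16 * (M + 1))) with hx₀
  have hx₀pos : 0 < x₀ := lt_min (by norm_num) (by positivity)
  have hx₀le : x₀ ≤ 1 / 16 := min_le_left _ _
  have hpi := Real.pi_gt_three
  have hpi4 := Real.pi_lt_four
  have hbig : 1 ≤ φ x₀ := by
    have hx₀' : (x₀ : ℂ) ≠ 0 := by exact_mod_cast hx₀pos.ne'
    have hn : ‖(x₀ : ℂ)‖ = x₀ := by rw [Complex.norm_real, Real.norm_of_nonneg hx₀pos.le]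
    have h1 := hnear x₀ hx₀' (by rw [hn]; linarith)
    rw [hn] at h1
    have h2 : |(kap x₀ - 1 / (2 * Real.pi * x₀)).re| ≤ M * x₀ :=
      (Complex.abs_re_le_norm _).trans h1
    have h3 : (kap x₀ - 1 / (2 * Real.pi * x₀)).re = (kap x₀).re - 1 / (2 * Real.pi * x₀) := by
      rw [Complex.sub_re]
      congr 1
      have : (1 / (2 * (Real.pi : ℂ) * x₀)) = ((1 / (2 * Real.pi * x₀) : ℝ) : ℂ) := by
        push_cast; rfl
      rw [this, Complex.ofReal_re]
    rw [h3] at h2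
    have h4 := (abs_le.1 h2).1
    have h5 : 1 / (8 * x₀) ≤ 1 / (2 * Real.pi * x₀) := by
      apply one_div_le_one_div_of_le (by positivity)
      nlinarith
    have h6 : x₀ * (16 * (M + 1)) ≤ 1 := by
      have : x₀ ≤ 1 / (16 * (M + 1)) := min_le_right _ _
      rwa [le_div_iff₀ (by positivity)] at this
    have h7 : 2 * (M + 1) ≤ 1 / (8 * x₀) := by
      rw [le_div_iff₀ (by positivity)]
      linarith
    simp only [hφ]
    nlinarith
  have hhalf : φ (1 / 2) = 1 / 2 := by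
    simp only [hφ]
    have : kap (((1 / 2 : ℝ)) : ℂ) = 1 / 2 := by
      push_cast
      exact kap_half
    rw [this]
    norm_num
  have hsub : Set.Icc x₀ (1 / 2) ⊆ Set.Ioo (0 : ℝ) 1 := by
    intro x hx
    exact ⟨hx₀pos.trans_le hx.1, hx.2.trans_lt (by norm_num)⟩
  have hIVT := intermediate_value_Icc' (f := φ) (a := x₀) (b := 1 / 2) (by linarith)
    (hφc.mono hsub)
  rw [hhalf] at hIVT
  obtain ⟨x, hx, hxe⟩ := hIVT (⟨by norm_num, hbig⟩ : (1 : ℝ) ∈ Set.Icc (1 / 2) (φ x₀))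
  refine ⟨x, (hsub hx).1, (hsub hx).2, ?_⟩
  simp only [hφ] at hxe
  rw [← kap_real x]
  exact_mod_cast hxe

/-! ### the explicit Floquet solutions -/

/-- Fourier coefficients of the potential -/
noncomputable def v (m : ℤ) : ℂ := -(4 * (Real.pi : ℂ) ^ 2 * w m)

theorem v_neg (m : ℤ) : v (-m) = v m := by unfold v; rw [w_neg]

theorem norm_v_le (m : ℤ) : ‖v m‖ ≤ 256 * Real.exp (-(2 * |(m : ℝ)|)) := by
  unfold v
  rw [norm_neg, norm_mul]
  have n1 : ‖4 * (Real.pi : ℂ) ^ 2‖ ≤ 64 := by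
    rw [norm_mul, norm_pow, Complex.norm_real, Real.norm_of_nonneg Real.pi_pos.le]
    have : ‖(4 : ℂ)‖ = 4 := by norm_num
    have hpi := Real.pi_gt_three
    have hpi4 := Real.pi_lt_four
    rw [this]
    nlinarith
  calc ‖4 * (Real.pi : ℂ) ^ 2‖ * ‖w m‖ ≤ 64 * (4 * Real.exp (-(2 * |(m : ℝ)|))) :=
        mul_le_mul n1 (norm_w_le m) (norm_nonneg _) (by norm_num)
    _ = _ := by ring

theorem summable_norm_v : Summable (fun m : ℤ => ‖v m‖) :=
  Summable.of_nonneg_of_le (fun _ => norm_nonneg _) norm_v_le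
    ((summable_exp_abs (c := 2) (by norm_num)).mul_left 256)

theorem v_one_ne : v 1 ≠ 0 := by
  unfold v w
  have h1 : sh ((1 : ℤ) : ℂ) ≠ 0 := sh_int_ne_zero one_ne_zero
  have hpne : (Real.pi : ℂ) ≠ 0 := by exact_mod_cast Real.pi_ne_zero
  apply neg_ne_zero.2
  apply mul_ne_zero
  · exact mul_ne_zero (by norm_num) (pow_ne_zero 2 hpne)
  · exact div_ne_zero (by norm_num) h1

/-- the Fourier coefficients of the Floquet solution -/
noncomputable def fb (β : ℂ) (n : ℤ) : ℂ := 1 / sh (β + n)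

theorem fb_ne {β : ℂ} (hβ : β ∉ Lat) (n : ℤ) : fb β n ≠ 0 := by
  unfold fb
  have := sh_ne_zero hβ (-n)
  push_cast at this
  rw [sub_neg_eq_add] at this
  exact one_div_ne_zero this

theorem fb_bound {β : ℂ} (hβ : β ∉ Lat) : ∃ B : ℝ, 0 ≤ B ∧ ∀ n : ℤ,
    ‖fb β n‖ ≤ B * Real.exp (-(2 * |(n : ℝ)|)) := by
  obtain ⟨B, hB, hev⟩ := local_bounds hβ
  refine ⟨B, hB, fun n => ?_⟩
  have := hev.self_of_nhds.2.2.2 (-n)
  unfold fb
  push_cast at this
  rw [sub_neg_eq_add, abs_neg] at this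
  exact this

theorem fb_eq {β : ℂ} (hβ : β ∉ Lat) (n : ℤ) :
    4 * (Real.pi : ℂ) ^ 2 * ((n : ℂ) + kap β) ^ 2 * fb β n + ∑' m : ℤ, v m * fb β (n - m) =
      mu β * fb β n := by
  have hn : β + n ∉ Lat := (Lat_add_int n).not.2 hβ
  have hs : sh (β + n) ≠ 0 := sh_ne_zero' hn
  have h1 : ∀ m : ℤ, v m * fb β (n - m) = -(4 * (Real.pi : ℂ) ^ 2) * fb β n * t m (β + n) := by
    intro m
    unfold v fb t
    have e : β + ((n - m : ℤ) : ℂ) = β + n - m := by push_cast; ring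
    rw [e]
    have h2 := sh_ne_zero hn m
    field_simp
  rw [tsum_congr h1, tsum_mul_left]
  have h3 : ∑' m : ℤ, t m (β + n) = S (β + n) := rfl
  rw [h3, S_add_int hβ]
  unfold mu
  ring

end Pool.Agent.Hhelper96.Fermi
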