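import Pool.Agent.Hhelper96.Fermi.OneD

/-!
Separation of variables: a bounded nonzero solution of the two-dimensional equation in Fourier
coefficients gives bounded nonzero solutions of two one-dimensional equations.
-/

set_option autoImplicit false

open Complex Filter Topology

namespace Pool.Agent.Hhelper96.Fermi

section

variable (v : ℤ → ℂ) (k₁ k₂ lam : ℂ)

/-- the first diagonal factor -/
noncomputable def qq (k : ℂ) (a : ℤ) : ℂ := 4 * (Real.pi : ℂ) ^ 2 * ((a : ℂ) + k) ^ 2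

/-- convolution in the first variable -/
noncomputable def c1 (c : ℤ × ℤ → ℂ) (p : ℤ × ℤ) : ℂ := ∑' m : ℤ, v m * c (p.1 - m, p.2)

/-- convolution in the second variable -/
noncomputable def c2 (c : ℤ × ℤ → ℂ) (p : ℤ × ℤ) : ℂ := ∑' m : ℤ, v m * c (p.1, p.2 - m)

/-- the first one-dimensional operator -/
noncomputable def T1 (c : ℤ × ℤ → ℂ) (p : ℤ × ℤ) : ℂ := qq k₁ p.1 * c p + c1 v c p

/-- the second one-dimensional operator -/
noncomputable def T2 (c : ℤ × ℤ → ℂ) (p : ℤ × ℤ) : ℂ := qq k₂ p.2 * c p + c2 v c p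

end

variable {v : ℤ → ℂ} {k₁ k₂ lam : ℂ}

theorem summable_c1 (hv : Summable fun m => ‖v m‖) {c : ℤ × ℤ → ℂ} {M : ℝ} (hc : ∀ p, ‖c p‖ ≤ M)
    (p : ℤ × ℤ) : Summable fun m : ℤ => v m * c (p.1 - m, p.2) := by
  refine Summable.of_norm_bounded (hv.mul_right M) (fun m => ?_)
  rw [norm_mul]
  exact mul_le_mul_of_nonneg_left (hc _) (norm_nonneg _)

theorem summable_c2 (hv : Summable fun m => ‖v m‖) {c : ℤ × ℤ → ℂ} {M : ℝ} (hc : ∀ p, ‖c p‖ ≤ M)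
    (p : ℤ × ℤ) : Summable fun m : ℤ => v m * c (p.1, p.2 - m) := by
  refine Summable.of_norm_bounded (hv.mul_right M) (fun m => ?_)
  rw [norm_mul]
  exact mul_le_mul_of_nonneg_left (hc _) (norm_nonneg _)

theorem norm_c1_le (hv : Summable fun m => ‖v m‖) {c : ℤ × ℤ → ℂ} {M : ℝ} (hc : ∀ p, ‖c p‖ ≤ M)
    (p : ℤ × ℤ) : ‖c1 v c p‖ ≤ (∑' m, ‖v m‖) * M := by
  unfold c1
  rw [← tsum_mul_right]
  refine tsum_of_norm_bounded (hv.mul_right M).hasSum (fun m => ?_)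
  rw [norm_mul]
  exact mul_le_mul_of_nonneg_left (hc _) (norm_nonneg _)

theorem norm_c2_le (hv : Summable fun m => ‖v m‖) {c : ℤ × ℤ → ℂ} {M : ℝ} (hc : ∀ p, ‖c p‖ ≤ M)
    (p : ℤ × ℤ) : ‖c2 v c p‖ ≤ (∑' m, ‖v m‖) * M := by
  unfold c2
  rw [← tsum_mul_right]
  refine tsum_of_norm_bounded (hv.mul_right M).hasSum (fun m => ?_)
  rw [norm_mul]
  exact mul_le_mul_of_nonneg_left (hc _) (norm_nonneg _)

/-- commutation -/
theorem T_comm (hv : Summable fun m => ‖v m‖) {c : ℤ × ℤ → ℂ} {M : ℝ} (hc : ∀ p, ‖c p‖ ≤ M)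
    (hc1 : ∃ M', ∀ p, ‖T1 v k₁ c p‖ ≤ M') (hc2 : ∃ M', ∀ p, ‖T2 v k₂ c p‖ ≤ M')
    (p : ℤ × ℤ) : T2 v k₂ (T1 v k₁ c) p = T1 v k₁ (T2 v k₂ c) p := by
  obtain ⟨a, b⟩ := p
  have hM : 0 ≤ M := (norm_nonneg _).trans (hc 0)
  -- double summability
  have hd : Summable (Function.uncurry fun m l : ℤ => v m * (v l * c (a - l, b - m))) := by
    have h1 : Summable (fun q : ℤ × ℤ => ‖v q.1‖ * ‖v q.2‖ * M) :=
      (hv.mul_of_nonneg hv (fun _ => norm_nonneg _) (fun _ => norm_nonneg _)).mul_right M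
    refine Summable.of_norm_bounded h1 (fun q => ?_)
    simp only [Function.uncurry]
    rw [norm_mul, norm_mul, mul_assoc]
    exact mul_le_mul_of_nonneg_left (mul_le_mul_of_nonneg_left (hc _) (norm_nonneg _))
      (norm_nonneg _)
  have e1 : ∀ m : ℤ, v m * T1 v k₁ c (a, b - m) =
      qq k₁ a * (v m * c (a, b - m)) + ∑' l : ℤ, v m * (v l * c (a - l, b - m)) := by
    intro m
    unfold T1 c1
    rw [tsum_mul_left]
    ring
  have e2 : ∀ l : ℤ, v l * T2 v k₂ c (a - l, b) =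
      qq k₂ b * (v l * c (a - l, b)) + ∑' m : ℤ, v m * (v l * c (a - l, b - m)) := by
    intro l
    unfold T2 c2
    have : ∀ m : ℤ, v m * (v l * c (a - l, b - m)) = v l * (v m * c (a - l, b - m)) := by
      intro m; ring
    rw [tsum_congr this, tsum_mul_left]
    ring
  have s1 : Summable fun m : ℤ => ∑' l : ℤ, v m * (v l * c (a - l, b - m)) := hd.prod
  have s2 : Summable fun l : ℤ => ∑' m : ℤ, v m * (v l * c (a - l, b - m)) := by
    have h := (hd.prod_symm).prod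
    exact h
  have f1 : c2 v (T1 v k₁ c) (a, b) = qq k₁ a * c2 v c (a, b) +
      ∑' m : ℤ, ∑' l : ℤ, v m * (v l * c (a - l, b - m)) := by
    unfold c2
    simp only
    rw [tsum_congr e1, ((summable_c2 hv hc (a, b)).mul_left _).tsum_add s1, tsum_mul_left]
  have f2 : c1 v (T2 v k₂ c) (a, b) = qq k₂ b * c1 v c (a, b) +
      ∑' l : ℤ, ∑' m : ℤ, v m * (v l * c (a - l, b - m)) := by
    unfold c1
    simp only
    rw [tsum_congr e2, ((summable_c1 hv hc (a, b)).mul_left _).tsum_add s2, tsum_mul_left]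
  have hswap : ∑' l : ℤ, ∑' m : ℤ, v m * (v l * c (a - l, b - m)) =
      ∑' m : ℤ, ∑' l : ℤ, v m * (v l * c (a - l, b - m)) := hd.tsum_comm
  have g1 : T2 v k₂ (T1 v k₁ c) (a, b) = qq k₂ b * T1 v k₁ c (a, b) + c2 v (T1 v k₁ c) (a, b) := rfl
  have g2 : T1 v k₁ (T2 v k₂ c) (a, b) = qq k₁ a * T2 v k₂ c (a, b) + c1 v (T2 v k₂ c) (a, b) := rfl
  rw [g1, g2, f1, f2, hswap]
  unfold T1 T2
  simp only
  ring

/-- the space of bounded solutions -/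
noncomputable def EE (hv : Summable fun m => ‖v m‖) (k₁ k₂ lam : ℂ) : Submodule ℂ (ℤ × ℤ → ℂ) where
  carrier := {c | (∃ M : ℝ, ∀ p, ‖c p‖ ≤ M) ∧ ∀ p, T1 v k₁ c p + T2 v k₂ c p = lam * c p}
  add_mem' := by
    rintro c d ⟨⟨M, hM⟩, hc⟩ ⟨⟨M', hM'⟩, hd⟩
    refine ⟨⟨M + M', fun p => (norm_add_le _ _).trans (add_le_add (hM p) (hM' p))⟩, fun p => ?_⟩
    have e1 : c1 v (c + d) p = c1 v c p + c1 v d p := by
      unfold c1
      rw [← (summable_c1 hv hM p).tsum_add (summable_c1 hv hM' p)]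
      exact tsum_congr (fun m => by simp only [Pi.add_apply]; ring)
    have e2 : c2 v (c + d) p = c2 v c p + c2 v d p := by
      unfold c2
      rw [← (summable_c2 hv hM p).tsum_add (summable_c2 hv hM' p)]
      exact tsum_congr (fun m => by simp only [Pi.add_apply]; ring)
    have h1 := hc p
    have h2 := hd p
    unfold T1 T2 at *
    rw [e1, e2]
    simp only [Pi.add_apply]
    linear_combination h1 + h2
  zero_mem' := by
    refine ⟨⟨0, fun p => by simp⟩, fun p => ?_⟩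
    unfold T1 T2 c1 c2
    simp
  smul_mem' := by
    rintro r c ⟨⟨M, hM⟩, hc⟩
    refine ⟨⟨‖r‖ * M, fun p => ?_⟩, fun p => ?_⟩
    · simp only [Pi.smul_apply, smul_eq_mul, norm_mul]
      exact mul_le_mul_of_nonneg_left (hM p) (norm_nonneg _)
    · have e1 : c1 v (r • c) p = r * c1 v c p := by
        unfold c1
        rw [← tsum_mul_left]
        exact tsum_congr (fun m => by simp only [Pi.smul_apply, smul_eq_mul]; ring)
      have e2 : c2 v (r • c) p = r * c2 v c p := by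
        unfold c2
        rw [← tsum_mul_left]
        exact tsum_congr (fun m => by simp only [Pi.smul_apply, smul_eq_mul]; ring)
      have h1 := hc p
      unfold T1 T2 at *
      rw [e1, e2]
      simp only [Pi.smul_apply, smul_eq_mul]
      linear_combination r * h1

theorem q_lower (k₁ k₂ : ℂ) (a b : ℤ) :
    ‖(a : ℂ) + k₁‖ ^ 2 + ‖(b : ℂ) + k₂‖ ^ 2 ≤
      ‖((a : ℂ) + k₁) ^ 2 + ((b : ℂ) + k₂) ^ 2‖ + 2 * (k₁.im ^ 2 + k₂.im ^ 2) := by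
  have h1 : ‖(a : ℂ) + k₁‖ ^ 2 = (a + k₁.re) ^ 2 + k₁.im ^ 2 := by
    rw [← Complex.normSq_eq_norm_sq, Complex.normSq_apply]
    simp
    ring
  have h2 : ‖(b : ℂ) + k₂‖ ^ 2 = (b + k₂.re) ^ 2 + k₂.im ^ 2 := by
    rw [← Complex.normSq_eq_norm_sq, Complex.normSq_apply]
    simp
    ring
  have h3 : (((a : ℂ) + k₁) ^ 2 + ((b : ℂ) + k₂) ^ 2).re =
      (a + k₁.re) ^ 2 - k₁.im ^ 2 + ((b + k₂.re) ^ 2 - k₂.im ^ 2) := by
    simp [sq, Complex.add_re, Complex.mul_re]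
  have h4 := Complex.re_le_norm (((a : ℂ) + k₁) ^ 2 + ((b : ℂ) + k₂) ^ 2)
  rw [h3] at h4
  rw [h1, h2]
  linarith

theorem q_lower' (k₁ k₂ lam : ℂ) (a b : ℤ) :
    ‖(a : ℂ) + k₁‖ ^ 2 + ‖(b : ℂ) + k₂‖ ^ 2 ≤
      ‖qq k₁ a + qq k₂ b - lam‖ + ‖lam‖ + 2 * (k₁.im ^ 2 + k₂.im ^ 2) := by
  have h1 := q_lower k₁ k₂ a b
  have h2 : qq k₁ a + qq k₂ b = 4 * (Real.pi : ℂ) ^ 2 * (((a : ℂ) + k₁) ^ 2 + ((b : ℂ) + k₂) ^ 2) := by
    unfold qq; ring
  have h3 : ‖qq k₁ a + qq k₂ b‖ = 4 * Real.pi ^ 2 * ‖((a : ℂ) + k₁) ^ 2 + ((b : ℂ) + k₂) ^ 2‖ := by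
    rw [h2, norm_mul, norm_mul, norm_pow, Complex.norm_real, Real.norm_of_nonneg Real.pi_pos.le]
    norm_num
  have h4 : ‖qq k₁ a + qq k₂ b‖ ≤ ‖qq k₁ a + qq k₂ b - lam‖ + ‖lam‖ := by
    have : qq k₁ a + qq k₂ b = (qq k₁ a + qq k₂ b - lam) + lam := by ring
    calc _ = ‖(qq k₁ a + qq k₂ b - lam) + lam‖ := by rw [← this]
      _ ≤ _ := norm_add_le _ _
  have hpi := Real.pi_gt_three
  have h5 : 1 ≤ 4 * Real.pi ^ 2 := by nlinarith
  have h6 := mul_le_mul_of_nonneg_right h5 (norm_nonneg (((a : ℂ) + k₁) ^ 2 + ((b : ℂ) + k₂) ^ 2))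
  linarith

theorem finite_small (k₁ k₂ lam : ℂ) (K : ℝ) :
    {p : ℤ × ℤ | ‖qq k₁ p.1 + qq k₂ p.2 - lam‖ ≤ K}.Finite := by
  set R : ℝ := K + ‖lam‖ + 2 * (k₁.im ^ 2 + k₂.im ^ 2) + ‖k₁‖ + ‖k₂‖ + 1 with hR
  set N : ℤ := ⌈R⌉ with hN
  refine Set.Finite.subset (Set.finite_Icc ((-N, -N) : ℤ × ℤ) (N, N)) ?_
  rintro ⟨a, b⟩ hp
  have hp' : ‖qq k₁ a + qq k₂ b - lam‖ ≤ K := hp
  have h1 := q_lower' k₁ k₂ lam a b
  have hRN : R ≤ N := Int.le_ceil R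
  have ha : |(a : ℝ)| ≤ R := by
    have h2 : |(a : ℝ)| ≤ ‖(a : ℂ) + k₁‖ + ‖k₁‖ := by
      have : (a : ℂ) = ((a : ℂ) + k₁) - k₁ := by ring
      calc |(a : ℝ)| = ‖(a : ℂ)‖ := (Complex.norm_intCast a).symm
        _ = ‖((a : ℂ) + k₁) - k₁‖ := by rw [← this]
        _ ≤ _ := norm_sub_le _ _
    have h3 : ‖(a : ℂ) + k₁‖ ≤ 1 + ‖(a : ℂ) + k₁‖ ^ 2 := by
      nlinarith [sq_nonneg (‖(a : ℂ) + k₁‖ - 1), norm_nonneg ((a : ℂ) + k₁)]
    have h4 : 0 ≤ ‖(b : ℂ) + k₂‖ ^ 2 := by positivity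
    have h5 := norm_nonneg k₂
    linarith
  have hb : |(b : ℝ)| ≤ R := by
    have h2 : |(b : ℝ)| ≤ ‖(b : ℂ) + k₂‖ + ‖k₂‖ := by
      have : (b : ℂ) = ((b : ℂ) + k₂) - k₂ := by ring
      calc |(b : ℝ)| = ‖(b : ℂ)‖ := (Complex.norm_intCast b).symm
        _ = ‖((b : ℂ) + k₂) - k₂‖ := by rw [← this]
        _ ≤ _ := norm_sub_le _ _
    have h3 : ‖(b : ℂ) + k₂‖ ≤ 1 + ‖(b : ℂ) + k₂‖ ^ 2 := by
      nlinarith [sq_nonneg (‖(b : ℂ) + k₂‖ - 1), norm_nonneg ((b : ℂ) + k₂)]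
    have h4 : 0 ≤ ‖(a : ℂ) + k₁‖ ^ 2 := by positivity
    have h5 := norm_nonneg k₁
    linarith
  have ha' := abs_le.1 (ha.trans hRN)
  have hb' := abs_le.1 (hb.trans hRN)
  rw [Set.mem_Icc, Prod.mk_le_mk, Prod.mk_le_mk]
  refine ⟨⟨?_, ?_⟩, ⟨?_, ?_⟩⟩
  · exact_mod_cast ha'.1
  · exact_mod_cast hb'.1
  · exact_mod_cast ha'.2
  · exact_mod_cast hb'.2

theorem EE_finite (hv : Summable fun m => ‖v m‖) (k₁ k₂ lam : ℂ) :
    FiniteDimensional ℂ (EE hv k₁ k₂ lam) := by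
  set V1 : ℝ := ∑' m, ‖v m‖ with hV1
  have hV1n : 0 ≤ V1 := tsum_nonneg (fun _ => norm_nonneg _)
  set K : ℝ := 2 * V1 + 1 with hK
  set B : Set (ℤ × ℤ) := {p : ℤ × ℤ | ‖qq k₁ p.1 + qq k₂ p.2 - lam‖ ≤ K} with hB
  have hBf : B.Finite := finite_small k₁ k₂ lam K
  have : Finite B := hBf
  let R : (EE hv k₁ k₂ lam) →ₗ[ℂ] (B → ℂ) :=
    (LinearMap.funLeft ℂ ℂ (Subtype.val : B → ℤ × ℤ)).comp (EE hv k₁ k₂ lam).subtype
  have hinj : Function.Injective R := by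
    rw [← LinearMap.ker_eq_bot, LinearMap.ker_eq_bot']
    rintro ⟨c, ⟨M₀, hM₀⟩, hc⟩ hR
    have hz : ∀ p ∈ B, c p = 0 := by
      intro p hp
      have := congrFun hR ⟨p, hp⟩
      exact this
    -- iterate: if |c| ≤ M then K |c| ≤ 2 V1 M
    have hstep : ∀ M : ℝ, 0 ≤ M → (∀ p, ‖c p‖ ≤ M) → ∀ p, ‖c p‖ ≤ (2 * V1 / K) * M := by
      intro M hM0 hM p
      have hKpos : 0 < K := by positivity
      by_cases hp : p ∈ B
      · rw [hz p hp, norm_zero]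
        positivity
      · have h1 : K < ‖qq k₁ p.1 + qq k₂ p.2 - lam‖ := not_le.1 hp
        have h2 : (qq k₁ p.1 + qq k₂ p.2 - lam) * c p = -(c1 v c p + c2 v c p) := by
          have := hc p
          unfold T1 T2 at this
          linear_combination this
        have h3 : ‖qq k₁ p.1 + qq k₂ p.2 - lam‖ * ‖c p‖ ≤ V1 * M + V1 * M := by
          rw [← norm_mul, h2, norm_neg]
          exact (norm_add_le _ _).trans (add_le_add (norm_c1_le hv hM p) (norm_c2_le hv hM p))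
        have h4 : K * ‖c p‖ ≤ 2 * V1 * M := by
          have := mul_le_mul_of_nonneg_right h1.le (norm_nonneg (c p))
          linarith
        rw [div_mul_eq_mul_div, le_div_iff₀ hKpos]
        linarith
    have hr0 : 0 ≤ 2 * V1 / K := by positivity
    have hr1 : 2 * V1 / K < 1 := by
      rw [div_lt_one (by positivity)]
      linarith
    have hM₀0 : 0 ≤ M₀ := (norm_nonneg _).trans (hM₀ 0)
    have hiter : ∀ n : ℕ, ∀ p, ‖c p‖ ≤ (2 * V1 / K) ^ n * M₀ := by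
      intro n
      induction n with
      | zero => simpa using hM₀
      | succ n ih =>
        intro p
        have := hstep _ (by positivity) ih p
        calc _ ≤ _ := this
          _ = _ := by rw [pow_succ]; ring
    have hc0 : c = 0 := by
      funext p
      have hlim : Tendsto (fun n : ℕ => (2 * V1 / K) ^ n * M₀) atTop (𝓝 (0 * M₀)) :=
        (tendsto_pow_atTop_nhds_zero_of_lt_one hr0 hr1).mul_const M₀
      rw [zero_mul] at hlim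
      have : ‖c p‖ ≤ 0 := ge_of_tendsto' hlim (fun n => hiter n p)
      exact norm_le_zero_iff.1 this
    exact Subtype.ext hc0
  exact FiniteDimensional.of_injective R hinj

/-- `T1` preserves the solution space. -/
theorem T1_mem (hv : Summable fun m => ‖v m‖) {k₁ k₂ lam : ℂ} {c : ℤ × ℤ → ℂ}
    (hc : c ∈ EE hv k₁ k₂ lam) : T1 v k₁ c ∈ EE hv k₁ k₂ lam := by
  obtain ⟨⟨M, hM⟩, heq⟩ := hc
  have hM0 : 0 ≤ M := (norm_nonneg _).trans (hM 0)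
  set V1 : ℝ := ∑' m, ‖v m‖ with hV1
  have hV1n : 0 ≤ V1 := tsum_nonneg (fun _ => norm_nonneg _)
  have hb : ∃ M', ∀ p, ‖T1 v k₁ c p‖ ≤ M' := by
    refine ⟨64 * (2 * V1 * M + (‖lam‖ + 2 * (k₁.im ^ 2 + k₂.im ^ 2)) * M) + V1 * M, ?_⟩
    intro p
    have h2 : (qq k₁ p.1 + qq k₂ p.2 - lam) * c p = -(c1 v c p + c2 v c p) := by
      have := heq p
      unfold T1 T2 at this
      linear_combination this
    have h3 : ‖qq k₁ p.1 + qq k₂ p.2 - lam‖ * ‖c p‖ ≤ 2 * V1 * M := by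
      rw [← norm_mul, h2, norm_neg]
      refine (norm_add_le _ _).trans ?_
      have := norm_c1_le hv hM p
      have := norm_c2_le hv hM p
      linarith
    have h4 := q_lower' k₁ k₂ lam p.1 p.2
    have h5 : ‖(p.1 : ℂ) + k₁‖ ^ 2 * ‖c p‖ ≤ 2 * V1 * M +
        (‖lam‖ + 2 * (k₁.im ^ 2 + k₂.im ^ 2)) * M := by
      have h6 : ‖(p.1 : ℂ) + k₁‖ ^ 2 ≤ ‖qq k₁ p.1 + qq k₂ p.2 - lam‖ +
          (‖lam‖ + 2 * (k₁.im ^ 2 + k₂.im ^ 2)) := by
        have : 0 ≤ ‖(p.2 : ℂ) + k₂‖ ^ 2 := by positivity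
        linarith
      have h7 := mul_le_mul_of_nonneg_right h6 (norm_nonneg (c p))
      have h8 : (‖lam‖ + 2 * (k₁.im ^ 2 + k₂.im ^ 2)) * ‖c p‖ ≤
          (‖lam‖ + 2 * (k₁.im ^ 2 + k₂.im ^ 2)) * M :=
        mul_le_mul_of_nonneg_left (hM p) (by positivity)
      linarith
    unfold T1
    refine (norm_add_le _ _).trans ?_
    have h9 := norm_c1_le hv hM p
    have h10 : ‖qq k₁ p.1 * c p‖ ≤ 64 * (‖(p.1 : ℂ) + k₁‖ ^ 2 * ‖c p‖) := by
      unfold qq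
      rw [norm_mul, norm_mul, norm_mul, norm_pow, norm_pow, Complex.norm_real,
        Real.norm_of_nonneg Real.pi_pos.le]
      have n4 : ‖(4 : ℂ)‖ = 4 := by norm_num
      rw [n4]
      have hpi := Real.pi_gt_three
      have hpi4 := Real.pi_lt_four
      have h11 : 4 * Real.pi ^ 2 ≤ 64 := by nlinarith
      have h12 : 0 ≤ ‖(p.1 : ℂ) + k₁‖ ^ 2 * ‖c p‖ := by positivity
      calc 4 * Real.pi ^ 2 * ‖(p.1 : ℂ) + k₁‖ ^ 2 * ‖c p‖ =
          4 * Real.pi ^ 2 * (‖(p.1 : ℂ) + k₁‖ ^ 2 * ‖c p‖) := by ring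
        _ ≤ _ := mul_le_mul_of_nonneg_right h11 h12
    linarith
  have hT2 : ∀ p, T2 v k₂ c p = lam * c p - T1 v k₁ c p := fun p => by linear_combination heq p
  obtain ⟨M', hM'⟩ := hb
  have hb2 : ∃ M', ∀ p, ‖T2 v k₂ c p‖ ≤ M' := by
    refine ⟨‖lam‖ * M + M', fun p => ?_⟩
    rw [hT2]
    refine (norm_sub_le _ _).trans ?_
    rw [norm_mul]
    exact add_le_add (mul_le_mul_of_nonneg_left (hM p) (norm_nonneg _)) (hM' p)
  refine ⟨⟨M', hM'⟩, fun p => ?_⟩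
  rw [T_comm hv hM ⟨M', hM'⟩ hb2 p]
  have hfun : T2 v k₂ c = fun p => lam * c p - T1 v k₁ c p := funext hT2
  have e1 : T1 v k₁ (T2 v k₂ c) p = lam * T1 v k₁ c p - T1 v k₁ (T1 v k₁ c) p := by
    rw [hfun]
    have e2 : c1 v (fun p => lam * c p - T1 v k₁ c p) p = lam * c1 v c p - c1 v (T1 v k₁ c) p := by
      unfold c1
      rw [← tsum_mul_left, ← ((summable_c1 hv hM p).mul_left lam).tsum_sub (summable_c1 hv hM' p)]
      exact tsum_congr (fun m => by simp only; ring)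
    have g1 : T1 v k₁ (fun p => lam * c p - T1 v k₁ c p) p = qq k₁ p.1 * (lam * c p - T1 v k₁ c p) +
      c1 v (fun p => lam * c p - T1 v k₁ c p) p := rfl
    have g2 : T1 v k₁ (T1 v k₁ c) p = qq k₁ p.1 * T1 v k₁ c p + c1 v (T1 v k₁ c) p := rfl
    have g3 : T1 v k₁ c p = qq k₁ p.1 * c p + c1 v c p := rfl
    rw [g1, e2, g2, g3]
    ring
  rw [e1]
  ring

theorem exists_joint (hv : Summable fun m => ‖v m‖) {k₁ k₂ lam : ℂ} {c : ℤ × ℤ → ℂ}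
    (hc : c ∈ EE hv k₁ k₂ lam) (hne : c ≠ 0) :
    ∃ (m₀ : ℂ) (d : ℤ × ℤ → ℂ), (∃ M : ℝ, ∀ p, ‖d p‖ ≤ M) ∧ d ≠ 0 ∧
      (∀ p, T1 v k₁ d p = m₀ * d p) ∧ (∀ p, T2 v k₂ d p = (lam - m₀) * d p) := by
  have := EE_finite hv k₁ k₂ lam
  have : Nontrivial (EE hv k₁ k₂ lam) := ⟨⟨⟨c, hc⟩, 0, fun h => hne (congrArg Subtype.val h)⟩⟩
  let f : Module.End ℂ (EE hv k₁ k₂ lam) :=
    { toFun := fun c => ⟨T1 v k₁ c.1, T1_mem hv c.2⟩
      map_add' := by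
        rintro ⟨c, ⟨M, hM⟩, hc⟩ ⟨d, ⟨M', hM'⟩, hd⟩
        apply Subtype.ext
        funext p
        have e1 : c1 v (c + d) p = c1 v c p + c1 v d p := by
          unfold c1
          rw [← (summable_c1 hv hM p).tsum_add (summable_c1 hv hM' p)]
          exact tsum_congr (fun m => by simp only [Pi.add_apply]; ring)
        change T1 v k₁ (c + d) p = T1 v k₁ c p + T1 v k₁ d p
        unfold T1
        rw [e1]
        simp only [Pi.add_apply]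
        ring
      map_smul' := by
        rintro r ⟨c, ⟨M, hM⟩, hc⟩
        apply Subtype.ext
        funext p
        have e1 : c1 v (r • c) p = r * c1 v c p := by
          unfold c1
          rw [← tsum_mul_left]
          exact tsum_congr (fun m => by simp only [Pi.smul_apply, smul_eq_mul]; ring)
        change T1 v k₁ (r • c) p = r * T1 v k₁ c p
        unfold T1
        rw [e1]
        simp only [Pi.smul_apply, smul_eq_mul]
        ring }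
  obtain ⟨m₀, hm₀⟩ := Module.End.exists_eigenvalue f
  obtain ⟨⟨d, hd⟩, hdv⟩ := hm₀.exists_hasEigenvector
  have hd1 : f ⟨d, hd⟩ = m₀ • ⟨d, hd⟩ := hdv.apply_eq_smul
  have hd0 : d ≠ 0 := fun h => hdv.2 (Subtype.ext h)
  have e1 : ∀ p, T1 v k₁ d p = m₀ * d p := by
    intro p
    have h1 := congrArg Subtype.val hd1
    exact congrFun h1 p
  refine ⟨m₀, d, hd.1, hd0, e1, fun p => ?_⟩
  have h2 := hd.2 p
  rw [e1 p] at h2
  linear_combination h2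

/-- Separation of variables. -/
theorem separate (hv : Summable fun m => ‖v m‖) {k₁ k₂ lam : ℂ} {c : ℤ × ℤ → ℂ}
    {M : ℝ} (hM : ∀ p, ‖c p‖ ≤ M) (hne : ∃ p, c p ≠ 0)
    (heq : ∀ p, T1 v k₁ c p + T2 v k₂ c p = lam * c p) :
    ∃ (m₀ : ℂ) (f g : ℤ → ℂ), (∃ M : ℝ, ∀ n, ‖f n‖ ≤ M) ∧ (∃ M : ℝ, ∀ n, ‖g n‖ ≤ M) ∧
      (∃ n, f n ≠ 0) ∧ (∃ n, g n ≠ 0) ∧
      (∀ n : ℤ, 4 * (Real.pi : ℂ) ^ 2 * ((n : ℂ) + k₁) ^ 2 * f n + conv v f n = m₀ * f n) ∧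
      (∀ n : ℤ, 4 * (Real.pi : ℂ) ^ 2 * ((n : ℂ) + k₂) ^ 2 * g n + conv v g n =
        (lam - m₀) * g n) := by
  have hc : c ∈ EE hv k₁ k₂ lam := ⟨⟨M, hM⟩, heq⟩
  have hc0 : c ≠ 0 := by
    rintro rfl
    obtain ⟨p, hp⟩ := hne
    exact hp rfl
  obtain ⟨m₀, d, ⟨M', hM'⟩, hd0, h1, h2⟩ := exists_joint hv hc hc0
  obtain ⟨⟨a, b⟩, hab⟩ := Function.ne_iff.1 hd0
  refine ⟨m₀, fun j => d (j, b), fun j => d (a, j), ⟨M', fun n => hM' _⟩, ⟨M', fun n => hM' _⟩,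
    ⟨a, hab⟩, ⟨b, hab⟩, fun n => ?_, fun n => ?_⟩
  · exact h1 (n, b)
  · exact h2 (a, n)

end Pool.Agent.Hhelper96.Fermi
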