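import Pool.Agent.Hhelper96.Fermi.Torus
import Pool.Agent.Hhelper96.Fermi.TwoD

/-!
Fourier coefficients on the unit cell: products with a potential of one variable, and
products of functions of one variable.
-/

set_option autoImplicit false

open MeasureTheory Complex

namespace Pool.Agent.Hhelper96.Fermi

/-- the exponential in `fc` -/
noncomputable def ex (n : Fin 2 → ℤ) (x : Fin 2 → ℝ) : ℂ :=
  Complex.exp (-(2 * Real.pi * Complex.I * ∑ i, (n i : ℂ) * (x i : ℂ)))

theorem fc_def (u : (Fin 2 → ℝ) → ℂ) (n : Fin 2 → ℤ) : fc u n = ∫ x in cell, ex n x * u x := rfl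

theorem ex_eq (n : Fin 2 → ℤ) (x : Fin 2 → ℝ) : ex n x = ee (-n 0) (x 0) * ee (-n 1) (x 1) := by
  unfold ex ee
  rw [Fin.sum_univ_two, ← Complex.exp_add]
  congr 1
  push_cast
  ring

theorem norm_ex (n : Fin 2 → ℤ) (x : Fin 2 → ℝ) : ‖ex n x‖ = 1 := by
  rw [ex_eq, norm_mul, norm_ee, norm_ee, one_mul]

theorem continuous_ex (n : Fin 2 → ℤ) : Continuous (ex n) := by
  unfold ex; fun_prop

/-- the shifted index -/
def shiftIdx (n : Fin 2 → ℤ) (i : Fin 2) (m : ℤ) : Fin 2 → ℤ := fun j => if j = i then n j - m else n j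

theorem ex_shift (n : Fin 2 → ℤ) (i : Fin 2) (m : ℤ) (x : Fin 2 → ℝ) :
    ex n x * ee m (x i) = ex (shiftIdx n i m) x := by
  rw [ex_eq, ex_eq]
  fin_cases i
  · have e1 : shiftIdx n 0 m 0 = n 0 - m := by simp [shiftIdx]
    have e2 : shiftIdx n 0 m 1 = n 1 := by simp [shiftIdx]
    simp only [Fin.zero_eta, e1, e2]
    have e3 : -(n 0 - m) = -n 0 + m := by ring
    rw [e3, ee_add]
    ring
  · have e1 : shiftIdx n 1 m 0 = n 0 := by simp [shiftIdx]
    have e2 : shiftIdx n 1 m 1 = n 1 - m := by simp [shiftIdx]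
    simp only [Fin.mk_one, e1, e2]
    have e3 : -(n 1 - m) = -n 1 + m := by ring
    rw [e3, ee_add]
    ring

theorem integrable_of_memLp {u : (Fin 2 → ℝ) → ℂ} (hu : MemLp u 2 (volume.restrict cell)) :
    Integrable u (volume.restrict cell) := by
  have := isFiniteMeasure_cell
  exact hu.integrable (by norm_num)

theorem integrable_ex_mul {u : (Fin 2 → ℝ) → ℂ} (hu : Integrable u (volume.restrict cell))
    (n : Fin 2 → ℤ) : Integrable (fun x => ex n x * u x) (volume.restrict cell) :=
  hu.bdd_mul (c := 1) (continuous_ex n).aestronglyMeasurable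
    (Filter.Eventually.of_forall fun x => (norm_ex n x).le)

theorem norm_fc_le (u : (Fin 2 → ℝ) → ℂ) (n : Fin 2 → ℤ) : ‖fc u n‖ ≤ ∫ x in cell, ‖u x‖ := by
  rw [fc_def]
  refine (norm_integral_le_integral_norm _).trans (le_of_eq ?_)
  congr 1
  funext x
  rw [norm_mul, norm_ex, one_mul]

theorem fc_add {u u' : (Fin 2 → ℝ) → ℂ} (hu : Integrable u (volume.restrict cell))
    (hu' : Integrable u' (volume.restrict cell)) (n : Fin 2 → ℤ) :
    fc (fun x => u x + u' x) n = fc u n + fc u' n := by
  rw [fc_def, fc_def, fc_def, ← integral_add (integrable_ex_mul hu n) (integrable_ex_mul hu' n)]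
  congr 1
  funext x
  ring

/-- Fourier coefficients of the product with a potential of the variable `x i`. -/
theorem fc_pot {v : ℤ → ℂ} (hv : Summable fun m => ‖v m‖) {u : (Fin 2 → ℝ) → ℂ}
    (hu : Integrable u (volume.restrict cell)) (i : Fin 2) (n : Fin 2 → ℤ) :
    fc (fun x => Wp v (x i) * u x) n = ∑' m : ℤ, v m * fc u (shiftIdx n i m) := by
  have h := hasSum_integral_of_summable_integral_norm (μ := volume.restrict cell)
    (F := fun (m : ℤ) (x : Fin 2 → ℝ) => v m * (ex (shiftIdx n i m) x * u x))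
    (fun m => (integrable_ex_mul hu _).const_mul (v m))
    (by
      have : ∀ m : ℤ, ∫ x in cell, ‖v m * (ex (shiftIdx n i m) x * u x)‖ =
          ‖v m‖ * ∫ x in cell, ‖u x‖ := by
        intro m
        rw [← integral_const_mul]
        congr 1
        funext x
        rw [norm_mul, norm_mul, norm_ex, one_mul]
      exact (summable_congr this).2 (hv.mul_right _))
  rw [fc_def]
  have e1 : (∫ x in cell, ex n x * (Wp v (x i) * u x)) =
      ∫ x in cell, ∑' m : ℤ, v m * (ex (shiftIdx n i m) x * u x) := by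
    congr 1
    funext x
    unfold Wp
    have : ∀ m : ℤ, v m * (ex (shiftIdx n i m) x * u x) =
        (v m * ee m (x i)) * (ex n x * u x) := by
      intro m
      rw [← ex_shift]
      ring
    rw [tsum_congr this, tsum_mul_right]
    ring
  rw [e1, ← h.tsum_eq]
  refine tsum_congr (fun m => ?_)
  rw [integral_const_mul, fc_def]

theorem integrable_pot_mul {v : ℤ → ℂ} (hv : Summable fun m => ‖v m‖) {u : (Fin 2 → ℝ) → ℂ}
    (hu : Integrable u (volume.restrict cell)) (hc : Continuous (Wp v)) (i : Fin 2) :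
    Integrable (fun x => Wp v (x i) * u x) (volume.restrict cell) :=
  hu.bdd_mul (c := ∑' m, ‖v m‖)
    (hc.comp (continuous_apply i)).aestronglyMeasurable
    (Filter.Eventually.of_forall fun x => norm_Wp_le hv (x i))

theorem continuous_series {f : ℤ → ℂ} (hf : Summable fun m => ‖f m‖) :
    Continuous (fun t : ℝ => ∑' m, f m * ee m t) := by
  refine continuous_tsum (fun m => continuous_const.mul (continuous_ee m)) hf (fun m t => ?_)
  rw [norm_mul, norm_ee, mul_one]

/-- coefficients of an absolutely convergent series -/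
theorem coeff_series {f : ℤ → ℂ} (hf : Summable fun m => ‖f m‖) (n : ℤ) :
    ∫ t in Set.Ioc (0 : ℝ) 1, ee (-n) t * ∑' m, f m * ee m t = f n := by
  have h := hasSum_integral_of_summable_integral_norm (μ := volume.restrict (Set.Ioc (0 : ℝ) 1))
    (F := fun (m : ℤ) (x : ℝ) => f m * ee (m - n) x)
    (by
      intro m
      apply Continuous.integrableOn_Ioc
      exact continuous_const.mul (continuous_ee _))
    (by
      have : ∀ m : ℤ, ∫ x in Set.Ioc (0 : ℝ) 1, ‖f m * ee (m - n) x‖ = ‖f m‖ := by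
        intro m
        simp [norm_ee]
      exact (summable_congr this).2 hf)
  have e1 : ∀ x : ℝ, ∑' m, f m * ee (m - n) x = ee (-n) x * ∑' m, f m * ee m x := by
    intro x
    have : ∀ m, f m * ee (m - n) x = ee (-n) x * (f m * ee m x) := by
      intro m
      rw [sub_eq_add_neg, ee_add]
      ring
    rw [tsum_congr this, tsum_mul_left]
  simp only [e1] at h
  have e2 : ∀ m : ℤ, ∫ x in Set.Ioc (0 : ℝ) 1, f m * ee (m - n) x = if m = n then f n else 0 := by
    intro m
    rw [integral_const_mul]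
    have := integral_ee (m - n)
    rw [intervalIntegral.integral_of_le zero_le_one] at this
    rw [this]
    by_cases hm : m = n
    · subst hm; simp
    · rw [if_neg hm, if_neg (sub_ne_zero.2 hm), mul_zero]
  simp only [e2] at h
  exact h.unique (hasSum_ite_eq n (f n))

theorem restrict_cell : (volume : Measure (Fin 2 → ℝ)).restrict cell =
    Measure.pi (fun _ : Fin 2 => (volume : Measure ℝ).restrict (Set.Ioc 0 1)) := by
  rw [cell_eq, volume_pi, Measure.restrict_pi_pi]

/-- Fourier coefficients of a product. -/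
theorem fc_prod (g₀ g₁ : ℝ → ℂ) (n : Fin 2 → ℤ) :
    fc (fun x => g₀ (x 0) * g₁ (x 1)) n =
      (∫ t in Set.Ioc (0 : ℝ) 1, ee (-n 0) t * g₀ t) *
        ∫ t in Set.Ioc (0 : ℝ) 1, ee (-n 1) t * g₁ t := by
  rw [fc_def, restrict_cell]
  have h := integral_fintype_prod_eq_prod (𝕜 := ℂ) (ι := Fin 2) (E := fun _ => ℝ)
    (fun (i : Fin 2) (t : ℝ) => ee (-n i) t * (![g₀, g₁] i) t)
    (μ := fun _ => (volume : Measure ℝ).restrict (Set.Ioc 0 1))
  rw [Fin.prod_univ_two] at h
  simp only [Matrix.cons_val_zero, Matrix.cons_val_one] at h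
  rw [← h]
  congr 1
  funext x
  rw [Fin.prod_univ_two, ex_eq]
  simp only [Matrix.cons_val_zero, Matrix.cons_val_one]
  ring

theorem fc_series {f g : ℤ → ℂ} (hf : Summable fun m => ‖f m‖) (hg : Summable fun m => ‖g m‖)
    (n : Fin 2 → ℤ) :
    fc (fun x => (∑' m, f m * ee m (x 0)) * ∑' m, g m * ee m (x 1)) n = f (n 0) * g (n 1) := by
  have h := fc_prod (fun t => ∑' m, f m * ee m t) (fun t => ∑' m, g m * ee m t) n
  rw [h, coeff_series hf, coeff_series hg]

theorem memLp_series {f g : ℤ → ℂ} (hf : Summable fun m => ‖f m‖) (hg : Summable fun m => ‖g m‖) :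
    MemLp (fun x : Fin 2 → ℝ => (∑' m, f m * ee m (x 0)) * ∑' m, g m * ee m (x 1)) 2
      (volume.restrict cell) := by
  have := isFiniteMeasure_cell
  refine MemLp.of_bound ?_ ((∑' m, ‖f m‖) * ∑' m, ‖g m‖) ?_
  · apply Continuous.aestronglyMeasurable
    exact ((continuous_series hf).comp (continuous_apply 0)).mul
      ((continuous_series hg).comp (continuous_apply 1))
  · refine Filter.Eventually.of_forall fun x => ?_
    rw [norm_mul]
    exact mul_le_mul (norm_Wp_le hf _) (norm_Wp_le hg _) (norm_nonneg _)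
      (tsum_nonneg fun _ => norm_nonneg _)

end Pool.Agent.Hhelper96.Fermi
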