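import Pool.Agent.Hhelper96.Fermi.Special

/-!
Liouville theorem for doubly periodic functions, local expansions at the origin, and the three
global facts on `κ` and `μ`.
-/

set_option autoImplicit false

open Complex Filter Topology

namespace Pool.Agent.Hhelper96.Fermi

theorem Lat_zero : (0 : ℂ) ∈ Lat := ⟨0, 0, by simp⟩

/-- Liouville: a doubly periodic function holomorphic off the lattice and bounded near the origin
is constant off the lattice. -/
theorem liouville {g : ℂ → ℂ} (hd : ∀ z, z ∉ Lat → DifferentiableAt ℂ g z)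
    (h1 : ∀ z, z ∉ Lat → g (z + 1) = g z) (hI : ∀ z, z ∉ Lat → g (z + I) = g z)
    {B r : ℝ} (hr : 0 < r) (hb : ∀ z, z ≠ 0 → ‖z‖ < r → ‖g z‖ ≤ B) :
    ∃ c, (∀ z, z ∉ Lat → g z = c) ∧ Tendsto g (𝓝[≠] 0) (𝓝 c) := by
  classical
  set L : ℂ := limUnder (𝓝[≠] (0 : ℂ)) g with hL
  set G : ℂ → ℂ := fun z => if z ∈ Lat then L else g z with hG
  have hGn : ∀ z, z ∉ Lat → G z = g z := fun z hz => if_neg hz
  have hGl : ∀ z, z ∈ Lat → G z = L := fun z hz => if_pos hz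
  have p1 : Function.Periodic G 1 := by
    intro z
    by_cases hz : z ∈ Lat
    · rw [hGl z hz, hGl (z + 1) (mem_Lat_add_one.2 hz)]
    · rw [hGn z hz, hGn (z + 1) (fun h => hz (mem_Lat_add_one.1 h)), h1 z hz]
  have pI : Function.Periodic G I := by
    intro z
    by_cases hz : z ∈ Lat
    · rw [hGl z hz, hGl (z + I) (mem_Lat_add_I.2 hz)]
    · rw [hGn z hz, hGn (z + I) (fun h => hz (mem_Lat_add_I.1 h)), hI z hz]
  have pL : ∀ z (m n : ℤ), G (z + ((m : ℂ) + (n : ℂ) * I)) = G z := by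
    intro z m n
    have e1 : z + ((m : ℂ) + (n : ℂ) * I) = (z + (n : ℂ) * I) + (m : ℂ) * 1 := by ring
    rw [e1, p1.int_mul m, pI.int_mul n]
  -- differentiable at zero
  have hd0 : DifferentiableAt ℂ G 0 := by
    set ρ : ℝ := min r 1 with hρ
    have hρ0 : 0 < ρ := lt_min hr one_pos
    have hs : Metric.ball (0 : ℂ) ρ ∈ 𝓝 (0 : ℂ) := Metric.ball_mem_nhds _ hρ0
    have hoff : ∀ z ∈ Metric.ball (0 : ℂ) ρ \ {0}, z ∉ Lat ∧ z ≠ 0 ∧ ‖z‖ < r := by
      intro z hz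
      have hz0 : z ≠ 0 := hz.2
      have hz1 : ‖z‖ < ρ := by simpa using hz.1
      exact ⟨not_mem_Lat_of_small hz0 (hz1.trans_le (min_le_right _ _)), hz0,
        hz1.trans_le (min_le_left _ _)⟩
    have h := Complex.differentiableOn_update_limUnder_of_bddAbove (f := g) (c := (0 : ℂ)) hs
      (fun z hz => (hd z (hoff z hz).1).differentiableWithinAt) (by
        refine ⟨B, ?_⟩
        rintro x ⟨z, hz, rfl⟩
        exact hb z (hoff z hz).2.1 (hoff z hz).2.2)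
    have h2 := h.differentiableAt hs
    refine h2.congr_of_eventuallyEq ?_
    filter_upwards [hs] with z hz
    by_cases hz0 : z = 0
    · subst hz0
      rw [hGl 0 Lat_zero, Function.update_self]
    · rw [hGn z (hoff z ⟨hz, hz0⟩).1, Function.update_of_ne hz0]
  have hdiff : Differentiable ℂ G := by
    intro z
    by_cases hz : z ∈ Lat
    · obtain ⟨m, n, hmn⟩ := hz
      have e : G = fun y => G (y - z) := by
        funext y
        have := pL (y - z) m n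
        rw [← hmn, sub_add_cancel] at this
        exact this
      rw [e]
      have h3 : DifferentiableAt ℂ G (z - z) := by rw [sub_self]; exact hd0
      exact DifferentiableAt.comp z (f := fun y : ℂ => y - z) h3 (by fun_prop)
    · refine (hd z hz).congr_of_eventuallyEq ?_
      filter_upwards [isOpen_compl_Lat.mem_nhds hz] with y hy
      exact hGn y hy
  -- bounded
  have hbdd : Bornology.IsBounded (Set.range G) := by
    have hcomp : IsCompact (G '' (Set.Icc (0 : ℝ) 1 ×ℂ Set.Icc (0 : ℝ) 1)) :=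
      (isCompact_Icc.reProdIm isCompact_Icc).image hdiff.continuous
    refine hcomp.isBounded.subset ?_
    rintro _ ⟨z, rfl⟩
    refine ⟨z + (((-⌊z.re⌋ : ℤ) : ℂ) + ((-⌊z.im⌋ : ℤ) : ℂ) * I), ?_, pL z _ _⟩
    rw [Complex.mem_reProdIm]
    have e1 : (z + (((-⌊z.re⌋ : ℤ) : ℂ) + ((-⌊z.im⌋ : ℤ) : ℂ) * I)).re = Int.fract z.re := by
      rw [← Int.self_sub_floor, sub_eq_add_neg]
      simp
    have e2 : (z + (((-⌊z.re⌋ : ℤ) : ℂ) + ((-⌊z.im⌋ : ℤ) : ℂ) * I)).im = Int.fract z.im := by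
      rw [← Int.self_sub_floor, sub_eq_add_neg]
      simp
    rw [e1, e2]
    exact ⟨⟨Int.fract_nonneg _, (Int.fract_lt_one _).le⟩,
      ⟨Int.fract_nonneg _, (Int.fract_lt_one _).le⟩⟩
  refine ⟨L, ?_, ?_⟩
  · intro z hz
    rw [← hGn z hz, ← hGl 0 Lat_zero]
    exact hdiff.apply_eq_apply_of_bounded hbdd _ _
  · have hcont : Tendsto G (𝓝[≠] 0) (𝓝 (G 0)) := hdiff.continuous.continuousAt.mono_left
      nhdsWithin_le_nhds
    rw [hGl 0 Lat_zero] at hcont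
    refine hcont.congr' ?_
    have hs : Metric.ball (0 : ℂ) 1 ∈ 𝓝 (0 : ℂ) := Metric.ball_mem_nhds _ one_pos
    filter_upwards [mem_nhdsWithin_of_mem_nhds hs, self_mem_nhdsWithin] with z hz hz0
    exact hGn z (not_mem_Lat_of_small hz0 (by simpa using hz))

/-! ### Local expansions at the origin -/

theorem exp3 {u : ℂ} (hu : ‖u‖ ≤ 1) : ‖Complex.exp u - (1 + u + u ^ 2 / 2)‖ ≤ ‖u‖ ^ 3 * (2 / 9) := by
  have h := Complex.exp_bound hu (n := 3) (by norm_num)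
  have e : ∑ m ∈ Finset.range 3, u ^ m / (m.factorial : ℂ) = 1 + u + u ^ 2 / 2 := by
    simp [Finset.sum_range_succ, Nat.factorial]
  rw [e] at h
  refine h.trans (le_of_eq ?_)
  norm_num [Nat.factorial]

theorem sinh_sub {u : ℂ} (hu : ‖u‖ ≤ 1) : ‖Complex.sinh u - u‖ ≤ ‖u‖ ^ 3 * (2 / 9) := by
  have h1 := exp3 hu
  have h2 := exp3 (u := -u) (by rwa [norm_neg])
  rw [norm_neg] at h2
  have e : Complex.sinh u - u = ((Complex.exp u - (1 + u + u ^ 2 / 2)) -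
      (Complex.exp (-u) - (1 + -u + (-u) ^ 2 / 2))) / 2 := by
    rw [Complex.sinh]
    ring
  rw [e, norm_div]
  have h3 := norm_sub_le (Complex.exp u - (1 + u + u ^ 2 / 2))
    (Complex.exp (-u) - (1 + -u + (-u) ^ 2 / 2))
  have h4 : ‖(2 : ℂ)‖ = 2 := by norm_num
  rw [h4]
  linarith

theorem cosh_sub {u : ℂ} (hu : ‖u‖ ≤ 1) : ‖Complex.cosh u - 1‖ ≤ ‖u‖ ^ 2 := by
  have h1 := exp3 hu
  have h2 := exp3 (u := -u) (by rwa [norm_neg])
  rw [norm_neg] at h2
  have e : Complex.cosh u - 1 = ((Complex.exp u - (1 + u + u ^ 2 / 2)) +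
      (Complex.exp (-u) - (1 + -u + (-u) ^ 2 / 2))) / 2 + u ^ 2 / 2 := by
    rw [Complex.cosh]
    ring
  rw [e]
  have h4 : ‖(2 : ℂ)‖ = 2 := by norm_num
  have h5 : ‖u‖ ^ 3 ≤ ‖u‖ ^ 2 := pow_le_pow_of_le_one (norm_nonneg _) hu (by norm_num)
  calc ‖((Complex.exp u - (1 + u + u ^ 2 / 2)) + (Complex.exp (-u) - (1 + -u + (-u) ^ 2 / 2))) / 2 +
        u ^ 2 / 2‖ ≤ ‖((Complex.exp u - (1 + u + u ^ 2 / 2)) +
        (Complex.exp (-u) - (1 + -u + (-u) ^ 2 / 2))) / 2‖ + ‖u ^ 2 / 2‖ := norm_add_le _ _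
    _ ≤ (‖u‖ ^ 3 * (2 / 9) + ‖u‖ ^ 3 * (2 / 9)) / 2 + ‖u‖ ^ 2 / 2 := by
        rw [norm_div, norm_div, norm_pow, h4]
        have h3 := norm_add_le (Complex.exp u - (1 + u + u ^ 2 / 2))
          (Complex.exp (-u) - (1 + -u + (-u) ^ 2 / 2))
        linarith
    _ ≤ _ := by
        have : 0 ≤ ‖u‖ ^ 2 := by positivity
        linarith

theorem coth_sub {u : ℂ} (hu0 : u ≠ 0) (hu : ‖u‖ ≤ 1) :
    ‖Complex.cosh u / Complex.sinh u - 1 / u‖ ≤ 2 * ‖u‖ := by
  have h1 := sinh_sub hu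
  have h2 := cosh_sub hu
  have hpos : 0 < ‖u‖ := norm_pos_iff.2 hu0
  have h3 : ‖u‖ ^ 3 ≤ ‖u‖ := by
    calc ‖u‖ ^ 3 ≤ ‖u‖ ^ 1 := pow_le_pow_of_le_one (norm_nonneg _) hu (by norm_num)
      _ = ‖u‖ := pow_one _
  have h4 : ‖u‖ * (7 / 9) ≤ ‖Complex.sinh u‖ := by
    have h5 : ‖u‖ ≤ ‖Complex.sinh u‖ + ‖Complex.sinh u - u‖ := by
      have : u = Complex.sinh u - (Complex.sinh u - u) := by ring
      calc ‖u‖ = ‖Complex.sinh u - (Complex.sinh u - u)‖ := by rw [← this]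
        _ ≤ _ := norm_sub_le _ _
    linarith
  have hs : Complex.sinh u ≠ 0 := by
    intro h
    rw [h, norm_zero] at h4
    nlinarith
  have e : Complex.cosh u / Complex.sinh u - 1 / u =
      (u * (Complex.cosh u - 1) - (Complex.sinh u - u)) / (u * Complex.sinh u) := by
    field_simp
    ring
  rw [e, norm_div, norm_mul, div_le_iff₀ (by positivity)]
  calc ‖u * (Complex.cosh u - 1) - (Complex.sinh u - u)‖
      ≤ ‖u * (Complex.cosh u - 1)‖ + ‖Complex.sinh u - u‖ := norm_sub_le _ _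
    _ ≤ ‖u‖ * ‖u‖ ^ 2 + ‖u‖ ^ 3 * (2 / 9) := by
        rw [norm_mul]
        exact add_le_add (mul_le_mul_of_nonneg_left h2 hpos.le) h1
    _ = ‖u‖ ^ 3 * (11 / 9) := by ring
    _ ≤ ‖u‖ ^ 3 * (14 / 9) := by
        apply mul_le_mul_of_nonneg_left _ (by positivity)
        norm_num
    _ = 2 * ‖u‖ * (‖u‖ * (‖u‖ * (7 / 9))) := by ring
    _ ≤ 2 * ‖u‖ * (‖u‖ * ‖Complex.sinh u‖) := by
        apply mul_le_mul_of_nonneg_left _ (by positivity)
        exact mul_le_mul_of_nonneg_left h4 hpos.le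

/-- behaviour of `κ` near `0` -/
theorem kap_near : ∃ M : ℝ, 0 < M ∧ ∀ z : ℂ, z ≠ 0 → ‖z‖ ≤ 1 / 8 →
    ‖kap z - 1 / (2 * Real.pi * z)‖ ≤ M * ‖z‖ := by
  have hsum : Summable (fun j : ℕ => 16 * Real.exp (-(2 * |((j : ℤ) : ℝ)|))) := summable_P_bound 16
  set T : ℝ := ∑' j : ℕ, 16 * Real.exp (-(2 * |((j : ℤ) : ℝ)|)) with hT
  have hT0 : 0 ≤ T := tsum_nonneg (fun _ => by positivity)
  refine ⟨8 + 8 * T, by positivity, ?_⟩
  intro z hz0 hz
  have hzL : z ∉ Lat := not_mem_Lat_of_small hz0 (by linarith)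
  have hpi := Real.pi_gt_three
  have hpi4 := Real.pi_lt_four
  have hz' : ‖z‖ ≤ 1 / 2 := by linarith
  -- coth part
  have hu : ‖(Real.pi : ℂ) * z‖ ≤ 1 := by
    rw [norm_mul, Complex.norm_real, Real.norm_of_nonneg Real.pi_pos.le]
    have : 0 ≤ ‖z‖ := norm_nonneg z
    nlinarith
  have hpne : (Real.pi : ℂ) ≠ 0 := by exact_mod_cast Real.pi_ne_zero
  have hA : ‖C z - 1 / (Real.pi * z)‖ ≤ 8 * ‖z‖ := by
    have h := coth_sub (u := (Real.pi : ℂ) * z) (mul_ne_zero hpne hz0) hu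
    have e : C z = Complex.cosh (Real.pi * z) / Complex.sinh (Real.pi * z) := rfl
    rw [e]
    refine h.trans ?_
    rw [norm_mul, Complex.norm_real, Real.norm_of_nonneg Real.pi_pos.le]
    have : 0 ≤ ‖z‖ := norm_nonneg z
    nlinarith
  -- the sum part
  have hs2 : ‖sh (2 * z)‖ ≤ 16 * ‖z‖ := by
    have hu2 : ‖(Real.pi : ℂ) * (2 * z)‖ ≤ 1 := by
      rw [norm_mul, norm_mul, Complex.norm_real, Real.norm_of_nonneg Real.pi_pos.le]
      have h4 : ‖(2 : ℂ)‖ = 2 := by norm_num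
      rw [h4]
      have : 0 ≤ ‖z‖ := norm_nonneg z
      nlinarith
    have h := sinh_sub hu2
    have h3 : ‖(Real.pi : ℂ) * (2 * z)‖ ^ 3 ≤ ‖(Real.pi : ℂ) * (2 * z)‖ := by
      calc _ ≤ ‖(Real.pi : ℂ) * (2 * z)‖ ^ 1 := pow_le_pow_of_le_one (norm_nonneg _) hu2 (by norm_num)
        _ = _ := pow_one _
    have h5 : ‖sh (2 * z)‖ ≤ ‖(Real.pi : ℂ) * (2 * z)‖ + ‖(Real.pi : ℂ) * (2 * z)‖ * (2 / 9) := by
      have e : sh (2 * z) = (Real.pi * (2 * z)) +
          (Complex.sinh (Real.pi * (2 * z)) - Real.pi * (2 * z)) := by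
        unfold sh; ring
      rw [e]
      refine (norm_add_le _ _).trans ?_
      linarith
    have h6 : ‖(Real.pi : ℂ) * (2 * z)‖ ≤ 8 * ‖z‖ := by
      rw [norm_mul, norm_mul, Complex.norm_real, Real.norm_of_nonneg Real.pi_pos.le]
      have h4 : ‖(2 : ℂ)‖ = 2 := by norm_num
      rw [h4]
      have : 0 ≤ ‖z‖ := norm_nonneg z
      nlinarith
    have : 0 ≤ ‖z‖ := norm_nonneg z
    linarith
  have hPj : ∀ j : ℕ, ‖P j z‖ ≤ ‖sh (2 * z)‖ * (16 * Real.exp (-(2 * |((j : ℤ) : ℝ)|))) := by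
    intro j
    rw [P_eq hzL, norm_div, norm_mul]
    have hj : (0 : ℝ) ≤ j := Nat.cast_nonneg j
    have e1 : Real.exp (Real.pi * ((j : ℝ) + 1 / 2)) / 4 ≤ ‖sh (z - ((j : ℂ) + 1))‖ := by
      have := lower_zero hz' (m := (j : ℤ) + 1) (by omega)
      push_cast at this
      rw [abs_of_nonneg (by positivity)] at this
      refine le_trans (le_of_eq ?_) this
      congr 2
      ring
    have e2 : Real.exp (Real.pi * ((j : ℝ) + 1 / 2)) / 4 ≤ ‖sh (z + ((j : ℂ) + 1))‖ := by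
      have := lower_zero hz' (m := -((j : ℤ) + 1)) (by omega)
      have e3 : z - ((-((j : ℤ) + 1) : ℤ) : ℂ) = z + ((j : ℂ) + 1) := by push_cast; ring
      have e4 : |((-((j : ℤ) + 1) : ℤ) : ℝ)| = (j : ℝ) + 1 := by
        push_cast
        rw [abs_of_nonpos (by linarith)]
        ring
      rw [e3, e4] at this
      refine le_trans (le_of_eq ?_) this
      congr 2
      ring
    have hE : 0 < Real.exp (Real.pi * ((j : ℝ) + 1 / 2)) / 4 := by positivity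
    have hden : (Real.exp (Real.pi * ((j : ℝ) + 1 / 2)) / 4) ^ 2 ≤
        ‖sh (z - ((j : ℂ) + 1))‖ * ‖sh (z + ((j : ℂ) + 1))‖ := by
      rw [sq]
      exact mul_le_mul e1 e2 hE.le (hE.le.trans e1)
    calc ‖sh (2 * z)‖ / (‖sh (z - ((j : ℂ) + 1))‖ * ‖sh (z + ((j : ℂ) + 1))‖)
        ≤ ‖sh (2 * z)‖ / (Real.exp (Real.pi * ((j : ℝ) + 1 / 2)) / 4) ^ 2 :=
          div_le_div_of_nonneg_left (norm_nonneg _) (by positivity) hden
      _ = ‖sh (2 * z)‖ * (16 * (1 / (Real.exp (Real.pi * ((j : ℝ) + 1 / 2))) ^ 2)) := by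
          field_simp
          ring
      _ ≤ ‖sh (2 * z)‖ * (16 * Real.exp (-(2 * |((j : ℤ) : ℝ)|))) := by
          apply mul_le_mul_of_nonneg_left _ (norm_nonneg _)
          apply mul_le_mul_of_nonneg_left _ (by norm_num)
          rw [← Real.exp_nat_mul, one_div, ← Real.exp_neg]
          apply Real.exp_le_exp.2
          rw [abs_of_nonneg (by positivity)]
          push_cast
          nlinarith
  have hB : ‖∑' j : ℕ, P j z‖ ≤ 16 * ‖z‖ * T := by
    have h1 : ‖∑' j : ℕ, P j z‖ ≤ ∑' j : ℕ, ‖sh (2 * z)‖ * (16 * Real.exp (-(2 * |((j : ℤ) : ℝ)|))) :=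
      tsum_of_norm_bounded (hsum.mul_left _).hasSum hPj
    rw [tsum_mul_left] at h1
    exact h1.trans (mul_le_mul_of_nonneg_right hs2 hT0)
  have e : kap z - 1 / (2 * Real.pi * z) = ((C z - 1 / (Real.pi * z)) + ∑' j : ℕ, P j z) / 2 := by
    unfold kap
    field_simp
    ring
  rw [e, norm_div]
  have h4 : ‖(2 : ℂ)‖ = 2 := by norm_num
  rw [h4]
  have h5 := norm_add_le (C z - 1 / (Real.pi * z)) (∑' j : ℕ, P j z)
  have : 0 ≤ ‖z‖ := norm_nonneg z
  nlinarith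

theorem S_near : ∃ M : ℝ, 0 < M ∧ ∀ z : ℂ, z ≠ 0 → ‖z‖ ≤ 1 / 8 → ‖S z‖ ≤ M := by
  set T : ℝ := ∑' m : ℤ, ‖w m‖ with hT
  have hT0 : 0 ≤ T := tsum_nonneg (fun _ => norm_nonneg _)
  -- sh bounded on the ball
  have hc : ContinuousOn (fun z => ‖sh z‖) (Metric.closedBall (0 : ℂ) (1 / 8)) :=
    continuous_sh.norm.continuousOn
  obtain ⟨A, hA⟩ := (isCompact_closedBall (0 : ℂ) (1 / 8)).bddAbove_image hc
  have hA' : ∀ z : ℂ, ‖z‖ ≤ 1 / 8 → ‖sh z‖ ≤ |A| := by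
    intro z hz
    exact (hA ⟨z, by simpa using hz, rfl⟩).trans (le_abs_self A)
  refine ⟨4 * |A| * T + 1, by positivity, ?_⟩
  intro z hz0 hz
  have hb : ∀ m : ℤ, ‖t m z‖ ≤ (4 * |A|) * ‖w m‖ := by
    intro m
    by_cases hm : m = 0
    · subst hm
      simp [t, w_zero]
    · unfold t
      rw [norm_mul, mul_comm, norm_div]
      apply mul_le_mul_of_nonneg_right _ (norm_nonneg _)
      have h1 := lower_zero (w := z) (by linarith) hm
      have h2 : 1 / 4 ≤ ‖sh (z - m)‖ := by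
        refine le_trans ?_ h1
        have hm1 : (1 : ℝ) ≤ |(m : ℝ)| := by
          have : 1 ≤ |m| := Int.one_le_abs hm
          have h2 : ((1 : ℤ) : ℝ) ≤ ((|m| : ℤ) : ℝ) := by exact_mod_cast this
          rwa [Int.cast_abs, Int.cast_one] at h2
        have h3 : 1 ≤ Real.exp (Real.pi * (|(m : ℝ)| - 1 / 2)) := by
          apply Real.one_le_exp
          have := Real.pi_pos
          nlinarith
        linarith
      rw [div_le_iff₀ (by linarith)]
      calc ‖sh z‖ ≤ |A| := hA' z hz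
        _ = 4 * |A| * (1 / 4) := by ring
        _ ≤ _ := mul_le_mul_of_nonneg_left h2 (by positivity)
  have h := tsum_of_norm_bounded (summable_norm_w.mul_left (4 * |A|)).hasSum hb
  rw [tsum_mul_left] at h
  unfold S
  linarith

end Pool.Agent.Hhelper96.Fermi
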