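import Pool.Agent.Hhelper96.Fermi.Facts
import Pool.Agent.Hhelper96.Fermi.Link

/-!
The Fermi variety of the square-lattice Lame potential at the special energy is the union of two
proper invariant analytic subsets.
-/

set_option autoImplicit false

open MeasureTheory Complex Filter Topology

namespace Pool.Agent.Hhelper96.Fermi

/-! ### the potential -/

theorem conj_v (m : ℤ) : (starRingEnd ℂ) (v m) = v m := by
  unfold v w
  rw [map_neg, map_mul, map_mul, map_pow, Complex.conj_ofReal, map_div₀, ← conj_sh, map_ofNat]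
  simp

theorem Wp_real (x : ℝ) : ((Wp v x).re : ℂ) = Wp v x := by
  apply Complex.conj_eq_iff_re.1
  unfold Wp
  rw [Complex.conj_tsum]
  have h : ∀ m : ℤ, (starRingEnd ℂ) (v m * ee m x) = v (-m) * ee (-m) x := by
    intro m
    rw [map_mul, conj_v, v_neg]
    congr 1
    unfold ee
    rw [← Complex.exp_conj]
    congr 1
    simp only [map_mul, map_ofNat, Complex.conj_ofReal, Complex.conj_I, map_intCast]
    push_cast
    ring
  rw [tsum_congr h]
  exact (Equiv.neg ℤ).tsum_eq (fun m => v m * ee m x)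

theorem Wp_add_int (x : ℝ) (n : ℤ) : Wp v (x + n) = Wp v x := by
  have h : Function.Periodic (Wp v) 1 := by
    intro x
    unfold Wp
    exact tsum_congr (fun m => by rw [ee_add_one])
  have := h.int_mul n x
  rwa [mul_one] at this

/-- the potential `V(x₁,x₂) = W(x₁) + W(x₂)` -/
noncomputable def VV (x : Fin 2 → ℝ) : ℝ := (Wp v (x 0)).re + (Wp v (x 1)).re

theorem VV_cast (x : Fin 2 → ℝ) : (VV x : ℂ) = Wp v (x 0) + Wp v (x 1) := by
  unfold VV
  push_cast
  rw [Wp_real, Wp_real]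

theorem VV_periodic (x : Fin 2 → ℝ) (n : Fin 2 → ℤ) : VV (fun i => x i + n i) = VV x := by
  unfold VV
  simp only [Wp_add_int]

theorem continuous_Wp : Continuous (Wp v) := continuous_series summable_norm_v

/-! ### analyticity of the potential -/

/-- complexification of the potential -/
noncomputable def Wc (z : ℂ) : ℂ := ∑' m : ℤ, v m * Complex.exp (2 * Real.pi * I * m * z)

theorem analyticAt_Wc (x : ℝ) : AnalyticAt ℂ Wc x := by
  set U : Set ℂ := {z : ℂ | |z.im| < 1 / 8} with hU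
  have hUo : IsOpen U := isOpen_lt (by fun_prop) continuous_const
  have hd : DifferentiableOn ℂ Wc U := by
    unfold Wc
    refine differentiableOn_tsum_of_summable_norm (U := U)
      (u := fun m : ℤ => 256 * Real.exp (-(1 * |(m : ℝ)|)))
      ((summable_exp_abs one_pos).mul_left 256) (fun m => ?_) hUo (fun m z hz => ?_)
    · have : Differentiable ℂ (fun z : ℂ => v m * Complex.exp (2 * Real.pi * I * m * z)) := by
        fun_prop
      exact this.differentiableOn
    · rw [norm_mul, Complex.norm_exp]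
      have e1 : (2 * Real.pi * I * m * z : ℂ).re = -(2 * Real.pi * m * z.im) := by
        simp [Complex.mul_re, Complex.mul_im]
      rw [e1]
      have hz' : |z.im| < 1 / 8 := hz
      have hpi := Real.pi_lt_four
      have hpi0 := Real.pi_pos
      have h1 : -(2 * Real.pi * m * z.im) ≤ 1 * |(m : ℝ)| := by
        calc -(2 * Real.pi * m * z.im) ≤ |2 * Real.pi * m * z.im| := neg_le_abs _
          _ = 2 * Real.pi * |(m : ℝ)| * |z.im| := by
              rw [abs_mul, abs_mul, abs_of_pos (by positivity : (0 : ℝ) < 2 * Real.pi)]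
          _ ≤ 2 * 4 * |(m : ℝ)| * (1 / 8) := by
              gcongr
          _ = 1 * |(m : ℝ)| := by ring
      calc ‖v m‖ * Real.exp (-(2 * Real.pi * m * z.im))
          ≤ (256 * Real.exp (-(2 * |(m : ℝ)|))) * Real.exp (1 * |(m : ℝ)|) :=
            mul_le_mul (norm_v_le m) (Real.exp_le_exp.2 h1) (Real.exp_pos _).le (by positivity)
        _ = 256 * Real.exp (-(1 * |(m : ℝ)|)) := by
            rw [mul_assoc, ← Real.exp_add]
            congr 2
            ring
  exact hd.analyticAt (hUo.mem_nhds (by simp [hU]))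

theorem Wc_ofReal (x : ℝ) : Wc x = Wp v x := rfl

theorem analyticAt_W (x : ℝ) : AnalyticAt ℝ (fun x : ℝ => (Wp v x).re) x := by
  have h1 : AnalyticAt ℝ Wc x := (analyticAt_Wc x).restrictScalars
  have h2 : AnalyticAt ℝ (fun x : ℝ => (x : ℂ)) x := Complex.ofRealCLM.analyticAt x
  have h3 : AnalyticAt ℝ (fun x : ℝ => Wc (x : ℂ)) x :=
    AnalyticAt.fun_comp (f := fun x : ℝ => (x : ℂ)) (g := Wc) h1 h2
  exact (Complex.reCLM.analyticAt _).fun_comp h3

theorem analytic_VV : AnalyticOnNhd ℝ VV Set.univ := by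
  intro x _
  unfold VV
  have h : ∀ i : Fin 2, AnalyticAt ℝ (fun x : Fin 2 → ℝ => (Wp v (x i)).re) x := by
    intro i
    have h2 : AnalyticAt ℝ (fun x : Fin 2 → ℝ => x i) x :=
      (ContinuousLinearMap.proj (R := ℝ) (φ := fun _ : Fin 2 => ℝ) i).analyticAt x
    exact AnalyticAt.fun_comp (f := fun x : Fin 2 → ℝ => x i) (g := fun x : ℝ => (Wp v x).re)
      (analyticAt_W (x i)) h2
  exact (h 0).add (h 1)

/-! ### the energy -/

theorem conj_t (m : ℤ) (z : ℂ) : t m ((starRingEnd ℂ) z) = (starRingEnd ℂ) (t m z) := by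
  unfold t w
  rw [map_mul, map_div₀, map_div₀, ← conj_sh, ← conj_sh, ← conj_sh]
  simp

theorem conj_S (z : ℂ) : S ((starRingEnd ℂ) z) = (starRingEnd ℂ) (S z) := by
  unfold S
  rw [Complex.conj_tsum]
  exact tsum_congr (fun m => conj_t m z)

theorem conj_mu (z : ℂ) : mu ((starRingEnd ℂ) z) = (starRingEnd ℂ) (mu z) := by
  unfold mu
  rw [conj_kap, conj_S, map_mul, map_mul, map_sub, map_pow, map_pow, map_ofNat,
    Complex.conj_ofReal]

theorem mu_sum_real : ∃ lam : ℝ, ∀ z, z ∉ Lat → mu z + mu (I * z) = (lam : ℂ) := by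
  obtain ⟨lam, hlam⟩ := mu_sum
  have h1 : (1 / 2 : ℂ) ∉ Lat := not_mem_Lat_of_small (by norm_num) (by norm_num)
  have h2 := hlam _ h1
  have hconj : (starRingEnd ℂ) lam = lam := by
    have h3 : mu ((starRingEnd ℂ) (1 / 2 : ℂ)) = (starRingEnd ℂ) (mu (1 / 2)) := conj_mu _
    have h4 : mu ((starRingEnd ℂ) (I * (1 / 2) : ℂ)) = (starRingEnd ℂ) (mu (I * (1 / 2))) :=
      conj_mu _
    have e1 : (starRingEnd ℂ) (1 / 2 : ℂ) = 1 / 2 := by
      rw [map_div₀, map_one, map_ofNat]
    have e2 : (starRingEnd ℂ) (I * (1 / 2) : ℂ) = -(I * (1 / 2)) := by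
      rw [map_mul, e1, Complex.conj_I, neg_mul]
    rw [e1] at h3
    rw [e2, mu_neg] at h4
    rw [← h2, map_add, ← h3, ← h4]
  refine ⟨lam.re, fun z hz => ?_⟩
  rw [hlam z hz]
  exact (Complex.conj_eq_iff_re.1 hconj).symm

/-! ### the two components -/

/-- the component with sign `s` -/
def G (s : ℤ) : Set (Fin 2 → ℂ) :=
  {k | k 0 - s * I * k 1 ∉ Lat ∧ kap (k 0 - s * I * k 1) = k 0}

theorem G_param {s : ℤ} (hs : s = 1 ∨ s = -1) {k : Fin 2 → ℂ} :
    k ∈ G s ↔ ∃ β, β ∉ Lat ∧ k 0 = kap β ∧ s * k 1 = kap (I * β) := by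
  constructor
  · rintro ⟨h1, h2⟩
    refine ⟨_, h1, h2.symm, ?_⟩
    have h3 := kap_relation h1
    rw [h2] at h3
    have hI : I * (s * k 1) = I * kap (I * (k 0 - s * I * k 1)) := by
      linear_combination h3
    exact mul_left_cancel₀ I_ne_zero hI
  · rintro ⟨β, hβ, h1, h2⟩
    have h3 := kap_relation hβ
    have e : k 0 - s * I * k 1 = β := by
      rw [h1]
      linear_combination h3 - I * h2
    exact ⟨by rw [e]; exact hβ, by rw [e, h1]⟩

theorem G_invariant {s : ℤ} (hs : s = 1 ∨ s = -1) : IsTranslationInvariant (G s) := by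
  intro k hk n
  rw [G_param hs] at hk ⊢
  obtain ⟨β, hβ, h1, h2⟩ := hk
  refine ⟨β + n 0 + ((-(s * n 1) : ℤ) : ℂ) * I, ?_, ?_, ?_⟩
  · rw [Lat_add_int_I, Lat_add_int]
    exact hβ
  · rw [kap_add_int_I, kap_add_int hβ, h1]
  · have hIβ : I * β ∉ Lat := mem_Lat_I_mul.not.2 hβ
    have e : I * (β + n 0 + ((-(s * n 1) : ℤ) : ℂ) * I) = I * β + ((s * n 1 : ℤ) : ℂ) + (n 0 : ℂ) * I := by
      push_cast
      linear_combination (-(s : ℂ) * n 1) * I_mul_I
    rw [e, kap_add_int_I, kap_add_int hIβ, ← h2]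
    push_cast
    ring

/-- `κ` blows up at lattice points. -/
theorem kap_blowup {ω : ℂ} (hω : ω ∈ Lat) (R : ℝ) :
    ∃ δ > 0, ∀ z, z ∉ Lat → ‖z - ω‖ < δ → R < ‖kap z‖ := by
  obtain ⟨M, hM, hnear⟩ := kap_near
  obtain ⟨m, n, hmn⟩ := hω
  set R' : ℝ := |R| + |(m : ℝ)| + M + 1 with hR'
  have hR'pos : 0 < R' := by positivity
  refine ⟨min (1 / 8) (1 / (8 * R')), lt_min (by norm_num) (by positivity), ?_⟩
  intro z hz hd
  set y : ℂ := z - ω with hy
  have hz1 : ‖y‖ ≤ 1 / 8 := hd.le.trans (min_le_left _ _)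
  have hz2 : ‖y‖ < 1 / (8 * R') := hd.trans_le (min_le_right _ _)
  have hyL : y ∉ Lat := by
    intro h
    apply hz
    have e : z = y + m + (n : ℂ) * I := by rw [hy, hmn]; ring
    rw [e, Lat_add_int_I, Lat_add_int]
    exact h
  have hy0 : y ≠ 0 := by
    intro h
    apply hyL
    rw [h]
    exact Lat_zero
  have e : z = y + m + (n : ℂ) * I := by rw [hy, hmn]; ring
  have hk : kap z = kap y + m := by rw [e, kap_add_int_I, kap_add_int hyL]
  have h1 := hnear y hy0 hz1
  have hypos : 0 < ‖y‖ := norm_pos_iff.2 hy0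
  have hpi := Real.pi_lt_four
  have hpi0 := Real.pi_pos
  have h2 : R' < ‖(1 / (2 * Real.pi * y) : ℂ)‖ := by
    rw [norm_div, norm_one, norm_mul, norm_mul, Complex.norm_real,
      Real.norm_of_nonneg Real.pi_pos.le]
    have n2 : ‖(2 : ℂ)‖ = 2 := by norm_num
    rw [n2, lt_div_iff₀ (by positivity)]
    rw [lt_div_iff₀ (by positivity)] at hz2
    have h5 : R' * (2 * Real.pi * ‖y‖) ≤ R' * (2 * 4 * ‖y‖) := by gcongr
    linarith
  have h3 : ‖(1 / (2 * Real.pi * y) : ℂ)‖ ≤ ‖kap z‖ + |(m : ℝ)| + M * ‖y‖ := by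
    have e2 : (1 / (2 * Real.pi * y) : ℂ) = kap z - m - (kap y - 1 / (2 * Real.pi * y)) := by
      rw [hk]; ring
    rw [e2]
    calc _ ≤ ‖kap z - m‖ + ‖kap y - 1 / (2 * Real.pi * y)‖ := norm_sub_le _ _
      _ ≤ (‖kap z‖ + ‖(m : ℂ)‖) + M * ‖y‖ := add_le_add (norm_sub_le _ _) h1
      _ = _ := by rw [Complex.norm_intCast]
  have h4 : M * ‖y‖ ≤ M := by nlinarith
  have h5 := le_abs_self R
  linarith

theorem G_analytic {s : ℤ} : IsAnalyticSubset (G s) := by
  intro p
  set β : (Fin 2 → ℂ) → ℂ := fun k => k 0 - s * I * k 1 with hβ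
  have hβc : Continuous β := by
    simp only [hβ]
    fun_prop
  have hβa : ∀ k, AnalyticAt ℂ β k := by
    intro k
    have h0 : AnalyticAt ℂ (fun x : Fin 2 → ℂ => x 0) k :=
      (ContinuousLinearMap.proj (R := ℂ) (φ := fun _ : Fin 2 => ℂ) 0).analyticAt k
    have h1 : AnalyticAt ℂ (fun x : Fin 2 → ℂ => x 1) k :=
      (ContinuousLinearMap.proj (R := ℂ) (φ := fun _ : Fin 2 => ℂ) 1).analyticAt k
    exact h0.sub (analyticAt_const.mul h1)
  by_cases hp : β p ∈ Lat
  · obtain ⟨δ, hδ, hbl⟩ := kap_blowup hp (‖p 0‖ + 1)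
    refine ⟨{k | ‖β k - β p‖ < δ ∧ ‖k 0‖ < ‖p 0‖ + 1}, ?_, ?_, 1, fun _ _ => 1, ?_, ?_⟩
    · apply IsOpen.and
      · exact isOpen_lt (by fun_prop) continuous_const
      · exact isOpen_lt (by fun_prop) continuous_const
    · refine ⟨?_, ?_⟩
      · rw [sub_self, norm_zero]; exact hδ
      · linarith
    · intro j k _
      exact analyticAt_const
    · ext k
      constructor
      · rintro ⟨⟨h1, h2⟩, ⟨h3, h4⟩⟩
        exfalso
        have h5 := hbl (β k) h1 h3
        have h6 : kap (β k) = k 0 := h2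
        rw [h6] at h5
        linarith
      · rintro ⟨_, h⟩
        exact absurd (h 0) one_ne_zero
  · refine ⟨β ⁻¹' Latᶜ, isOpen_compl_Lat.preimage hβc, hp, 1, fun _ k => kap (β k) - k 0, ?_, ?_⟩
    · intro j k hk
      have h0 : AnalyticAt ℂ (fun x : Fin 2 → ℂ => x 0) k :=
        (ContinuousLinearMap.proj (R := ℂ) (φ := fun _ : Fin 2 => ℂ) 0).analyticAt k
      have hka : AnalyticAt ℂ kap (β k) := by
        have hd : DifferentiableOn ℂ kap Latᶜ := fun z hz =>
          (differentiableAt_kap hz).differentiableWithinAt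
        exact hd.analyticAt (isOpen_compl_Lat.mem_nhds hk)
      exact (AnalyticAt.fun_comp (f := β) (g := kap) hka (hβa k)).sub h0
    · ext k
      constructor
      · rintro ⟨⟨_, h2⟩, h3⟩
        exact ⟨h3, fun _ => sub_eq_zero.2 h2⟩
      · rintro ⟨h3, h⟩
        exact ⟨⟨h3, sub_eq_zero.1 (h 0)⟩, h3⟩

/-! ### the inclusion of the Fermi variety -/

theorem fermi_subset {lam : ℝ} (hlam : ∀ z, z ∉ Lat → mu z + mu (I * z) = (lam : ℂ))
    {k : Fin 2 → ℂ} (hk : k ∈ FermiVariety VV lam) : k ∈ G 1 ∨ k ∈ G (-1) := by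
  obtain ⟨u, hu, hu0, -, heq⟩ := hk
  have hui := integrable_of_memLp hu
  set c : ℤ × ℤ → ℂ := fun p => fc u ![p.1, p.2] with hc
  have hM : ∀ p, ‖c p‖ ≤ ∫ x in cell, ‖u x‖ := fun p => norm_fc_le u _
  have hne : ∃ p, c p ≠ 0 := by
    by_contra hcon
    push Not at hcon
    apply hu0
    apply ae_zero_of_fc hu
    intro n
    have := hcon (n 0, n 1)
    simp only [hc] at this
    have e : ![n 0, n 1] = n := by
      ext i; fin_cases i <;> rfl
    rwa [e] at this
  have hsh0 : ∀ (p : ℤ × ℤ) (m : ℤ), shiftIdx ![p.1, p.2] 0 m = ![p.1 - m, p.2] := by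
    intro p m
    ext i; fin_cases i <;> simp [shiftIdx]
  have hsh1 : ∀ (p : ℤ × ℤ) (m : ℤ), shiftIdx ![p.1, p.2] 1 m = ![p.1, p.2 - m] := by
    intro p m
    ext i; fin_cases i <;> simp [shiftIdx]
  have heq2 : ∀ p, T1 v (k 0) c p + T2 v (k 1) c p = (lam : ℂ) * c p := by
    intro p
    have h1 := heq ![p.1, p.2]
    have h2 : fc (fun x => (VV x : ℂ) * u x) ![p.1, p.2] = c1 v c p + c2 v c p := by
      have e1 : (fun x => (VV x : ℂ) * u x) = fun x => Wp v (x 0) * u x + Wp v (x 1) * u x := by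
        funext x
        rw [VV_cast]
        ring
      rw [e1, fc_add (integrable_pot_mul summable_norm_v hui continuous_Wp 0)
        (integrable_pot_mul summable_norm_v hui continuous_Wp 1),
        fc_pot summable_norm_v hui, fc_pot summable_norm_v hui]
      simp only [hsh0, hsh1]
      rfl
    rw [h2, Fin.sum_univ_two] at h1
    simp only [Matrix.cons_val_zero, Matrix.cons_val_one] at h1
    unfold T1 T2 qq
    linear_combination h1
  obtain ⟨m₀, f, g, ⟨Mf, hf⟩, ⟨Mg, hg⟩, hf0, hg0, hfe, hge⟩ :=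
    separate summable_norm_v hM hne heq2
  obtain ⟨β, hβ, hmu⟩ := mu_surj m₀
  have hIβ : I * β ∉ Lat := mem_Lat_I_mul.not.2 hβ
  have hmuI : mu (I * β) = lam - m₀ := by
    have := hlam β hβ
    rw [hmu] at this
    linear_combination this
  have hbd : ∀ {β : ℂ}, β ∉ Lat → ∃ M : ℝ, ∀ n, ‖fb β n‖ ≤ M := by
    intro β hβ
    obtain ⟨B, hB, hb⟩ := fb_bound hβ
    refine ⟨B, fun n => (hb n).trans ?_⟩
    have : Real.exp (-(2 * |(n : ℝ)|)) ≤ 1 := by
      rw [Real.exp_le_one_iff]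
      have := abs_nonneg (n : ℝ)
      linarith
    calc B * Real.exp (-(2 * |(n : ℝ)|)) ≤ B * 1 := mul_le_mul_of_nonneg_left this hB
      _ = B := mul_one B
  obtain ⟨B1, hB1⟩ := hbd hβ
  obtain ⟨B2, hB2⟩ := hbd hIβ
  have m1 := momenta summable_norm_v hf hB1 hf0 ⟨0, fb_ne hβ 0⟩ hfe (by
    intro n
    have := fb_eq hβ n
    rw [hmu] at this
    exact this)
  have m2 := momenta summable_norm_v hg hB2 hg0 ⟨0, fb_ne hIβ 0⟩ hge (by
    intro n
    have := fb_eq hIβ n
    rw [hmuI] at this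
    exact this)
  -- first adjustment
  obtain ⟨β₁, hβ₁, hk0, hkI⟩ : ∃ β₁, β₁ ∉ Lat ∧ kap β₁ = k 0 ∧
      (kap (I * β₁) = kap (I * β) ∨ kap (I * β₁) = -kap (I * β)) := by
    obtain ⟨n, h | h⟩ := m1
    · refine ⟨β + n, (Lat_add_int n).not.2 hβ, ?_, Or.inl ?_⟩
      · rw [kap_add_int hβ, h]
      · have e : I * (β + n) = I * β + n * I := by ring
        rw [e, kap_add_int_I]
    · have hnβ : -β ∉ Lat := mem_Lat_neg.not.2 hβ
      refine ⟨-β + n, (Lat_add_int n).not.2 hnβ, ?_, Or.inr ?_⟩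
      · rw [kap_add_int hnβ, kap_neg, h]
      · have e : I * (-β + n) = -(I * β) + n * I := by ring
        rw [e, kap_add_int_I, kap_neg]
  have hIβ₁ : I * β₁ ∉ Lat := mem_Lat_I_mul.not.2 hβ₁
  have hk1 : ∃ n : ℤ, k 1 = kap (I * β₁) + n ∨ k 1 = -kap (I * β₁) + n := by
    obtain ⟨n, h | h⟩ := m2 <;> rcases hkI with h' | h'
    · exact ⟨n, Or.inl (by rw [h', h])⟩
    · exact ⟨n, Or.inr (by rw [h', neg_neg, h])⟩
    · exact ⟨n, Or.inr (by rw [h', h])⟩
    · exact ⟨n, Or.inl (by rw [h', h])⟩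
  obtain ⟨n, h | h⟩ := hk1
  · left
    rw [G_param (Or.inl rfl)]
    refine ⟨β₁ + ((-n : ℤ) : ℂ) * I, ?_, ?_, ?_⟩
    · rw [Lat_add_int_I]; exact hβ₁
    · rw [kap_add_int_I, hk0]
    · have e : I * (β₁ + ((-n : ℤ) : ℂ) * I) = I * β₁ + n := by
        push_cast
        linear_combination (-(n : ℂ)) * I_mul_I
      rw [e, kap_add_int hIβ₁, h]
      push_cast
      ring
  · right
    rw [G_param (Or.inr rfl)]
    refine ⟨β₁ + (n : ℂ) * I, ?_, ?_, ?_⟩
    · rw [Lat_add_int_I]; exact hβ₁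
    · rw [kap_add_int_I, hk0]
    · have e : I * (β₁ + (n : ℂ) * I) = I * β₁ + ((-n : ℤ) : ℂ) := by
        push_cast
        linear_combination (n : ℂ) * I_mul_I
      rw [e, kap_add_int hIβ₁, h]
      push_cast
      ring

/-! ### the reverse inclusion -/

theorem summable_fb {β : ℂ} (hβ : β ∉ Lat) : Summable fun m => ‖fb β m‖ := by
  obtain ⟨B, hB, hb⟩ := fb_bound hβ
  exact Summable.of_nonneg_of_le (fun _ => norm_nonneg _) hb
    ((summable_exp_abs (c := 2) (by norm_num)).mul_left B)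

/-- `k` and `-k₂` -/
theorem fb_eq' {β : ℂ} (hβ : β ∉ Lat) {s : ℤ} (hs : s = 1 ∨ s = -1) (n : ℤ) {κ : ℂ}
    (hκ : s * κ = kap β) :
    4 * (Real.pi : ℂ) ^ 2 * ((n : ℂ) + κ) ^ 2 * fb β (s * n) + conv v (fun j => fb β (s * j)) n =
      mu β * fb β (s * n) := by
  rcases hs with rfl | rfl
  · have h := fb_eq hβ n
    have hκ' : κ = kap β := by rw [← hκ]; push_cast; ring
    simp only [one_mul]
    rw [hκ']
    exact h
  · have h := fb_eq hβ (-n)
    have hκ' : kap β = -κ := by rw [← hκ]; push_cast; ring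
    rw [hκ'] at h
    have e1 : ∑' m : ℤ, v m * fb β (-n - m) = conv v (fun j => fb β (-1 * j)) n := by
      unfold conv
      rw [← (Equiv.neg ℤ).tsum_eq]
      refine tsum_congr (fun m => ?_)
      simp only [Equiv.neg_apply, v_neg]
      congr 2
      ring
    rw [e1] at h
    have e2 : -1 * n = -n := by ring
    rw [e2, ← h]
    push_cast
    ring

theorem fermi_superset {lam : ℝ} (hlam : ∀ z, z ∉ Lat → mu z + mu (I * z) = (lam : ℂ))
    {s : ℤ} (hs : s = 1 ∨ s = -1) {k : Fin 2 → ℂ} (hk : k ∈ G s) : k ∈ FermiVariety VV lam := by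
  rw [G_param hs] at hk
  obtain ⟨β, hβ, h0, h1⟩ := hk
  have hIβ : I * β ∉ Lat := mem_Lat_I_mul.not.2 hβ
  set f : ℤ → ℂ := fb β with hf
  set g : ℤ → ℂ := fun j => fb (I * β) (s * j) with hg
  have hs2 : s * s = 1 := by rcases hs with rfl | rfl <;> norm_num
  have hsabs : ∀ j : ℤ, |((s * j : ℤ) : ℝ)| = |(j : ℝ)| := by
    intro j
    rcases hs with rfl | rfl
    · simp
    · push_cast
      rw [neg_one_mul, abs_neg]
  have hfs : Summable fun m => ‖f m‖ := summable_fb hβ
  obtain ⟨B, hB, hb⟩ := fb_bound hβ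
  obtain ⟨B', hB', hb'⟩ := fb_bound hIβ
  have hgb : ∀ j, ‖g j‖ ≤ B' * Real.exp (-(2 * |(j : ℝ)|)) := by
    intro j
    have := hb' (s * j)
    rw [hsabs] at this
    exact this
  have hgs : Summable fun m => ‖g m‖ :=
    Summable.of_nonneg_of_le (fun _ => norm_nonneg _) hgb
      ((summable_exp_abs (c := 2) (by norm_num)).mul_left B')
  have hfe : ∀ n : ℤ, 4 * (Real.pi : ℂ) ^ 2 * ((n : ℂ) + k 0) ^ 2 * f n + conv v f n =
      mu β * f n := by
    intro n
    rw [h0]
    exact fb_eq hβ n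
  have hge : ∀ n : ℤ, 4 * (Real.pi : ℂ) ^ 2 * ((n : ℂ) + k 1) ^ 2 * g n + conv v g n =
      mu (I * β) * g n := fun n => fb_eq' hIβ hs n h1
  set u : (Fin 2 → ℝ) → ℂ := fun x => (∑' m, f m * ee m (x 0)) * ∑' m, g m * ee m (x 1) with hu
  have hufc : ∀ n, fc u n = f (n 0) * g (n 1) := fun n => fc_series hfs hgs n
  have hmem : MemLp u 2 (volume.restrict cell) := memLp_series hfs hgs
  have hui := integrable_of_memLp hmem
  refine ⟨u, hmem, ?_, ?_, ?_⟩
  · intro h
    have h2 : fc u 0 = 0 := by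
      rw [fc_def]
      apply integral_eq_zero_of_ae
      filter_upwards [h] with x hx
      rw [hx]
      simp
    rw [hufc] at h2
    rcases mul_eq_zero.1 h2 with h3 | h3
    · exact fb_ne hβ _ h3
    · exact fb_ne hIβ _ h3
  · -- domain
    have hsum : Summable fun p : ℤ × ℤ => (4 * B * B') ^ 2 *
        (Real.exp (-(2 * |(p.1 : ℝ)|)) * Real.exp (-(2 * |(p.2 : ℝ)|))) := by
      apply Summable.mul_left
      exact (summable_exp_abs (c := 2) (by norm_num)).mul_of_nonneg
        (summable_exp_abs (c := 2) (by norm_num)) (fun _ => (Real.exp_pos _).le)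
        (fun _ => (Real.exp_pos _).le)
    have hsum2 := (finTwoArrowEquiv ℤ).summable_iff.2 hsum
    refine Summable.of_nonneg_of_le (fun _ => by positivity) (fun n => ?_) hsum2
    simp only [Function.comp_apply, finTwoArrowEquiv_apply]
    rw [hufc, Fin.sum_univ_two, norm_mul, norm_mul]
    set a : ℝ := |(n 0 : ℝ)| with ha
    set b : ℝ := |(n 1 : ℝ)| with hb2
    have ha0 : 0 ≤ a := abs_nonneg _
    have hb0 : 0 ≤ b := abs_nonneg _
    have hquad : ∀ x : ℝ, 0 ≤ x → x ^ 2 ≤ 2 * Real.exp x := by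
      intro x hx
      have := Real.quadratic_le_exp_of_nonneg hx
      nlinarith
    have n1 : ‖((n 0 : ℂ)) ^ 2 + (n 1 : ℂ) ^ 2‖ ≤ 4 * Real.exp (a + b) := by
      refine (norm_add_le _ _).trans ?_
      rw [norm_pow, norm_pow, Complex.norm_intCast, Complex.norm_intCast, ← ha, ← hb2]
      have h1 := hquad a ha0
      have h2 := hquad b hb0
      have h3 : Real.exp a ≤ Real.exp (a + b) := Real.exp_le_exp.2 (by linarith)
      have h4 : Real.exp b ≤ Real.exp (a + b) := Real.exp_le_exp.2 (by linarith)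
      linarith
    have n2 := hb (n 0)
    have n3 := hgb (n 1)
    rw [← ha] at n2
    rw [← hb2] at n3
    have n4 : ‖((n 0 : ℂ)) ^ 2 + (n 1 : ℂ) ^ 2‖ * (‖f (n 0)‖ * ‖g (n 1)‖) ≤
        (4 * B * B') * Real.exp (-(a + b)) := by
      calc _ ≤ (4 * Real.exp (a + b)) * ((B * Real.exp (-(2 * a))) * (B' * Real.exp (-(2 * b)))) := by
            apply mul_le_mul n1 _ (by positivity) (by positivity)
            exact mul_le_mul n2 n3 (norm_nonneg _) (by positivity)
        _ = (4 * B * B') * (Real.exp (a + b) * (Real.exp (-(2 * a)) * Real.exp (-(2 * b)))) := by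
            ring
        _ = _ := by
            rw [← Real.exp_add, ← Real.exp_add]
            congr 2
            ring
    calc (‖((n 0 : ℂ)) ^ 2 + (n 1 : ℂ) ^ 2‖ * (‖f (n 0)‖ * ‖g (n 1)‖)) ^ 2
        ≤ ((4 * B * B') * Real.exp (-(a + b))) ^ 2 := pow_le_pow_left₀ (by positivity) n4 2
      _ = (4 * B * B') ^ 2 * (Real.exp (-(2 * a)) * Real.exp (-(2 * b))) := by
          rw [mul_pow, sq (Real.exp _), ← Real.exp_add, ← Real.exp_add]
          congr 2
          ring
  · intro n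
    have e1 : (fun x => (VV x : ℂ) * u x) = fun x => Wp v (x 0) * u x + Wp v (x 1) * u x := by
      funext x
      rw [VV_cast]
      ring
    have e2 : fc (fun x => Wp v (x 0) * u x) n = conv v f (n 0) * g (n 1) := by
      rw [fc_pot summable_norm_v hui 0 n]
      unfold conv
      rw [← tsum_mul_right]
      refine tsum_congr (fun m => ?_)
      rw [hufc]
      simp only [shiftIdx]
      simp
      ring
    have e3 : fc (fun x => Wp v (x 1) * u x) n = f (n 0) * conv v g (n 1) := by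
      rw [fc_pot summable_norm_v hui 1 n]
      unfold conv
      rw [← tsum_mul_left]
      refine tsum_congr (fun m => ?_)
      rw [hufc]
      simp only [shiftIdx]
      simp
      ring
    rw [e1, fc_add (integrable_pot_mul summable_norm_v hui continuous_Wp 0)
        (integrable_pot_mul summable_norm_v hui continuous_Wp 1), e2, e3, hufc, Fin.sum_univ_two,
        ← hlam β hβ]
    linear_combination g (n 1) * hfe (n 0) + f (n 0) * hge (n 1)

/-! ### separation of the components -/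

theorem exists_minus : ∃ k : Fin 2 → ℂ, k ∈ G (-1) ∧ k ∉ G 1 := by
  obtain ⟨x, hx0, hx1, hx⟩ := exists_separating
  have hxL : (x : ℂ) ∉ Lat := by
    apply not_mem_Lat_of_small
    · exact_mod_cast hx0.ne'
    · rw [Complex.norm_real, Real.norm_of_nonneg hx0.le]; exact hx1
  refine ⟨![kap x, -kap (I * x)], ?_, ?_⟩
  · rw [G_param (Or.inr rfl)]
    refine ⟨x, hxL, rfl, ?_⟩
    simp
  · rintro ⟨h, -⟩
    apply h
    have h3 := kap_relation hxL
    have e : (![kap x, -kap (I * x)] : Fin 2 → ℂ) 0 - ((1 : ℤ) : ℂ) * I *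
        (![kap x, -kap (I * x)] : Fin 2 → ℂ) 1 = 1 := by
      simp
      linear_combination hx - h3
    rw [e]
    exact ⟨1, 0, by simp⟩

theorem exists_plus : ∃ k : Fin 2 → ℂ, k ∈ G 1 ∧ k ∉ G (-1) := by
  obtain ⟨x, hx0, hx1, hx⟩ := exists_separating
  have hxL : (x : ℂ) ∉ Lat := by
    apply not_mem_Lat_of_small
    · exact_mod_cast hx0.ne'
    · rw [Complex.norm_real, Real.norm_of_nonneg hx0.le]; exact hx1
  refine ⟨![kap x, kap (I * x)], ?_, ?_⟩
  · rw [G_param (Or.inl rfl)]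
    refine ⟨x, hxL, rfl, ?_⟩
    simp
  · rintro ⟨h, -⟩
    apply h
    have h3 := kap_relation hxL
    have e : (![kap x, kap (I * x)] : Fin 2 → ℂ) 0 - ((-1 : ℤ) : ℂ) * I *
        (![kap x, kap (I * x)] : Fin 2 → ℂ) 1 = 1 := by
      simp
      linear_combination hx - h3
    rw [e]
    exact ⟨1, 0, by simp⟩

/-! ### non-constancy -/

theorem VV_nonconst : ¬ ∃ c : ℝ, ∀ᵐ x : Fin 2 → ℝ, VV x = c := by
  rintro ⟨c, hc⟩
  set u : (Fin 2 → ℝ) → ℂ := fun _ => 1 with hu
  have := isFiniteMeasure_cell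
  have hui : Integrable u (volume.restrict cell) := integrable_const 1
  have hfc1 : ∀ n : Fin 2 → ℤ, fc u n = (if n 0 = 0 then 1 else 0) * (if n 1 = 0 then 1 else 0) := by
    intro n
    have h := fc_prod (fun _ => 1) (fun _ => 1) n
    have e : (fun x : Fin 2 → ℝ => (1 : ℂ) * 1) = u := by funext x; simp [hu]
    rw [e] at h
    rw [h]
    have h1 : ∀ j : ℤ, ∫ t in Set.Ioc (0 : ℝ) 1, ee (-j) t * 1 = if j = 0 then 1 else 0 := by
      intro j
      simp only [mul_one]
      have h2 := integral_ee (-j)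
      rw [intervalIntegral.integral_of_le zero_le_one] at h2
      rw [h2]
      simp [neg_eq_zero]
    rw [h1, h1]
  -- coefficient at (1,0)
  have e1 : (fun x => (VV x : ℂ) * u x) = fun x => Wp v (x 0) * u x + Wp v (x 1) * u x := by
    funext x
    rw [VV_cast]
    ring
  have hA : fc (fun x => (VV x : ℂ) * u x) ![1, 0] = v 1 := by
    rw [e1, fc_add (integrable_pot_mul summable_norm_v hui continuous_Wp 0)
        (integrable_pot_mul summable_norm_v hui continuous_Wp 1),
        fc_pot summable_norm_v hui, fc_pot summable_norm_v hui]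
    have s0 : ∑' m : ℤ, v m * fc u (shiftIdx ![1, 0] 0 m) = v 1 := by
      rw [tsum_eq_single 1]
      · rw [hfc1]
        simp [shiftIdx]
      · intro m hm
        rw [hfc1]
        have h3 : (1 : ℤ) - m ≠ 0 := by
          intro h
          apply hm
          omega
        simp [shiftIdx, h3]
    have s1 : ∑' m : ℤ, v m * fc u (shiftIdx ![1, 0] 1 m) = 0 := by
      have : ∀ m : ℤ, v m * fc u (shiftIdx ![1, 0] 1 m) = 0 := by
        intro m
        rw [hfc1]
        simp [shiftIdx]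
      rw [tsum_congr this, tsum_zero]
    rw [s0, s1, add_zero]
  have hB : fc (fun x => (VV x : ℂ) * u x) ![1, 0] = 0 := by
    have h4 : fc (fun x => (VV x : ℂ) * u x) ![1, 0] = ∫ x in cell, (c : ℂ) * (ex ![1, 0] x * u x) := by
      rw [fc_def]
      apply integral_congr_ae
      filter_upwards [ae_restrict_of_ae hc] with x hx
      rw [hx]
      ring
    rw [h4, integral_const_mul]
    have h5 : ∫ x in cell, ex ![1, 0] x * u x = 0 := by
      have := hfc1 ![1, 0]
      rw [fc_def] at this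
      rw [this]
      simp
    rw [h5, mul_zero]
  rw [hA] at hB
  exact v_one_ne hB

/-- The counterexample. -/
theorem main : ∃ V : (Fin 2 → ℝ) → ℝ,
    (∀ (x : Fin 2 → ℝ) (n : Fin 2 → ℤ), V (fun i => x i + n i) = V x) ∧
    AnalyticOnNhd ℝ V Set.univ ∧
    (¬ ∃ c : ℝ, ∀ᵐ x : Fin 2 → ℝ, V x = c) ∧
    ∃ lam : ℝ, ¬ IrreducibleModPeriodicity (FermiVariety V lam) := by
  obtain ⟨lam, hlam⟩ := mu_sum_real
  refine ⟨VV, VV_periodic, analytic_VV, VV_nonconst, lam, ?_⟩
  intro hirr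
  apply hirr
  have hF : FermiVariety VV lam = G 1 ∪ G (-1) := by
    ext k
    constructor
    · intro hk
      exact fermi_subset hlam hk
    · rintro (hk | hk)
      · exact fermi_superset hlam (Or.inl rfl) hk
      · exact fermi_superset hlam (Or.inr rfl) hk
  refine ⟨G 1, G (-1), G_analytic, G_invariant (Or.inl rfl), G_analytic,
    G_invariant (Or.inr rfl), ?_, ?_, hF⟩
  · rw [hF, Set.ssubset_iff_of_subset Set.subset_union_left]
    obtain ⟨k, h1, h2⟩ := exists_minus
    exact ⟨k, Or.inr h1, h2⟩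
  · rw [hF, Set.ssubset_iff_of_subset Set.subset_union_right]
    obtain ⟨k, h1, h2⟩ := exists_plus
    exact ⟨k, Or.inl h1, h2⟩

end Pool.Agent.Hhelper96.Fermi
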