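import Mathlib

/-!
One-dimensional Floquet theory in Fourier coefficients: a bounded sequence `f ≠ 0` with
`4π²(n+k)² f(n) + (v * f)(n) = μ f(n)` gives a Floquet solution of the Hill equation, and two
such sequences at the same spectral parameter have quasi-momenta equal up to sign modulo `ℤ`.
-/

set_option autoImplicit false

open Complex Filter Topology MeasureTheory

namespace Pool.Agent.Hhelper96.Fermi

/-- exponential -/
noncomputable def ee (n : ℤ) (x : ℝ) : ℂ := Complex.exp (2 * Real.pi * I * n * x)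

theorem norm_ee (n : ℤ) (x : ℝ) : ‖ee n x‖ = 1 := by
  unfold ee
  rw [Complex.norm_exp]
  have : (2 * Real.pi * I * n * x : ℂ).re = 0 := by
    simp
  rw [this, Real.exp_zero]

theorem ee_add (m n : ℤ) (x : ℝ) : ee (m + n) x = ee m x * ee n x := by
  unfold ee
  rw [← Complex.exp_add]
  congr 1
  push_cast
  ring

theorem ee_zero (x : ℝ) : ee 0 x = 1 := by
  unfold ee; simp

theorem hasDerivAt_ee (n : ℤ) (x : ℝ) : HasDerivAt (ee n) (2 * Real.pi * I * n * ee n x) x := by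
  unfold ee
  have h1 : HasDerivAt (fun x : ℝ => (2 * Real.pi * I * n * x : ℂ)) (2 * Real.pi * I * n * 1) x :=
    (Complex.ofRealCLM.hasDerivAt (x := x)).const_mul _
  have h2 := h1.cexp
  convert h2 using 1
  ring

theorem continuous_ee (n : ℤ) : Continuous (ee n) := by
  unfold ee; fun_prop

theorem ee_add_one (n : ℤ) (x : ℝ) : ee n (x + 1) = ee n x := by
  unfold ee
  have : (2 * Real.pi * I * n * ((x + 1 : ℝ) : ℂ) : ℂ) = 2 * Real.pi * I * n * x +
      n * (2 * Real.pi * I) := by push_cast; ring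
  rw [this, Complex.exp_add, Complex.exp_int_mul_two_pi_mul_I, mul_one]

theorem integral_ee (n : ℤ) : ∫ x in (0 : ℝ)..1, ee n x = if n = 0 then 1 else 0 := by
  by_cases hn : n = 0
  · subst hn
    simp [ee]
  · rw [if_neg hn]
    have hc : (2 * Real.pi * I * n : ℂ) ≠ 0 := by
      have hpne : (Real.pi : ℂ) ≠ 0 := by exact_mod_cast Real.pi_ne_zero
      have hn' : (n : ℂ) ≠ 0 := by exact_mod_cast hn
      simp [hpne, hn']
    unfold ee
    rw [integral_exp_mul_complex hc]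
    have e1 : (2 * Real.pi * I * n * ((1 : ℝ) : ℂ) : ℂ) = n * (2 * Real.pi * I) := by
      push_cast; ring
    rw [e1, Complex.exp_int_mul_two_pi_mul_I]
    simp

/-- convolution of sequences -/
noncomputable def conv (v f : ℤ → ℂ) (n : ℤ) : ℂ := ∑' m : ℤ, v m * f (n - m)

/-- reindexing of the plane -/
def shz : ℤ × ℤ ≃ ℤ × ℤ where
  toFun p := (p.2, p.1 - p.2)
  invFun q := (q.2 + q.1, q.1)
  left_inv p := by ext <;> simp
  right_inv q := by ext <;> simp

theorem norm_conv_le {v f : ℤ → ℂ} (hv : Summable fun m => ‖v m‖) {M : ℝ} (hf : ∀ n, ‖f n‖ ≤ M)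
    (n : ℤ) : ‖conv v f n‖ ≤ (∑' m, ‖v m‖) * M := by
  unfold conv
  rw [← tsum_mul_right]
  refine tsum_of_norm_bounded (hv.mul_right M).hasSum (fun m => ?_)
  rw [norm_mul]
  exact mul_le_mul_of_nonneg_left (hf _) (norm_nonneg _)

theorem summable_norm_conv {v f : ℤ → ℂ} (hv : Summable fun m => ‖v m‖)
    (hf : Summable fun m => ‖f m‖) : Summable fun n => ‖conv v f n‖ := by
  have h1 : Summable (fun p : ℤ × ℤ => ‖v p.1‖ * ‖f p.2‖) :=
    hv.mul_of_nonneg hf (fun _ => norm_nonneg _) (fun _ => norm_nonneg _)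
  have h2 : Summable (fun p : ℤ × ℤ => ‖v p.2‖ * ‖f (p.1 - p.2)‖) :=
    (shz.summable_iff (f := fun p : ℤ × ℤ => ‖v p.1‖ * ‖f p.2‖)).2 h1
  have h3 := h2.prod
  refine Summable.of_nonneg_of_le (fun _ => norm_nonneg _) (fun n => ?_) h3
  unfold conv
  have h4 : Summable (fun m => ‖v m * f (n - m)‖) := by
    have := h2.prod_factor n
    simpa [norm_mul] using this
  refine (norm_tsum_le_tsum_norm h4).trans (le_of_eq ?_)
  exact tsum_congr (fun m => norm_mul _ _)

theorem tsum_conv_ee {v f : ℤ → ℂ} (hv : Summable fun m => ‖v m‖)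
    (hf : Summable fun m => ‖f m‖) (x : ℝ) :
    ∑' n, conv v f n * ee n x = (∑' m, v m * ee m x) * ∑' n, f n * ee n x := by
  have hv' : Summable fun m => ‖v m * ee m x‖ := by simpa [norm_mul, norm_ee] using hv
  have hf' : Summable fun m => ‖f m * ee m x‖ := by simpa [norm_mul, norm_ee] using hf
  rw [tsum_mul_tsum_of_summable_norm hv' hf']
  have hs := summable_mul_of_summable_norm hv' hf'
  rw [← shz.tsum_eq (fun z : ℤ × ℤ => v z.1 * ee z.1 x * (f z.2 * ee z.2 x))]
  have hs2 : Summable (fun p : ℤ × ℤ => (fun z : ℤ × ℤ => v z.1 * ee z.1 x * (f z.2 * ee z.2 x))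
      (shz p)) := shz.summable_iff.2 hs
  rw [hs2.tsum_prod]
  refine tsum_congr (fun n => ?_)
  unfold conv
  rw [← tsum_mul_right]
  refine tsum_congr (fun m => ?_)
  simp only [shz, Equiv.coe_fn_mk]
  have e : ee n x = ee m x * ee (n - m) x := by
    rw [← ee_add]
    congr 1
    ring
  rw [e]
  ring

/-- Recovering the coefficients of an absolutely convergent Fourier series. -/
theorem coeff_eq_zero {f : ℤ → ℂ} (hf : Summable fun m => ‖f m‖)
    (h0 : ∀ x : ℝ, ∑' n, f n * ee n x = 0) (n : ℤ) : f n = 0 := by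
  have h := hasSum_integral_of_summable_integral_norm (μ := volume.restrict (Set.Ioc (0 : ℝ) 1))
    (F := fun (m : ℤ) (x : ℝ) => f m * ee (m - n) x)
    (by
      intro m
      apply Continuous.integrableOn_Ioc
      exact continuous_const.mul (continuous_ee _))
    (by
      have : ∀ m : ℤ, ∫ x in Set.Ioc (0 : ℝ) 1, ‖f m * ee (m - n) x‖ = ‖f m‖ := by
        intro m
        simp [norm_ee]
      exact (summable_congr this).2 hf)
  have e1 : ∀ x : ℝ, ∑' m, f m * ee (m - n) x = 0 := by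
    intro x
    have : ∀ m, f m * ee (m - n) x = (f m * ee m x) * ee (-n) x := by
      intro m
      rw [sub_eq_add_neg, ee_add]
      ring
    rw [tsum_congr this, tsum_mul_right, h0, zero_mul]
  simp only [e1, integral_zero] at h
  have e2 : ∀ m : ℤ, ∫ x in Set.Ioc (0 : ℝ) 1, f m * ee (m - n) x = if m = n then f n else 0 := by
    intro m
    rw [integral_const_mul]
    have := integral_ee (m - n)
    rw [intervalIntegral.integral_of_le zero_le_one] at this
    rw [this]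
    by_cases hm : m = n
    · subst hm; simp
    · rw [if_neg hm, if_neg (sub_ne_zero.2 hm), mul_zero]
  simp only [e2] at h
  have h3 := hasSum_ite_eq n (f n)
  exact h3.unique h

/-- The Hill potential. -/
noncomputable def Wp (v : ℤ → ℂ) (x : ℝ) : ℂ := ∑' m, v m * ee m x

theorem norm_Wp_le {v : ℤ → ℂ} (hv : Summable fun m => ‖v m‖) (x : ℝ) :
    ‖Wp v x‖ ≤ ∑' m, ‖v m‖ := by
  unfold Wp
  refine tsum_of_norm_bounded hv.hasSum (fun m => ?_)
  rw [norm_mul, norm_ee, mul_one]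

/-- A Floquet solution of the Hill equation. -/
structure Floq (v : ℤ → ℂ) (k m₀ : ℂ) (Y Y1 : ℝ → ℂ) : Prop where
  d0 : ∀ x, HasDerivAt Y (Y1 x) x
  d1 : ∀ x, HasDerivAt Y1 ((Wp v x - m₀) * Y x) x
  p0 : ∀ x, Y (x + 1) = Complex.exp (2 * Real.pi * I * k) * Y x
  p1 : ∀ x, Y1 (x + 1) = Complex.exp (2 * Real.pi * I * k) * Y1 x
  ne : ∃ x, Y x ≠ 0

theorem exists_floq {v f : ℤ → ℂ} (hv : Summable fun m => ‖v m‖) {M : ℝ} (hb : ∀ n, ‖f n‖ ≤ M)
    (hne : ∃ n, f n ≠ 0) {k m₀ : ℂ}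
    (heq : ∀ n : ℤ, 4 * (Real.pi : ℂ) ^ 2 * ((n : ℂ) + k) ^ 2 * f n + conv v f n = m₀ * f n) :
    ∃ Y Y1 : ℝ → ℂ, Floq v k m₀ Y Y1 := by
  have hM : 0 ≤ M := (norm_nonneg _).trans (hb 0)
  have hpi := Real.pi_gt_three
  -- a priori decay
  set V1 : ℝ := ∑' m, ‖v m‖ with hV1
  have hV1n : 0 ≤ V1 := tsum_nonneg (fun _ => norm_nonneg _)
  have hform : ∀ n : ℤ, ‖(n : ℂ) + k‖ ^ 2 * ‖f n‖ ≤ ‖m₀‖ * ‖f n‖ + ‖conv v f n‖ := by
    intro n
    have h1 : 4 * (Real.pi : ℂ) ^ 2 * ((n : ℂ) + k) ^ 2 * f n = m₀ * f n - conv v f n := by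
      linear_combination heq n
    have h2 : ‖4 * (Real.pi : ℂ) ^ 2 * ((n : ℂ) + k) ^ 2 * f n‖ =
        4 * Real.pi ^ 2 * (‖(n : ℂ) + k‖ ^ 2 * ‖f n‖) := by
      rw [norm_mul, norm_mul, norm_mul, norm_pow, norm_pow, Complex.norm_real,
        Real.norm_of_nonneg Real.pi_pos.le]
      have : ‖(4 : ℂ)‖ = 4 := by norm_num
      rw [this]
      ring
    have h3 : ‖m₀ * f n - conv v f n‖ ≤ ‖m₀‖ * ‖f n‖ + ‖conv v f n‖ := by
      refine (norm_sub_le _ _).trans ?_
      rw [norm_mul]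
    have h4 : 0 ≤ ‖(n : ℂ) + k‖ ^ 2 * ‖f n‖ := by positivity
    rw [← h1, h2] at h3
    have h5 : 1 ≤ 4 * Real.pi ^ 2 := by nlinarith
    have h6 := mul_le_mul_of_nonneg_right h5 h4
    linarith
  have hform2 : ∀ n : ℤ, (n : ℝ) ^ 2 * ‖f n‖ ≤
      (2 * ‖m₀‖ + 2 * ‖k‖ ^ 2) * ‖f n‖ + 2 * ‖conv v f n‖ := by
    intro n
    have h1 : |(n : ℝ)| ≤ ‖(n : ℂ) + k‖ + ‖k‖ := by
      have : (n : ℂ) = ((n : ℂ) + k) - k := by ring
      calc |(n : ℝ)| = ‖(n : ℂ)‖ := (Complex.norm_intCast n).symm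
        _ = ‖((n : ℂ) + k) - k‖ := by rw [← this]
        _ ≤ _ := norm_sub_le _ _
    have h2 : (n : ℝ) ^ 2 ≤ 2 * ‖(n : ℂ) + k‖ ^ 2 + 2 * ‖k‖ ^ 2 := by
      have h3 : (n : ℝ) ^ 2 = |(n : ℝ)| ^ 2 := (sq_abs _).symm
      rw [h3]
      have h4 : |(n : ℝ)| ^ 2 ≤ (‖(n : ℂ) + k‖ + ‖k‖) ^ 2 := pow_le_pow_left₀ (abs_nonneg _) h1 2
      nlinarith [sq_nonneg (‖(n : ℂ) + k‖ - ‖k‖)]
    have h5 := hform n
    have h6 := norm_nonneg (f n)
    nlinarith
  have hsumf : Summable fun n => ‖f n‖ := by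
    set A : ℝ := (2 * ‖m₀‖ + 2 * ‖k‖ ^ 2) * M + 2 * (V1 * M) with hA
    have hA0 : 0 ≤ A := by positivity
    have h1 : ∀ n : ℤ, (n : ℝ) ^ 2 * ‖f n‖ ≤ A := by
      intro n
      refine (hform2 n).trans ?_
      have h2 := norm_conv_le hv hb n
      have h3 : (2 * ‖m₀‖ + 2 * ‖k‖ ^ 2) * ‖f n‖ ≤ (2 * ‖m₀‖ + 2 * ‖k‖ ^ 2) * M :=
        mul_le_mul_of_nonneg_left (hb n) (by positivity)
      linarith
    have h2 : Summable fun n : ℤ => A * (1 / (n : ℝ) ^ 2) :=
      (Real.summable_one_div_int_pow.2 (by norm_num)).mul_left A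
    rw [← Finset.summable_compl_iff ({0} : Finset ℤ)]
    refine Summable.of_nonneg_of_le (fun _ => norm_nonneg _) (fun n => ?_)
      ((Finset.summable_compl_iff ({0} : Finset ℤ)).2 h2)
    have hn : (n : ℤ) ≠ 0 := by
      have := n.2
      simpa using this
    have hn2 : (0 : ℝ) < ((n : ℤ) : ℝ) ^ 2 := by positivity
    rw [mul_one_div, le_div_iff₀ hn2, mul_comm]
    exact h1 n
  have hsum2 : Summable fun n : ℤ => (n : ℝ) ^ 2 * ‖f n‖ := by
    refine Summable.of_nonneg_of_le (fun _ => by positivity) hform2 ?_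
    exact (hsumf.mul_left _).add ((summable_norm_conv hv hsumf).mul_left 2)
  have hsum1 : Summable fun n : ℤ => |(n : ℝ)| * ‖f n‖ := by
    refine Summable.of_nonneg_of_le (fun _ => by positivity) (fun n => ?_) (hsumf.add hsum2)
    have h1 : |(n : ℝ)| ≤ 1 + (n : ℝ) ^ 2 := by
      have : (n : ℝ) ^ 2 = |(n : ℝ)| ^ 2 := (sq_abs _).symm
      rw [this]
      nlinarith [sq_nonneg (|(n : ℝ)| - 1)]
    calc |(n : ℝ)| * ‖f n‖ ≤ (1 + (n : ℝ) ^ 2) * ‖f n‖ :=
          mul_le_mul_of_nonneg_right h1 (norm_nonneg _)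
      _ = _ := by ring
  -- the series
  have hn2pi : ∀ n : ℤ, ‖(2 * Real.pi * I * n : ℂ)‖ = 2 * Real.pi * |(n : ℝ)| := by
    intro n
    rw [norm_mul, norm_mul, norm_mul, norm_I, Complex.norm_real,
      Real.norm_of_nonneg Real.pi_pos.le, Complex.norm_intCast]
    norm_num
  set p : ℝ → ℂ := fun x => ∑' n, f n * ee n x with hp
  set p1 : ℝ → ℂ := fun x => ∑' n : ℤ, f n * (2 * Real.pi * I * n * ee n x) with hp1
  set p2 : ℝ → ℂ := fun x => ∑' n : ℤ, f n * (2 * Real.pi * I * n * (2 * Real.pi * I * n * ee n x))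
    with hp2
  have hd0 : ∀ x, HasDerivAt p (p1 x) x := by
    intro x
    refine hasDerivAt_tsum (u := fun n : ℤ => 2 * Real.pi * (|(n : ℝ)| * ‖f n‖)) (y₀ := 0)
      (hsum1.mul_left _) (fun n y => (hasDerivAt_ee n y).const_mul (f n)) (fun n y => ?_) ?_ x
    · rw [norm_mul, norm_mul, hn2pi, norm_ee]
      exact le_of_eq (by ring)
    · exact Summable.of_norm (by simpa [norm_mul, norm_ee] using hsumf)
  have hd1 : ∀ x, HasDerivAt p1 (p2 x) x := by
    intro x
    refine hasDerivAt_tsum (u := fun n : ℤ => 4 * Real.pi ^ 2 * ((n : ℝ) ^ 2 * ‖f n‖)) (y₀ := 0)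
      (hsum2.mul_left _)
      (fun n y => ((hasDerivAt_ee n y).const_mul (2 * Real.pi * I * n : ℂ)).const_mul (f n))
      (fun n y => ?_) ?_ x
    · rw [norm_mul, norm_mul (2 * Real.pi * I * n : ℂ), norm_mul (2 * Real.pi * I * n : ℂ), hn2pi,
        norm_ee, ← sq_abs (n : ℝ)]
      exact le_of_eq (by ring)
    · refine Summable.of_norm ?_
      have : (fun n : ℤ => ‖f n * (2 * Real.pi * I * n * ee n 0)‖) =
          fun n : ℤ => 2 * Real.pi * (|(n : ℝ)| * ‖f n‖) := by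
        funext n
        rw [norm_mul, norm_mul, hn2pi, norm_ee]
        ring
      rw [this]
      exact hsum1.mul_left _
  -- the ode for p
  have hsF : ∀ x, Summable fun n : ℤ => f n * ee n x := fun x =>
    Summable.of_norm (by simpa [norm_mul, norm_ee] using hsumf)
  have hsF1 : ∀ x, Summable fun n : ℤ => f n * (2 * Real.pi * I * n * ee n x) := by
    intro x
    refine Summable.of_norm ?_
    have : (fun n : ℤ => ‖f n * (2 * Real.pi * I * n * ee n x)‖) =
        fun n : ℤ => 2 * Real.pi * (|(n : ℝ)| * ‖f n‖) := by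
      funext n
      rw [norm_mul, norm_mul, hn2pi, norm_ee]
      ring
    rw [this]
    exact hsum1.mul_left _
  have hsF2 : ∀ x, Summable fun n : ℤ =>
      f n * (2 * Real.pi * I * n * (2 * Real.pi * I * n * ee n x)) := by
    intro x
    refine Summable.of_norm ?_
    have : (fun n : ℤ => ‖f n * (2 * Real.pi * I * n * (2 * Real.pi * I * n * ee n x))‖) =
        fun n : ℤ => 4 * Real.pi ^ 2 * ((n : ℝ) ^ 2 * ‖f n‖) := by
      funext n
      rw [norm_mul, norm_mul (2 * Real.pi * I * n : ℂ), norm_mul (2 * Real.pi * I * n : ℂ), hn2pi,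
        norm_ee, ← sq_abs (n : ℝ)]
      ring
    rw [this]
    exact hsum2.mul_left _
  set κ : ℂ := 2 * Real.pi * I * k with hκ
  have hode : ∀ x, p2 x + 2 * κ * p1 x + κ ^ 2 * p x = (Wp v x - m₀) * p x := by
    intro x
    have h1 : p2 x + 2 * κ * p1 x + κ ^ 2 * p x =
        ∑' n : ℤ, (f n * (2 * Real.pi * I * n * (2 * Real.pi * I * n * ee n x)) +
        2 * κ * (f n * (2 * Real.pi * I * n * ee n x)) + κ ^ 2 * (f n * ee n x)) := by
      rw [((hsF2 x).add ((hsF1 x).mul_left (2 * κ))).tsum_add ((hsF x).mul_left (κ ^ 2)),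
        (hsF2 x).tsum_add ((hsF1 x).mul_left (2 * κ)), tsum_mul_left, tsum_mul_left]
    have h2 : ∀ n : ℤ, (f n * (2 * Real.pi * I * n * (2 * Real.pi * I * n * ee n x)) +
        2 * κ * (f n * (2 * Real.pi * I * n * ee n x)) + κ ^ 2 * (f n * ee n x)) =
        conv v f n * ee n x - m₀ * (f n * ee n x) := by
      intro n
      have h3 := heq n
      have h4 : (f n * (2 * Real.pi * I * n * (2 * Real.pi * I * n * ee n x)) +
        2 * κ * (f n * (2 * Real.pi * I * n * ee n x)) + κ ^ 2 * (f n * ee n x)) =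
        (I ^ 2) * (4 * (Real.pi : ℂ) ^ 2 * ((n : ℂ) + k) ^ 2 * f n) * ee n x := by
        rw [hκ]; ring
      rw [h4, I_sq]
      linear_combination (-ee n x) * h3
    have hc : Summable fun n : ℤ => conv v f n * ee n x := by
      refine Summable.of_norm ?_
      simpa [norm_mul, norm_ee] using summable_norm_conv hv hsumf
    rw [h1, tsum_congr h2, hc.tsum_sub ((hsF x).mul_left m₀), tsum_mul_left,
      tsum_conv_ee hv hsumf x]
    simp only [Wp, hp]
    ring
  -- the solution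
  have hE : ∀ x : ℝ, HasDerivAt (fun x : ℝ => Complex.exp (κ * x)) (κ * Complex.exp (κ * x)) x := by
    intro x
    have h1 : HasDerivAt (fun x : ℝ => (κ * x : ℂ)) (κ * 1) x :=
      (Complex.ofRealCLM.hasDerivAt (x := x)).const_mul _
    have h2 := h1.cexp
    convert h2 using 1
    ring
  refine ⟨fun x => Complex.exp (κ * x) * p x, fun x => Complex.exp (κ * x) * (p1 x + κ * p x),
    ?_, ?_, ?_, ?_, ?_⟩
  · intro x
    have h := (hE x).fun_mul (hd0 x)
    exact h.congr_deriv (by ring)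
  · intro x
    have h := (hE x).fun_mul ((hd1 x).fun_add ((hd0 x).const_mul κ))
    refine h.congr_deriv ?_
    have := hode x
    linear_combination (Complex.exp (κ * x)) * this
  · intro x
    have h1 : p (x + 1) = p x := by
      simp only [hp]
      exact tsum_congr (fun n => by rw [ee_add_one])
    have h2 : Complex.exp (κ * ((x + 1 : ℝ) : ℂ)) = Complex.exp κ * Complex.exp (κ * x) := by
      rw [← Complex.exp_add]
      congr 1
      push_cast
      ring
    simp only [h1, h2]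
    ring
  · intro x
    have h1 : p (x + 1) = p x := by
      simp only [hp]
      exact tsum_congr (fun n => by rw [ee_add_one])
    have h1' : p1 (x + 1) = p1 x := by
      simp only [hp1]
      exact tsum_congr (fun n => by rw [ee_add_one])
    have h2 : Complex.exp (κ * ((x + 1 : ℝ) : ℂ)) = Complex.exp κ * Complex.exp (κ * x) := by
      rw [← Complex.exp_add]
      congr 1
      push_cast
      ring
    simp only [h1, h1', h2]
    ring
  · by_contra hcon
    push Not at hcon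
    obtain ⟨n, hn⟩ := hne
    apply hn
    apply coeff_eq_zero hsumf
    intro x
    have := hcon x
    simp only [mul_eq_zero, Complex.exp_ne_zero, false_or] at this
    exact this

theorem floq_unique {v : ℤ → ℂ} (hv : Summable fun m => ‖v m‖) {m₀ : ℂ} {Y Y1 Z Z1 : ℝ → ℂ}
    (d0 : ∀ x, HasDerivAt Y (Y1 x) x) (d1 : ∀ x, HasDerivAt Y1 ((Wp v x - m₀) * Y x) x)
    (e0 : ∀ x, HasDerivAt Z (Z1 x) x) (e1 : ∀ x, HasDerivAt Z1 ((Wp v x - m₀) * Z x) x)
    {x₀ : ℝ} (h0 : Y x₀ = Z x₀) (h1 : Y1 x₀ = Z1 x₀) : Y = Z := by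
  set K : ℝ := 1 + ∑' m, ‖v m‖ + ‖m₀‖ with hK
  have hV1n : 0 ≤ ∑' m, ‖v m‖ := tsum_nonneg (fun _ => norm_nonneg _)
  have hK0 : 0 ≤ K := by positivity
  have hK1 : 1 ≤ K := by
    have := norm_nonneg m₀
    linarith
  have h := ODE_solution_unique_univ (E := ℂ × ℂ) (K := K.toNNReal) (s := fun _ => Set.univ)
    (v := fun x q => (q.2, (Wp v x - m₀) * q.1)) (f := fun x => (Y x, Y1 x))
    (g := fun x => (Z x, Z1 x)) (t₀ := x₀)
    (by
      intro x
      apply LipschitzWith.lipschitzOnWith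
      apply LipschitzWith.of_dist_le_mul
      intro a b
      have hcoe : (K.toNNReal : ℝ) = K := Real.coe_toNNReal K hK0
      rw [hcoe, Prod.dist_eq, Prod.dist_eq]
      apply max_le
      · calc dist a.2 b.2 ≤ max (dist a.1 b.1) (dist a.2 b.2) := le_max_right _ _
          _ = 1 * max (dist a.1 b.1) (dist a.2 b.2) := (one_mul _).symm
          _ ≤ K * max (dist a.1 b.1) (dist a.2 b.2) :=
            mul_le_mul_of_nonneg_right hK1 (le_max_of_le_left dist_nonneg)
      · simp only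
        rw [dist_eq_norm, ← mul_sub, norm_mul]
        have hW := norm_Wp_le hv x
        have h2 : ‖Wp v x - m₀‖ ≤ K := by
          refine (norm_sub_le _ _).trans ?_
          linarith
        rw [← dist_eq_norm a.1 b.1]
        exact mul_le_mul h2 (le_max_left _ _) dist_nonneg hK0)
    (fun x => ⟨(d0 x).prodMk (d1 x), Set.mem_univ _⟩)
    (fun x => ⟨(e0 x).prodMk (e1 x), Set.mem_univ _⟩)
    (by simp only [h0, h1])
  funext x
  have := congrFun h x
  simp only [Prod.mk.injEq] at this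
  exact this.1

/-- Two Floquet solutions at the same spectral parameter. -/
theorem floq_momenta {v : ℤ → ℂ} (hv : Summable fun m => ‖v m‖) {m₀ k k' : ℂ}
    {Y Y1 Z Z1 : ℝ → ℂ} (hY : Floq v k m₀ Y Y1) (hZ : Floq v k' m₀ Z Z1) :
    ∃ n : ℤ, k = k' + n ∨ k = -k' + n := by
  have h2pi : (2 * Real.pi * I : ℂ) ≠ 0 := Complex.two_pi_I_ne_zero
  set W : ℝ → ℂ := fun x => Y x * Z1 x - Y1 x * Z x with hW
  have hWd : ∀ x, HasDerivAt W 0 x := by
    intro x
    have h := ((hY.d0 x).fun_mul (hZ.d1 x)).fun_sub ((hY.d1 x).fun_mul (hZ.d0 x))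
    exact h.congr_deriv (by ring)
  have hWc : ∀ x y, W x = W y :=
    is_const_of_deriv_eq_zero (fun x => (hWd x).differentiableAt) (fun x => (hWd x).deriv)
  by_cases hW0 : W 0 = 0
  · obtain ⟨x₀, hx₀⟩ := hZ.ne
    have hWx : Y x₀ * Z1 x₀ - Y1 x₀ * Z x₀ = 0 := by
      have := hWc x₀ 0
      rw [hW0] at this
      exact this
    set c : ℂ := Y x₀ / Z x₀ with hc
    have huniq : Y = fun x => c * Z x := by
      refine floq_unique hv (m₀ := m₀) (Z1 := fun x => c * Z1 x) hY.d0 hY.d1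
        (fun x => (hZ.d0 x).const_mul c) (fun x => ?_) (x₀ := x₀) ?_ ?_
      · exact ((hZ.d1 x).const_mul c).congr_deriv (by ring)
      · rw [hc]; field_simp
      · rw [hc]
        field_simp
        linear_combination -hWx
    have hcne : c ≠ 0 := by
      intro h
      obtain ⟨x, hx⟩ := hY.ne
      apply hx
      rw [huniq, h]
      simp
    have h1 := hY.p0 x₀
    have h2 := hZ.p0 x₀
    have h3 : Y (x₀ + 1) = c * Z (x₀ + 1) := congrFun huniq _
    have h4 : Y x₀ = c * Z x₀ := congrFun huniq _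
    rw [h3, h4, h2] at h1
    have h5 : Complex.exp (2 * Real.pi * I * k) = Complex.exp (2 * Real.pi * I * k') := by
      have h6 : c * Z x₀ ≠ 0 := mul_ne_zero hcne hx₀
      apply mul_right_cancel₀ h6
      linear_combination -h1
    rw [Complex.exp_eq_exp_iff_exists_int] at h5
    obtain ⟨n, hn⟩ := h5
    refine ⟨n, Or.inl ?_⟩
    apply mul_left_cancel₀ h2pi
    linear_combination hn
  · have h1 : W (0 + 1) = Complex.exp (2 * Real.pi * I * k) * Complex.exp (2 * Real.pi * I * k') *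
        W 0 := by
      simp only [hW]
      rw [hY.p0, hY.p1, hZ.p0, hZ.p1]
      ring
    rw [hWc (0 + 1) 0] at h1
    have h2 : Complex.exp (2 * Real.pi * I * k + 2 * Real.pi * I * k') = 1 := by
      rw [Complex.exp_add]
      apply mul_right_cancel₀ hW0
      rw [one_mul, ← h1]
    rw [Complex.exp_eq_one_iff] at h2
    obtain ⟨n, hn⟩ := h2
    refine ⟨n, Or.inr ?_⟩
    apply mul_left_cancel₀ h2pi
    linear_combination hn

/-- Main one-dimensional statement. -/
theorem momenta {v f g : ℤ → ℂ} (hv : Summable fun m => ‖v m‖) {M M' : ℝ}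
    (hf : ∀ n, ‖f n‖ ≤ M) (hg : ∀ n, ‖g n‖ ≤ M') (hf0 : ∃ n, f n ≠ 0) (hg0 : ∃ n, g n ≠ 0)
    {k k' m₀ : ℂ}
    (hfe : ∀ n : ℤ, 4 * (Real.pi : ℂ) ^ 2 * ((n : ℂ) + k) ^ 2 * f n + conv v f n = m₀ * f n)
    (hge : ∀ n : ℤ, 4 * (Real.pi : ℂ) ^ 2 * ((n : ℂ) + k') ^ 2 * g n + conv v g n = m₀ * g n) :
    ∃ n : ℤ, k = k' + n ∨ k = -k' + n := by
  obtain ⟨Y, Y1, hY⟩ := exists_floq hv hf hf0 hfe
  obtain ⟨Z, Z1, hZ⟩ := exists_floq hv hg hg0 hge
  exact floq_momenta hv hY hZ

end Pool.Agent.Hhelper96.Fermi
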