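import Mathlib

/-!
Bounds for `sinh (π z)` near the Gaussian lattice and away from it.
-/

set_option autoImplicit false

open Complex Filter Topology

namespace Pool.Agent.Hhelper96.Fermi

/-- `sinh (π z)` -/
noncomputable def sh (z : ℂ) : ℂ := Complex.sinh (Real.pi * z)

/-- `cosh (π z)` -/
noncomputable def ch (z : ℂ) : ℂ := Complex.cosh (Real.pi * z)

/-- the Gaussian lattice -/
def Lat : Set ℂ := {z | ∃ m n : ℤ, z = (m : ℂ) + (n : ℂ) * I}

theorem sh_eq_zero {z : ℂ} : sh z = 0 ↔ ∃ n : ℤ, z = (n : ℂ) * I := by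
  unfold sh
  have hpi : (Real.pi : ℂ) ≠ 0 := by exact_mod_cast Real.pi_ne_zero
  constructor
  · intro h
    have h1 : Complex.sin ((Real.pi * z) * I) = 0 := by
      rw [Complex.sin_mul_I, h, zero_mul]
    rw [Complex.sin_eq_zero_iff] at h1
    obtain ⟨k, hk⟩ := h1
    refine ⟨-k, ?_⟩
    have h2 : z * I = k := by
      have : (Real.pi : ℂ) * (z * I) = Real.pi * k := by rw [← mul_assoc, hk]; ring
      exact mul_left_cancel₀ hpi this
    have h3 : z = -(z * I) * I := by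
      have : -(z * I) * I = -(z * (I * I)) := by ring
      rw [this, I_mul_I]; ring
    rw [h3, h2]
    push_cast
    ring
  · rintro ⟨n, rfl⟩
    have : (Real.pi : ℂ) * ((n : ℂ) * I) = ((n : ℂ) * Real.pi) * I := by ring
    rw [this, Complex.sinh_mul_I, Complex.sin_int_mul_pi, zero_mul]

theorem sh_ne_zero {z : ℂ} (hz : z ∉ Lat) (m : ℤ) : sh (z - m) ≠ 0 := by
  intro h
  rw [sh_eq_zero] at h
  obtain ⟨n, hn⟩ := h
  apply hz
  exact ⟨m, n, by rw [← hn]; ring⟩

theorem sh_ne_zero' {z : ℂ} (hz : z ∉ Lat) : sh z ≠ 0 := by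
  have := sh_ne_zero hz 0
  simpa using this

theorem sh_neg (z : ℂ) : sh (-z) = -sh z := by
  unfold sh; rw [mul_neg, Complex.sinh_neg]

theorem ch_neg (z : ℂ) : ch (-z) = ch z := by
  unfold ch; rw [mul_neg, Complex.cosh_neg]

theorem sh_add_I (z : ℂ) : sh (z + I) = -sh z := by
  unfold sh
  rw [mul_add, Complex.sinh_add, Complex.sinh_mul_I, Complex.cosh_mul_I, Complex.cos_pi,
    Complex.sin_pi]
  ring

theorem ch_add_I (z : ℂ) : ch (z + I) = -ch z := by
  unfold ch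
  rw [mul_add, Complex.cosh_add, Complex.sinh_mul_I, Complex.cosh_mul_I, Complex.cos_pi,
    Complex.sin_pi]
  ring

theorem mem_Lat_add_one {z : ℂ} : z + 1 ∈ Lat ↔ z ∈ Lat := by
  constructor
  · rintro ⟨m, n, h⟩
    exact ⟨m - 1, n, by push_cast; linear_combination h⟩
  · rintro ⟨m, n, h⟩
    exact ⟨m + 1, n, by push_cast; linear_combination h⟩

theorem mem_Lat_add_I {z : ℂ} : z + I ∈ Lat ↔ z ∈ Lat := by
  constructor
  · rintro ⟨m, n, h⟩
    exact ⟨m, n - 1, by push_cast; linear_combination h⟩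
  · rintro ⟨m, n, h⟩
    exact ⟨m, n + 1, by push_cast; linear_combination h⟩

theorem mem_Lat_neg {z : ℂ} : -z ∈ Lat ↔ z ∈ Lat := by
  constructor
  · rintro ⟨m, n, h⟩
    exact ⟨-m, -n, by push_cast; linear_combination -h⟩
  · rintro ⟨m, n, h⟩
    exact ⟨-m, -n, by push_cast; linear_combination -h⟩

theorem mem_Lat_I_mul {z : ℂ} : I * z ∈ Lat ↔ z ∈ Lat := by
  constructor
  · rintro ⟨m, n, h⟩
    refine ⟨n, -m, ?_⟩
    have h2 : z = -I * (I * z) := by
      have : -I * (I * z) = -(I * I) * z := by ring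
      rw [this, I_mul_I]; ring
    rw [h2, h]
    push_cast
    linear_combination -(n : ℂ) * I_mul_I
  · rintro ⟨m, n, h⟩
    refine ⟨-n, m, ?_⟩
    rw [h]
    push_cast
    linear_combination (n : ℂ) * I_mul_I

theorem norm_sinh_ge (z : ℂ) : |Real.sinh z.re| ≤ ‖Complex.sinh z‖ := by
  have h1 : ‖Complex.exp z‖ = Real.exp z.re := Complex.norm_exp z
  have h2 : ‖Complex.exp (-z)‖ = Real.exp (-z.re) := by rw [Complex.norm_exp]; simp
  have h3 : Complex.sinh z = (Complex.exp z - Complex.exp (-z)) / 2 := by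
    rw [Complex.sinh]
  rw [h3, Real.sinh_eq, abs_div, norm_div]
  have h4 : |Real.exp z.re - Real.exp (-z.re)| ≤ ‖Complex.exp z - Complex.exp (-z)‖ := by
    rw [← h1, ← h2]
    exact abs_norm_sub_norm_le _ _
  have h5 : |(2 : ℝ)| = 2 := by norm_num
  have h6 : ‖(2 : ℂ)‖ = 2 := by norm_num
  rw [h5, h6]
  exact div_le_div_of_nonneg_right h4 (by norm_num)

theorem real_sinh_ge {x : ℝ} (hx : 1 ≤ x) : Real.exp x / 4 ≤ Real.sinh x := by
  rw [Real.sinh_eq]
  have h1 : Real.exp (-x) ≤ Real.exp x / 2 := by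
    have h2 : Real.exp (-x) ≤ 1 := Real.exp_le_one_iff.2 (by linarith)
    have h3 : x + 1 ≤ Real.exp x := Real.add_one_le_exp x
    linarith
  linarith

/-- lower bound far from the real part -/
theorem norm_sh_ge {z : ℂ} {R : ℝ} (hz : |z.re| ≤ R) {m : ℤ} (hm : R + 1 ≤ |(m : ℝ)|) :
    Real.exp (Real.pi * (|(m : ℝ)| - R)) / 4 ≤ ‖sh (z - m)‖ := by
  unfold sh
  refine le_trans ?_ (norm_sinh_ge _)
  have h1 : ((Real.pi : ℂ) * (z - m)).re = Real.pi * (z.re - m) := by
    simp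
  rw [h1, Real.abs_sinh]
  have h2 : Real.pi * (|(m : ℝ)| - R) ≤ |Real.pi * (z.re - m)| := by
    rw [abs_mul, abs_of_pos Real.pi_pos]
    apply mul_le_mul_of_nonneg_left _ Real.pi_pos.le
    have h3 : |(m : ℝ)| ≤ |z.re - m| + |z.re| := by
      have h4 : (m : ℝ) = -(z.re - m) + z.re := by ring
      calc |(m : ℝ)| = |-(z.re - m) + z.re| := by rw [← h4]
        _ ≤ |-(z.re - m)| + |z.re| := abs_add_le _ _
        _ = _ := by rw [abs_neg]
    linarith
  have h3 : 1 ≤ Real.pi * (|(m : ℝ)| - R) := by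
    have := Real.pi_gt_three
    nlinarith
  calc Real.exp (Real.pi * (|(m : ℝ)| - R)) / 4 ≤ Real.sinh (Real.pi * (|(m : ℝ)| - R)) :=
        real_sinh_ge h3
    _ ≤ Real.sinh |Real.pi * (z.re - m)| := Real.sinh_le_sinh.2 h2

theorem continuous_sh : Continuous sh := by
  unfold sh; fun_prop

theorem differentiable_sh : Differentiable ℂ sh := by
  unfold sh; fun_prop

theorem continuous_ch : Continuous ch := by
  unfold ch; fun_prop

theorem differentiable_ch : Differentiable ℂ ch := by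
  unfold ch; fun_prop

/-- Uniform exponential lower bound near a point off the lattice. -/
theorem exists_lower {z₀ : ℂ} (hz : z₀ ∉ Lat) : ∃ δ > 0, ∀ᶠ w in 𝓝 z₀, ∀ m : ℤ,
    δ * Real.exp (Real.pi * |(m : ℝ)|) ≤ ‖sh (w - m)‖ := by
  set R : ℝ := |z₀.re| + 1 with hR
  -- near z₀ the real part is bounded by R
  have hev1 : ∀ᶠ w in 𝓝 z₀, |w.re| ≤ R := by
    have : ∀ᶠ w in 𝓝 z₀, |w.re| < |z₀.re| + 1 := by
      have hc : Continuous (fun w : ℂ => |w.re|) := by fun_prop
      exact (hc.tendsto z₀).eventually_lt_const (by linarith)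
    filter_upwards [this] with w hw
    exact hw.le
  set N : ℕ := ⌈R + 1⌉₊ with hN
  -- finitely many small integers
  have hfin : ∀ M : Finset ℤ, ∃ δ > 0, ∀ᶠ w in 𝓝 z₀, ∀ m ∈ M,
      δ * Real.exp (Real.pi * |(m : ℝ)|) ≤ ‖sh (w - m)‖ := by
    intro M
    induction M using Finset.induction_on with
    | empty => exact ⟨1, one_pos, by simp⟩
    | insert a M _ ih =>
      obtain ⟨δ, hδ, hev⟩ := ih
      have hpos : 0 < ‖sh (z₀ - a)‖ := norm_pos_iff.2 (sh_ne_zero hz a)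
      set δ' : ℝ := ‖sh (z₀ - a)‖ / 2 / Real.exp (Real.pi * |(a : ℝ)|) with hδ'
      have hδ'pos : 0 < δ' := by positivity
      have hev2 : ∀ᶠ w in 𝓝 z₀, ‖sh (z₀ - a)‖ / 2 < ‖sh (w - a)‖ := by
        have hc : Continuous (fun w : ℂ => ‖sh (w - a)‖) :=
          (continuous_sh.comp (continuous_id.sub continuous_const)).norm
        exact (hc.tendsto z₀).eventually_const_lt (by linarith)
      refine ⟨min δ δ', lt_min hδ hδ'pos, ?_⟩
      filter_upwards [hev, hev2] with w h1 h2 m hm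
      have hexp : 0 < Real.exp (Real.pi * |(m : ℝ)|) := Real.exp_pos _
      rcases Finset.mem_insert.1 hm with h | h
      · subst h
        calc min δ δ' * Real.exp (Real.pi * |(m : ℝ)|) ≤ δ' * Real.exp (Real.pi * |(m : ℝ)|) :=
              mul_le_mul_of_nonneg_right (min_le_right _ _) hexp.le
          _ = ‖sh (z₀ - m)‖ / 2 := by rw [hδ']; field_simp
          _ ≤ _ := h2.le
      · calc min δ δ' * Real.exp (Real.pi * |(m : ℝ)|) ≤ δ * Real.exp (Real.pi * |(m : ℝ)|) :=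
              mul_le_mul_of_nonneg_right (min_le_left _ _) hexp.le
          _ ≤ _ := h1 m h
  obtain ⟨δ, hδ, hev⟩ := hfin (Finset.Icc (-(N : ℤ)) N)
  refine ⟨min δ (Real.exp (-(Real.pi * R)) / 4), lt_min hδ (by positivity), ?_⟩
  filter_upwards [hev, hev1] with w h1 h2 m
  have hexp : 0 < Real.exp (Real.pi * |(m : ℝ)|) := Real.exp_pos _
  by_cases hm : m ∈ Finset.Icc (-(N : ℤ)) N
  · exact (mul_le_mul_of_nonneg_right (min_le_left _ _) hexp.le).trans (h1 m hm)
  · have h3 : R + 1 ≤ |(m : ℝ)| := by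
      rw [Finset.mem_Icc, ← abs_le, not_le] at hm
      have h4 : ((N : ℤ) : ℝ) < ((|m| : ℤ) : ℝ) := by exact_mod_cast hm
      rw [Int.cast_abs] at h4
      have h5 : R + 1 ≤ (N : ℝ) := Nat.le_ceil _
      have h6 : ((N : ℤ) : ℝ) = (N : ℝ) := by norm_cast
      linarith
    refine le_trans ?_ (norm_sh_ge h2 h3)
    calc min δ (Real.exp (-(Real.pi * R)) / 4) * Real.exp (Real.pi * |(m : ℝ)|)
        ≤ (Real.exp (-(Real.pi * R)) / 4) * Real.exp (Real.pi * |(m : ℝ)|) :=
          mul_le_mul_of_nonneg_right (min_le_right _ _) hexp.le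
      _ = (Real.exp (-(Real.pi * R)) * Real.exp (Real.pi * |(m : ℝ)|)) / 4 := by ring
      _ = Real.exp (Real.pi * (|(m : ℝ)| - R)) / 4 := by
          rw [← Real.exp_add]
          congr 2
          ring

/-- Uniform exponential lower bound near the origin, for nonzero integers. -/
theorem lower_zero {w : ℂ} (hw : ‖w‖ ≤ 1 / 2) {m : ℤ} (hm : m ≠ 0) :
    Real.exp (Real.pi * (|(m : ℝ)| - 1 / 2)) / 4 ≤ ‖sh (w - m)‖ := by
  have h0 : |w.re| ≤ 1 / 2 := (Complex.abs_re_le_norm w).trans hw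
  unfold sh
  refine le_trans ?_ (norm_sinh_ge _)
  have h1 : ((Real.pi : ℂ) * (w - m)).re = Real.pi * (w.re - m) := by
    simp
  rw [h1, Real.abs_sinh]
  have hm1 : (1 : ℝ) ≤ |(m : ℝ)| := by
    have : 1 ≤ |m| := Int.one_le_abs hm
    have h2 : ((1 : ℤ) : ℝ) ≤ ((|m| : ℤ) : ℝ) := by exact_mod_cast this
    rwa [Int.cast_abs, Int.cast_one] at h2
  have h2 : Real.pi * (|(m : ℝ)| - 1 / 2) ≤ |Real.pi * (w.re - m)| := by
    rw [abs_mul, abs_of_pos Real.pi_pos]
    apply mul_le_mul_of_nonneg_left _ Real.pi_pos.le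
    have h3 : |(m : ℝ)| ≤ |w.re - m| + |w.re| := by
      have h4 : (m : ℝ) = -(w.re - m) + w.re := by ring
      calc |(m : ℝ)| = |-(w.re - m) + w.re| := by rw [← h4]
        _ ≤ |-(w.re - m)| + |w.re| := abs_add_le _ _
        _ = _ := by rw [abs_neg]
    linarith
  have h3 : 1 ≤ Real.pi * (|(m : ℝ)| - 1 / 2) := by
    have := Real.pi_gt_three
    nlinarith
  calc Real.exp (Real.pi * (|(m : ℝ)| - 1 / 2)) / 4 ≤ Real.sinh (Real.pi * (|(m : ℝ)| - 1 / 2)) :=
        real_sinh_ge h3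
    _ ≤ Real.sinh |Real.pi * (w.re - m)| := Real.sinh_le_sinh.2 h2

/-- the lattice is closed -/
theorem isClosed_Lat : IsClosed Lat := by
  rw [← isOpen_compl_iff, isOpen_iff_mem_nhds]
  intro z hz
  obtain ⟨δ, hδ, hev⟩ := exists_lower hz
  filter_upwards [hev] with w hw hwl
  obtain ⟨m, n, h⟩ := hwl
  have h1 := hw m
  have h2 : sh (w - m) = 0 := by
    rw [sh_eq_zero]
    exact ⟨n, by rw [h]; ring⟩
  rw [h2, norm_zero] at h1
  have : 0 < δ * Real.exp (Real.pi * |(m : ℝ)|) := by positivity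
  linarith

theorem isOpen_compl_Lat : IsOpen Latᶜ := isClosed_Lat.isOpen_compl

theorem not_mem_Lat_of_small {z : ℂ} (h0 : z ≠ 0) (h1 : ‖z‖ < 1) : z ∉ Lat := by
  rintro ⟨m, n, h⟩
  have hre : z.re = m := by rw [h]; simp
  have him : z.im = n := by rw [h]; simp
  have h2 : |z.re| < 1 := (Complex.abs_re_le_norm z).trans_lt h1
  have h3 : |z.im| < 1 := (Complex.abs_im_le_norm z).trans_lt h1
  rw [hre] at h2
  rw [him] at h3
  have hm : m = 0 := by
    have : |m| < 1 := by exact_mod_cast h2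
    exact Int.abs_lt_one_iff.1 this
  have hn : n = 0 := by
    have : |n| < 1 := by exact_mod_cast h3
    exact Int.abs_lt_one_iff.1 this
  apply h0
  rw [h, hm, hn]
  simp

end Pool.Agent.Hhelper96.Fermi
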