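import Pool.Agent.Hhelper96.Fermi.Sinh

/-!
The functions `κ` (quasi-momentum) and `S` attached to the Lamé potential of the square lattice,
as absolutely convergent series of hyperbolic functions.
-/

set_option autoImplicit false

open Complex Filter Topology

namespace Pool.Agent.Hhelper96.Fermi

/-- `coth (π z)` -/
noncomputable def C (z : ℂ) : ℂ := ch z / sh z

theorem ch_sub_sh (z : ℂ) : ch z - sh z = Complex.exp (-(Real.pi * z)) := by
  unfold ch sh; exact Complex.cosh_sub_sinh _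

theorem ch_add_sh (z : ℂ) : ch z + sh z = Complex.exp (Real.pi * z) := by
  unfold ch sh; exact Complex.cosh_add_sinh _

theorem C_neg (z : ℂ) : C (-z) = -C z := by
  unfold C; rw [sh_neg, ch_neg, div_neg]

theorem C_add_I (z : ℂ) : C (z + I) = C z := by
  unfold C; rw [sh_add_I, ch_add_I, neg_div_neg_eq]

theorem sh_add (a b : ℂ) : sh (a + b) = sh a * ch b + ch a * sh b := by
  unfold sh ch; rw [mul_add, Complex.sinh_add]

theorem C_add_C {a b : ℂ} (ha : sh a ≠ 0) (hb : sh b ≠ 0) : C a + C b = sh (a + b) / (sh a * sh b) := by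
  unfold C
  rw [sh_add]
  field_simp
  ring

theorem C_sub_one {z : ℂ} (hz : sh z ≠ 0) : C z - 1 = Complex.exp (-(Real.pi * z)) / sh z := by
  unfold C
  rw [← ch_sub_sh]
  field_simp

theorem C_add_one {z : ℂ} (hz : sh z ≠ 0) : C z + 1 = Complex.exp (Real.pi * z) / sh z := by
  unfold C
  rw [← ch_add_sh]
  field_simp

/-- the paired terms -/
noncomputable def P (j : ℕ) (z : ℂ) : ℂ := C (z - ((j : ℂ) + 1)) + C (z + ((j : ℂ) + 1))

/-- the quasi-momentum -/
noncomputable def kap (z : ℂ) : ℂ := (C z + ∑' j : ℕ, P j z) / 2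

/-- coefficients of the potential, up to a factor -/
noncomputable def w (m : ℤ) : ℂ := (m : ℂ) / sh m

/-- terms of `S` -/
noncomputable def t (m : ℤ) (z : ℂ) : ℂ := w m * (sh z / sh (z - m))

/-- the series `S` -/
noncomputable def S (z : ℂ) : ℂ := ∑' m : ℤ, t m z

theorem w_zero : w 0 = 0 := by simp [w]

theorem w_neg (m : ℤ) : w (-m) = w m := by
  unfold w
  push_cast
  rw [sh_neg, neg_div_neg_eq]

theorem sh_int_ne_zero {m : ℤ} (hm : m ≠ 0) : sh (m : ℂ) ≠ 0 := by
  intro h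
  rw [sh_eq_zero] at h
  obtain ⟨n, hn⟩ := h
  have h1 := congrArg Complex.re hn
  simp at h1
  exact hm h1

theorem norm_w_le (m : ℤ) : ‖w m‖ ≤ 4 * Real.exp (-(2 * |(m : ℝ)|)) := by
  by_cases hm : m = 0
  · rw [hm, w_zero, norm_zero]; positivity
  · have hm1 : (1 : ℝ) ≤ |(m : ℝ)| := by
      have : 1 ≤ |m| := Int.one_le_abs hm
      have h2 : ((1 : ℤ) : ℝ) ≤ ((|m| : ℤ) : ℝ) := by exact_mod_cast this
      rwa [Int.cast_abs, Int.cast_one] at h2
    have h1 : Real.exp (Real.pi * |(m : ℝ)|) / 4 ≤ ‖sh (m : ℂ)‖ := by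
      unfold sh
      refine le_trans ?_ (norm_sinh_ge _)
      have h2 : ((Real.pi : ℂ) * (m : ℂ)).re = Real.pi * m := by simp
      rw [h2, Real.abs_sinh, abs_mul, abs_of_pos Real.pi_pos]
      apply real_sinh_ge
      have := Real.pi_gt_three
      nlinarith
    unfold w
    rw [norm_div, Complex.norm_intCast]
    have h3 : |(m : ℝ)| ≤ Real.exp |(m : ℝ)| := by
      have := Real.add_one_le_exp |(m : ℝ)|
      linarith
    have hpos : 0 < Real.exp (Real.pi * |(m : ℝ)|) / 4 := by positivity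
    calc |(m : ℝ)| / ‖sh (m : ℂ)‖ ≤ Real.exp |(m : ℝ)| / (Real.exp (Real.pi * |(m : ℝ)|) / 4) := by
          apply div_le_div₀ (Real.exp_pos _).le h3 hpos h1
      _ = 4 * (Real.exp |(m : ℝ)| / Real.exp (Real.pi * |(m : ℝ)|)) := by
          field_simp
      _ = 4 * Real.exp (|(m : ℝ)| - Real.pi * |(m : ℝ)|) := by rw [Real.exp_sub]
      _ ≤ 4 * Real.exp (-(2 * |(m : ℝ)|)) := by
          apply mul_le_mul_of_nonneg_left _ (by norm_num)
          apply Real.exp_le_exp.2
          have := Real.pi_gt_three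
          nlinarith

theorem summable_exp_abs {c : ℝ} (hc : 0 < c) : Summable (fun m : ℤ => Real.exp (-(c * |(m : ℝ)|))) := by
  have h1 : Summable (fun n : ℕ => Real.exp (-(c * (n : ℝ)))) := by
    have h2 : (fun n : ℕ => Real.exp (-(c * (n : ℝ)))) = fun n : ℕ => (Real.exp (-c)) ^ n := by
      funext n
      rw [← Real.exp_nat_mul]
      congr 1
      ring
    rw [h2]
    apply summable_geometric_of_lt_one (Real.exp_pos _).le
    rw [Real.exp_lt_one_iff]
    linarith
  apply Summable.of_nat_of_neg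
  · simpa using h1
  · simpa using h1

theorem summable_norm_w : Summable (fun m : ℤ => ‖w m‖) := by
  refine Summable.of_nonneg_of_le (fun _ => norm_nonneg _) norm_w_le ?_
  exact (summable_exp_abs (c := 2) (by norm_num)).mul_left 4

theorem P_eq {z : ℂ} (hz : z ∉ Lat) (j : ℕ) :
    P j z = sh (2 * z) / (sh (z - ((j : ℂ) + 1)) * sh (z + ((j : ℂ) + 1))) := by
  have h1 : sh (z - ((j : ℂ) + 1)) ≠ 0 := by
    have := sh_ne_zero hz ((j : ℤ) + 1)
    push_cast at this
    exact this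
  have h2 : sh (z + ((j : ℂ) + 1)) ≠ 0 := by
    have := sh_ne_zero hz (-((j : ℤ) + 1))
    push_cast at this
    have h3 : z - (-1 + -(j : ℂ)) = z + ((j : ℂ) + 1) := by ring
    have h4 : z - -((j : ℂ) + 1) = z + ((j : ℂ) + 1) := by ring
    first
      | rwa [h3] at this
      | rwa [h4] at this
  unfold P
  rw [C_add_C h1 h2]
  congr 2
  ring

/-- locally uniform bound for the terms of `kap` and `S` -/
theorem local_bounds {z₀ : ℂ} (hz : z₀ ∉ Lat) : ∃ B : ℝ, 0 ≤ B ∧ ∀ᶠ z in 𝓝 z₀, z ∉ Lat ∧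
    (∀ j : ℕ, ‖P j z‖ ≤ B * Real.exp (-(2 * |((j : ℤ) : ℝ)|))) ∧ (∀ m : ℤ, ‖t m z‖ ≤ B * ‖w m‖) ∧
    (∀ m : ℤ, ‖1 / sh (z - m)‖ ≤ B * Real.exp (-(2 * |(m : ℝ)|))) := by
  obtain ⟨δ, hδ, hev⟩ := exists_lower hz
  have hopen : ∀ᶠ z in 𝓝 z₀, z ∈ Latᶜ := isOpen_compl_Lat.mem_nhds hz
  have hb1 : ∀ᶠ z in 𝓝 z₀, ‖sh (2 * z)‖ < ‖sh (2 * z₀)‖ + 1 := by
    have hc : Continuous (fun z : ℂ => ‖sh (2 * z)‖) :=
      (continuous_sh.comp (continuous_const.mul continuous_id)).norm
    exact (hc.tendsto z₀).eventually_lt_const (by linarith)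
  have hb2 : ∀ᶠ z in 𝓝 z₀, ‖sh z‖ < ‖sh z₀‖ + 1 := by
    have hc : Continuous (fun z : ℂ => ‖sh z‖) := continuous_sh.norm
    exact (hc.tendsto z₀).eventually_lt_const (by linarith)
  refine ⟨(‖sh (2 * z₀)‖ + 1) / δ ^ 2 + (‖sh z₀‖ + 1) / δ + 1 / δ, by positivity, ?_⟩
  filter_upwards [hev, hopen, hb1, hb2] with z h1 h2 h3 h4
  have hexpm : ∀ m : ℤ, 1 ≤ Real.exp (Real.pi * |(m : ℝ)|) := by
    intro m
    apply Real.one_le_exp
    have := Real.pi_pos
    positivity
  refine ⟨h2, ?_, ?_, ?_⟩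
  · intro j
    rw [P_eq h2 j, norm_div, norm_mul]
    have e1 : δ * Real.exp (Real.pi * ((j : ℝ) + 1)) ≤ ‖sh (z - ((j : ℂ) + 1))‖ := by
      have := h1 ((j : ℤ) + 1)
      push_cast at this
      rwa [abs_of_nonneg (by positivity)] at this
    have e2 : δ * Real.exp (Real.pi * ((j : ℝ) + 1)) ≤ ‖sh (z + ((j : ℂ) + 1))‖ := by
      have := h1 (-((j : ℤ) + 1))
      have e3 : z - ((-((j : ℤ) + 1) : ℤ) : ℂ) = z + ((j : ℂ) + 1) := by push_cast; ring
      have e4 : |((-((j : ℤ) + 1) : ℤ) : ℝ)| = (j : ℝ) + 1 := by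
        push_cast
        rw [abs_of_nonpos (by linarith [Nat.cast_nonneg (α := ℝ) j])]
        ring
      rwa [e3, e4] at this
    have hE : 0 < δ * Real.exp (Real.pi * ((j : ℝ) + 1)) := by positivity
    have hden : (δ * Real.exp (Real.pi * ((j : ℝ) + 1))) ^ 2 ≤
        ‖sh (z - ((j : ℂ) + 1))‖ * ‖sh (z + ((j : ℂ) + 1))‖ := by
      rw [sq]
      exact mul_le_mul e1 e2 hE.le (hE.le.trans e1)
    calc ‖sh (2 * z)‖ / (‖sh (z - ((j : ℂ) + 1))‖ * ‖sh (z + ((j : ℂ) + 1))‖)
        ≤ (‖sh (2 * z₀)‖ + 1) / (δ * Real.exp (Real.pi * ((j : ℝ) + 1))) ^ 2 := by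
          apply div_le_div₀ (by positivity) h3.le (by positivity) hden
      _ = (‖sh (2 * z₀)‖ + 1) / δ ^ 2 * (1 / (Real.exp (Real.pi * ((j : ℝ) + 1))) ^ 2) := by
          field_simp
      _ ≤ (‖sh (2 * z₀)‖ + 1) / δ ^ 2 * Real.exp (-(2 * |((j : ℤ) : ℝ)|)) := by
          apply mul_le_mul_of_nonneg_left _ (by positivity)
          rw [← Real.exp_nat_mul, one_div, ← Real.exp_neg]
          apply Real.exp_le_exp.2
          have := Real.pi_gt_three
          have hj : (0 : ℝ) ≤ j := Nat.cast_nonneg j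
          rw [abs_of_nonneg (by positivity)]
          push_cast
          nlinarith
      _ ≤ _ := by
          apply mul_le_mul_of_nonneg_right _ (Real.exp_pos _).le
          have : 0 ≤ (‖sh z₀‖ + 1) / δ + 1 / δ := by positivity
          linarith
  · intro m
    unfold t
    rw [norm_mul, norm_div, mul_comm]
    apply mul_le_mul_of_nonneg_right _ (norm_nonneg _)
    have e1 : δ ≤ ‖sh (z - m)‖ := by
      refine le_trans ?_ (h1 m)
      have := hexpm m
      nlinarith
    calc ‖sh z‖ / ‖sh (z - m)‖ ≤ (‖sh z₀‖ + 1) / δ := by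
          apply div_le_div₀ (by positivity) h4.le hδ e1
      _ ≤ _ := by
          have h5 : 0 ≤ (‖sh (2 * z₀)‖ + 1) / δ ^ 2 := by positivity
          have h6 : 0 ≤ 1 / δ := by positivity
          linarith
  · intro m
    rw [norm_div, norm_one]
    have hE : 0 < δ * Real.exp (Real.pi * |(m : ℝ)|) := by positivity
    calc 1 / ‖sh (z - m)‖ ≤ 1 / (δ * Real.exp (Real.pi * |(m : ℝ)|)) :=
          one_div_le_one_div_of_le hE (h1 m)
      _ = 1 / δ * Real.exp (-(Real.pi * |(m : ℝ)|)) := by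
          rw [Real.exp_neg]; field_simp
      _ ≤ 1 / δ * Real.exp (-(2 * |(m : ℝ)|)) := by
          apply mul_le_mul_of_nonneg_left _ (by positivity)
          apply Real.exp_le_exp.2
          have := Real.pi_gt_three
          have hj : (0 : ℝ) ≤ |(m : ℝ)| := abs_nonneg _
          nlinarith
      _ ≤ _ := by
          apply mul_le_mul_of_nonneg_right _ (Real.exp_pos _).le
          have h5 : 0 ≤ (‖sh (2 * z₀)‖ + 1) / δ ^ 2 := by positivity
          have h6 : 0 ≤ (‖sh z₀‖ + 1) / δ := by positivity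
          linarith

theorem summable_P_bound (B : ℝ) : Summable (fun j : ℕ => B * Real.exp (-(2 * |((j : ℤ) : ℝ)|))) := by
  have h := (summable_exp_abs (c := 2) (by norm_num)).mul_left B
  exact h.comp_injective (i := fun j : ℕ => (j : ℤ)) Nat.cast_injective

theorem summable_P {z : ℂ} (hz : z ∉ Lat) : Summable (fun j : ℕ => P j z) := by
  obtain ⟨B, _, hev⟩ := local_bounds hz
  exact Summable.of_norm_bounded (summable_P_bound B) hev.self_of_nhds.2.1

theorem summable_t {z : ℂ} (hz : z ∉ Lat) : Summable (fun m : ℤ => t m z) := by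
  obtain ⟨B, _, hev⟩ := local_bounds hz
  exact Summable.of_norm_bounded (summable_norm_w.mul_left B) hev.self_of_nhds.2.2.1

theorem differentiableAt_C {z : ℂ} (hz : sh z ≠ 0) : DifferentiableAt ℂ C z :=
  (differentiable_ch z).div (differentiable_sh z) hz

theorem differentiableAt_P {z : ℂ} (hz : z ∉ Lat) (j : ℕ) : DifferentiableAt ℂ (P j) z := by
  have h1 : sh (z - ((j : ℂ) + 1)) ≠ 0 := by
    have := sh_ne_zero hz ((j : ℤ) + 1)
    push_cast at this
    exact this
  have h2 : sh (z + ((j : ℂ) + 1)) ≠ 0 := by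
    have := sh_ne_zero hz (-((j : ℤ) + 1))
    have e3 : z - ((-((j : ℤ) + 1) : ℤ) : ℂ) = z + ((j : ℂ) + 1) := by push_cast; ring
    rwa [e3] at this
  unfold P
  apply DifferentiableAt.add
  · exact DifferentiableAt.comp z (f := fun z : ℂ => z - ((j : ℂ) + 1)) (differentiableAt_C h1)
      (by fun_prop)
  · exact DifferentiableAt.comp z (f := fun z : ℂ => z + ((j : ℂ) + 1)) (differentiableAt_C h2)
      (by fun_prop)

theorem differentiableAt_t {z : ℂ} (hz : z ∉ Lat) (m : ℤ) : DifferentiableAt ℂ (t m) z := by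
  unfold t
  apply DifferentiableAt.const_mul
  apply (differentiable_sh z).div
  · exact (differentiable_sh _).comp z (by fun_prop)
  · exact sh_ne_zero hz m

theorem differentiableAt_kap {z₀ : ℂ} (hz : z₀ ∉ Lat) : DifferentiableAt ℂ kap z₀ := by
  obtain ⟨B, _, hev⟩ := local_bounds hz
  obtain ⟨s, hs1, hs2, hs3⟩ := eventually_nhds_iff.1 hev
  unfold kap
  apply DifferentiableAt.div_const
  apply DifferentiableAt.add (differentiableAt_C (sh_ne_zero' hz))
  have h := differentiableOn_tsum_of_summable_norm (F := P) (U := s) (summable_P_bound B)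
    (fun j => fun z hz => (differentiableAt_P (hs1 z hz).1 j).differentiableWithinAt) hs2
    (fun j z hz => (hs1 z hz).2.1 j)
  exact h.differentiableAt (hs2.mem_nhds hs3)

theorem differentiableAt_S {z₀ : ℂ} (hz : z₀ ∉ Lat) : DifferentiableAt ℂ S z₀ := by
  obtain ⟨B, _, hev⟩ := local_bounds hz
  obtain ⟨s, hs1, hs2, hs3⟩ := eventually_nhds_iff.1 hev
  unfold S
  have h := differentiableOn_tsum_of_summable_norm (F := t) (U := s) (summable_norm_w.mul_left B)
    (fun j => fun z hz => (differentiableAt_t (hs1 z hz).1 j).differentiableWithinAt) hs2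
    (fun j z hz => (hs1 z hz).2.2.1 j)
  exact h.differentiableAt (hs2.mem_nhds hs3)

/-- asymptotics of `coth` to the right -/
theorem tendsto_C_right {z : ℂ} (hz : z ∉ Lat) :
    ∃ B : ℝ, ∀ N : ℕ, ‖C (z + N) - 1‖ ≤ B * Real.exp (-(2 * (N : ℝ))) ∧
      ‖C (z - N) + 1‖ ≤ B * Real.exp (-(2 * (N : ℝ))) := by
  obtain ⟨δ, hδ, hev⟩ := exists_lower hz
  have h1 := hev.self_of_nhds
  refine ⟨Real.exp (Real.pi * |z.re|) / δ, fun N => ⟨?_, ?_⟩⟩
  · have e0 : sh (z + N) ≠ 0 := by
      have := sh_ne_zero hz (-(N : ℤ))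
      push_cast at this
      rwa [sub_neg_eq_add] at this
    have e1 : δ * Real.exp (Real.pi * (N : ℝ)) ≤ ‖sh (z + N)‖ := by
      have := h1 (-(N : ℤ))
      push_cast at this
      rwa [sub_neg_eq_add, abs_neg, abs_of_nonneg (Nat.cast_nonneg N)] at this
    rw [C_sub_one e0, norm_div, Complex.norm_exp]
    have e2 : (-((Real.pi : ℂ) * (z + N))).re = -(Real.pi * (z.re + N)) := by simp
    rw [e2]
    calc Real.exp (-(Real.pi * (z.re + N))) / ‖sh (z + N)‖
        ≤ Real.exp (Real.pi * |z.re|) / (δ * Real.exp (Real.pi * (N : ℝ))) := by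
          apply div_le_div₀ (Real.exp_pos _).le _ (by positivity) e1
          apply Real.exp_le_exp.2
          have h2 := neg_abs_le z.re
          have h3 := Real.pi_pos
          have h4 : (0 : ℝ) ≤ N := Nat.cast_nonneg N
          nlinarith
      _ = Real.exp (Real.pi * |z.re|) / δ * Real.exp (-(Real.pi * (N : ℝ))) := by
          rw [Real.exp_neg]; field_simp
      _ ≤ _ := by
          apply mul_le_mul_of_nonneg_left _ (by positivity)
          apply Real.exp_le_exp.2
          have := Real.pi_gt_three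
          have h4 : (0 : ℝ) ≤ N := Nat.cast_nonneg N
          nlinarith
  · have e0 : sh (z - N) ≠ 0 := by
      have := sh_ne_zero hz (N : ℤ)
      push_cast at this
      exact this
    have e1 : δ * Real.exp (Real.pi * (N : ℝ)) ≤ ‖sh (z - N)‖ := by
      have := h1 (N : ℤ)
      push_cast at this
      rwa [abs_of_nonneg (Nat.cast_nonneg N)] at this
    rw [C_add_one e0, norm_div, Complex.norm_exp]
    have e2 : ((Real.pi : ℂ) * (z - N)).re = Real.pi * (z.re - N) := by simp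
    rw [e2]
    calc Real.exp (Real.pi * (z.re - N)) / ‖sh (z - N)‖
        ≤ Real.exp (Real.pi * |z.re|) / (δ * Real.exp (Real.pi * (N : ℝ))) := by
          apply div_le_div₀ (Real.exp_pos _).le _ (by positivity) e1
          apply Real.exp_le_exp.2
          have h2 := le_abs_self z.re
          have h3 := Real.pi_pos
          have h4 : (0 : ℝ) ≤ N := Nat.cast_nonneg N
          nlinarith
      _ = Real.exp (Real.pi * |z.re|) / δ * Real.exp (-(Real.pi * (N : ℝ))) := by
          rw [Real.exp_neg]; field_simp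
      _ ≤ _ := by
          apply mul_le_mul_of_nonneg_left _ (by positivity)
          apply Real.exp_le_exp.2
          have := Real.pi_gt_three
          have h4 : (0 : ℝ) ≤ N := Nat.cast_nonneg N
          nlinarith

theorem tendsto_exp_neg_nat : Tendsto (fun N : ℕ => Real.exp (-(2 * (N : ℝ)))) atTop (𝓝 0) := by
  have h : (fun n : ℕ => Real.exp (-(2 * (n : ℝ)))) = fun n : ℕ => (Real.exp (-2)) ^ n := by
    funext n
    rw [← Real.exp_nat_mul]
    congr 1
    ring
  rw [h]
  apply tendsto_pow_atTop_nhds_zero_of_lt_one (Real.exp_pos _).le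
  rw [Real.exp_lt_one_iff]
  norm_num

theorem tendsto_nat_mul_exp_neg : Tendsto (fun N : ℕ => (N : ℝ) * Real.exp (-(2 * (N : ℝ)))) atTop (𝓝 0) := by
  have h : (fun n : ℕ => (n : ℝ) * Real.exp (-(2 * (n : ℝ)))) = fun n : ℕ => (n : ℝ) * (Real.exp (-2)) ^ n := by
    funext n
    rw [← Real.exp_nat_mul]
    congr 2
    ring
  rw [h]
  apply tendsto_self_mul_const_pow_of_lt_one (Real.exp_pos _).le
  rw [Real.exp_lt_one_iff]
  norm_num

theorem lim_C_right {z : ℂ} (hz : z ∉ Lat) : Tendsto (fun N : ℕ => C (z + N)) atTop (𝓝 1) := by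
  obtain ⟨B, hB⟩ := tendsto_C_right hz
  rw [tendsto_iff_norm_sub_tendsto_zero]
  have h1 := tendsto_exp_neg_nat.const_mul B
  rw [mul_zero] at h1
  exact squeeze_zero (fun _ => norm_nonneg _) (fun N => (hB N).1) h1

theorem lim_C_left {z : ℂ} (hz : z ∉ Lat) : Tendsto (fun N : ℕ => C (z - N)) atTop (𝓝 (-1)) := by
  obtain ⟨B, hB⟩ := tendsto_C_right hz
  rw [tendsto_iff_norm_sub_tendsto_zero]
  have h1 := tendsto_exp_neg_nat.const_mul B
  rw [mul_zero] at h1
  refine squeeze_zero (fun _ => norm_nonneg _) (fun N => ?_) h1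
  rw [sub_neg_eq_add]
  exact (hB N).2

/-- partial sums of `2 κ` -/
noncomputable def K (N : ℕ) (z : ℂ) : ℂ := C z + ∑ j ∈ Finset.range N, P j z

theorem tendsto_K {z : ℂ} (hz : z ∉ Lat) : Tendsto (fun N : ℕ => K N z) atTop (𝓝 (2 * kap z)) := by
  have h1 := (summable_P hz).hasSum.tendsto_sum_nat
  have h2 : 2 * kap z = C z + ∑' j : ℕ, P j z := by unfold kap; ring
  rw [h2]
  exact h1.const_add (C z)

theorem K_shift (z : ℂ) (N : ℕ) : K N (z + 1) - K N z = C (z + 1 + N) - C (z - N) := by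
  induction N with
  | zero => simp [K]
  | succ N ih =>
    have h1 : ∀ y, K (N + 1) y = K N y + P N y := by
      intro y
      unfold K
      rw [Finset.sum_range_succ, add_assoc]
    rw [h1, h1]
    have h2 : K N (z + 1) + P N (z + 1) - (K N z + P N z) =
        (K N (z + 1) - K N z) + (P N (z + 1) - P N z) := by ring
    rw [h2, ih]
    unfold P
    have e1 : z + 1 - ((N : ℂ) + 1) = z - N := by ring
    have e2 : z + 1 + ((N : ℂ) + 1) = z + 1 + ((N + 1 : ℕ) : ℂ) := by push_cast; ring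
    have e3 : z - ((N : ℂ) + 1) = z - ((N + 1 : ℕ) : ℂ) := by push_cast; ring
    have e4 : z + ((N : ℂ) + 1) = z + 1 + N := by ring
    rw [e1, e2, e3, e4]
    ring

theorem kap_add_one {z : ℂ} (hz : z ∉ Lat) : kap (z + 1) = kap z + 1 := by
  have hz1 : z + 1 ∉ Lat := fun h => hz (mem_Lat_add_one.1 h)
  have h1 := (tendsto_K hz1).sub (tendsto_K hz)
  have h2 : Tendsto (fun N : ℕ => C (z + 1 + N) - C (z - N)) atTop (𝓝 (1 - (-1))) :=
    (lim_C_right hz1).sub (lim_C_left hz)
  have h3 : (fun N : ℕ => K N (z + 1) - K N z) = fun N : ℕ => C (z + 1 + N) - C (z - N) :=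
    funext (K_shift z)
  rw [h3] at h1
  have h4 := tendsto_nhds_unique h1 h2
  linear_combination h4 / 2

theorem P_neg (j : ℕ) (z : ℂ) : P j (-z) = -P j z := by
  unfold P
  have e1 : -z - ((j : ℂ) + 1) = -(z + ((j : ℂ) + 1)) := by ring
  have e2 : -z + ((j : ℂ) + 1) = -(z - ((j : ℂ) + 1)) := by ring
  rw [e1, e2, C_neg, C_neg]
  ring

theorem kap_neg (z : ℂ) : kap (-z) = -kap z := by
  unfold kap
  have h : (fun j : ℕ => P j (-z)) = fun j : ℕ => -P j z := funext (fun j => P_neg j z)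
  rw [C_neg, h, tsum_neg]
  ring

theorem kap_add_I (z : ℂ) : kap (z + I) = kap z := by
  unfold kap
  have h : (fun j : ℕ => P j (z + I)) = fun j : ℕ => P j z := by
    funext j
    unfold P
    have e1 : z + I - ((j : ℂ) + 1) = z - ((j : ℂ) + 1) + I := by ring
    have e2 : z + I + ((j : ℂ) + 1) = z + ((j : ℂ) + 1) + I := by ring
    rw [e1, e2, C_add_I, C_add_I]
  rw [C_add_I, h]

theorem t_eq {z : ℂ} (hz : z ∉ Lat) (m : ℤ) : t m z = m * (C m + C (z - m)) := by
  by_cases hm : m = 0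
  · subst hm
    simp [t, w_zero]
  · unfold t w
    have h1 := sh_int_ne_zero hm
    have h2 := sh_ne_zero hz m
    rw [C_add_C h1 h2]
    have e : (m : ℂ) + (z - m) = z := by ring
    rw [e]
    field_simp

theorem S_neg (z : ℂ) : S (-z) = S z := by
  unfold S
  rw [← Equiv.tsum_eq (Equiv.neg ℤ)]
  congr 1
  funext m
  unfold t
  simp only [Equiv.neg_apply]
  rw [w_neg, sh_neg]
  have e : -z - ((-m : ℤ) : ℂ) = -(z - m) := by push_cast; ring
  rw [e, sh_neg, neg_div_neg_eq]

theorem S_add_I (z : ℂ) : S (z + I) = S z := by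
  unfold S
  congr 1
  funext m
  unfold t
  have e : z + I - (m : ℂ) = z - m + I := by ring
  rw [e, sh_add_I, sh_add_I, neg_div_neg_eq]

/-- partial sums of `S` -/
noncomputable def SS (N : ℕ) (z : ℂ) : ℂ := ∑ n ∈ Finset.range (N + 1), (t n z + t (-n) z)

theorem tendsto_SS {z : ℂ} (hz : z ∉ Lat) : Tendsto (fun N : ℕ => SS N z) atTop (𝓝 (S z)) := by
  have h1 := (summable_t hz).hasSum.nat_add_neg
  have h2 : t 0 z = 0 := by simp [t, w_zero]
  rw [h2, add_zero] at h1
  exact (h1.tendsto_sum_nat).comp (tendsto_add_atTop_nat 1)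

theorem SS_shift {z : ℂ} (hz : z ∉ Lat) (N : ℕ) : SS N (z + 1) - SS N z =
    K N z - C (z - N) - N * (C (z + N + 1) + C (z - N)) := by
  have hz1 : z + 1 ∉ Lat := fun h => hz (mem_Lat_add_one.1 h)
  induction N with
  | zero =>
    simp [SS, K, t, w_zero]
  | succ N ih =>
    have h1 : ∀ y, SS (N + 1) y = SS N y + (t ((N + 1 : ℕ) : ℤ) y + t (-((N + 1 : ℕ) : ℤ)) y) := by
      intro y
      unfold SS
      rw [Finset.sum_range_succ]
    have h2 : K (N + 1) z = K N z + P N z := by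
      unfold K
      rw [Finset.sum_range_succ, add_assoc]
    rw [h1, h1, h2]
    have h3 : ∀ a b c d : ℂ, (a + b) - (c + d) = (a - c) + (b - d) := by intro a b c d; ring
    rw [h3, ih, t_eq hz1, t_eq hz1, t_eq hz, t_eq hz]
    unfold P
    push_cast
    have e1 : z + 1 - ((N : ℂ) + 1) = z - N := by ring
    have e2 : z + 1 - -((N : ℂ) + 1) = z + ((N : ℂ) + 1) + 1 := by ring
    have e3 : z - -((N : ℂ) + 1) = z + ((N : ℂ) + 1) := by ring
    have e4 : z + (N : ℂ) + 1 = z + ((N : ℂ) + 1) := by ring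
    have e5 : z + 1 - (-1 + -(N : ℂ)) = z + ((N : ℂ) + 1) + 1 := by ring
    have e6 : z - (-1 + -(N : ℂ)) = z + ((N : ℂ) + 1) := by ring
    rw [e1, e2, e3, e4]
    ring

theorem S_add_one {z : ℂ} (hz : z ∉ Lat) : S (z + 1) = S z + 2 * kap z + 1 := by
  have hz1 : z + 1 ∉ Lat := fun h => hz (mem_Lat_add_one.1 h)
  have h1 := (tendsto_SS hz1).sub (tendsto_SS hz)
  have h3 : (fun N : ℕ => SS N (z + 1) - SS N z) = fun N : ℕ =>
    K N z - C (z - N) - N * (C (z + N + 1) + C (z - N)) := funext (SS_shift hz)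
  rw [h3] at h1
  have h4 : Tendsto (fun N : ℕ => (N : ℂ) * (C (z + N + 1) + C (z - N))) atTop (𝓝 0) := by
    obtain ⟨B, hB⟩ := tendsto_C_right hz
    obtain ⟨B', hB'⟩ := tendsto_C_right hz1
    rw [tendsto_zero_iff_norm_tendsto_zero]
    have h5 := tendsto_nat_mul_exp_neg.const_mul (B + B')
    rw [mul_zero] at h5
    refine squeeze_zero (fun _ => norm_nonneg _) (fun N => ?_) h5
    rw [norm_mul, Complex.norm_natCast]
    have e1 : C (z + N + 1) + C (z - N) = (C (z + 1 + N) - 1) + (C (z - N) + 1) := by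
      have : z + (N : ℂ) + 1 = z + 1 + N := by ring
      rw [this]; ring
    rw [e1]
    calc (N : ℝ) * ‖(C (z + 1 + N) - 1) + (C (z - N) + 1)‖
        ≤ (N : ℝ) * (B' * Real.exp (-(2 * (N : ℝ))) + B * Real.exp (-(2 * (N : ℝ)))) := by
          apply mul_le_mul_of_nonneg_left _ (Nat.cast_nonneg N)
          exact (norm_add_le _ _).trans (add_le_add (hB' N).1 (hB N).2)
      _ = _ := by ring
  have h5 : Tendsto (fun N : ℕ => K N z - C (z - N) - N * (C (z + N + 1) + C (z - N))) atTop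
      (𝓝 (2 * kap z - (-1) - 0)) := ((tendsto_K hz).sub (lim_C_left hz)).sub h4
  have h6 := tendsto_nhds_unique h1 h5
  linear_combination h6

end Pool.Agent.Hhelper96.Fermi
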