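import Pool.Agent.Hhelper96.Fermi.Defs

/-!
Completeness of the exponentials on the unit cell.
-/

set_option autoImplicit false

open MeasureTheory

namespace Pool.Agent.Hhelper96.Fermi

noncomputable local instance torusMeasure : MeasureSpace UnitAddCircle := ⟨AddCircle.haarAddCircle⟩

theorem cell_eq : cell = Set.univ.pi (fun _ : Fin 2 => Set.Ioc (0 : ℝ) 1) := by
  ext x
  simp [cell, Set.mem_pi]

theorem measurableSet_cell : MeasurableSet cell := by
  rw [cell_eq]
  exact MeasurableSet.univ_pi (fun _ => measurableSet_Ioc)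

theorem isFiniteMeasure_cell : IsFiniteMeasure ((volume : Measure (Fin 2 → ℝ)).restrict cell) := by
  constructor
  rw [Measure.restrict_apply_univ, cell_eq, Real.volume_pi_Ioc]
  simp

theorem mFourier_eq (n : Fin 2 → ℤ) (x : Fin 2 → ℝ) :
    UnitAddTorus.mFourier (-n) (fun i => (x i : UnitAddCircle)) =
      Complex.exp (-(2 * Real.pi * Complex.I * ∑ i, (n i : ℂ) * (x i : ℂ))) := by
  unfold UnitAddTorus.mFourier
  simp only [ContinuousMap.coe_mk, Fin.prod_univ_two, Fin.sum_univ_two, fourier_coe_apply,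
    Pi.neg_apply]
  rw [← Complex.exp_add]
  congr 1
  push_cast
  ring

/-- An `L²` function on the cell whose Fourier coefficients all vanish is zero a.e. -/
theorem ae_zero_of_fc {u : (Fin 2 → ℝ) → ℂ} (hu : MemLp u 2 (volume.restrict cell))
    (h : ∀ n, fc u n = 0) : u =ᵐ[volume.restrict cell] 0 := by
  set a : Fin 2 → ℝ := fun _ => 0 with ha
  set s : Set (Fin 2 → ℝ) := {x | ∀ i, x i ∈ Set.Ioc (a i) (a i + 1)} with hs
  have hsc : s = cell := by
    ext x
    simp [hs, ha, cell]
  have hsm : MeasurableSet s := by rw [hsc]; exact measurableSet_cell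
  set e := UnitAddTorus.measurableEquivPiIoc a with he
  set φ : UnitAddTorus (Fin 2) → (Fin 2 → ℝ) := fun y => (e y : Fin 2 → ℝ) with hφ
  have hmp1 := UnitAddTorus.measurePreserving_equivPiIoc a
  have hemb : MeasurableEmbedding φ :=
    (MeasurableEmbedding.subtype_coe hsm).comp e.measurableEmbedding
  have hmap : Measure.map φ volume = volume.restrict cell := by
    rw [← hsc, ← map_comap_subtype_coe hsm]
    have h1 : φ = Subtype.val ∘ e := rfl
    rw [h1, ← Measure.map_map measurable_subtype_coe e.measurable]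
    congr 1
    exact hmp1.map_eq
  have hg : MemLp (u ∘ φ) 2 volume := by
    rw [← hemb.memLp_map_measure_iff, hmap]
    exact hu
  have hcoef : ∀ n, UnitAddTorus.mFourierCoeff (u ∘ φ) n = 0 := by
    intro n
    rw [UnitAddTorus.mFourierCoeff_eq_integral (u ∘ φ) n a, ← h n]
    unfold fc
    have h2 : {x : Fin 2 → ℝ | ∀ i, x i ∈ Set.Ioc (a i) (a i + 1)} = cell := hsc
    rw [h2]
    apply setIntegral_congr_fun measurableSet_cell
    intro x hx
    have hx' : x ∈ s := by rw [hsc]; exact hx
    have h3 : φ (fun i => (x i : UnitAddCircle)) = x := by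
      have h4 : e.symm ⟨x, hx'⟩ = fun i => (x i : UnitAddCircle) := rfl
      simp only [hφ]
      rw [← h4, MeasurableEquiv.apply_symm_apply]
    simp only [Function.comp_apply, smul_eq_mul]
    rw [h3, mFourier_eq]
  have hz : (hg.toLp (u ∘ φ)) = 0 := by
    have h5 : UnitAddTorus.mFourierBasis.repr (hg.toLp (u ∘ φ)) = 0 := by
      ext n
      rw [UnitAddTorus.mFourierBasis_repr]
      have h6 : UnitAddTorus.mFourierCoeff (hg.toLp (u ∘ φ)) n =
          UnitAddTorus.mFourierCoeff (u ∘ φ) n := by
        unfold UnitAddTorus.mFourierCoeff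
        apply integral_congr_ae
        filter_upwards [hg.coeFn_toLp] with y hy
        rw [hy]
      rw [h6, hcoef]
      rfl
    exact (LinearIsometryEquiv.map_eq_zero_iff _).1 h5
  rw [Lp.eq_zero_iff_ae_eq_zero] at hz
  have h7 : ∀ᵐ y ∂(volume : Measure (UnitAddTorus (Fin 2))), u (φ y) = 0 := by
    filter_upwards [hz, hg.coeFn_toLp] with y h8 h9
    rw [h9] at h8
    exact h8
  have h10 := (hemb.ae_map_iff (μ := volume) (p := fun x => u x = 0)).2 h7
  rw [hmap] at h10
  exact h10

end Pool.Agent.Hhelper96.Fermi
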